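import Mathlib

set_option autoImplicit false
set_option linter.unusedSectionVars false

/-! Characters of compact abelian groups separate points. -/

namespace Pool.Agent.Helper89.PeterWeyl

open MeasureTheory InnerProductSpace ContinuousLinearMap Module Module.End

section Abstract

variable {K : Type*} [AddCommGroup K] [TopologicalSpace K] [IsTopologicalAddGroup K]
  [CompactSpace K] [MeasurableSpace K] [BorelSpace K]
  {H : Type*} [NormedAddCommGroup H] [InnerProductSpace ℂ H] [CompleteSpace H]

/-- A strongly continuous unitary representation. -/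
structure IsRep (U : K → H →L[ℂ] H) : Prop where
  zero : ∀ f, U 0 f = f
  add : ∀ a b f, U (a + b) f = U a (U b f)
  inner : ∀ a f g, inner ℂ (U a f) (U a g) = inner ℂ f g
  cont : ∀ g, Continuous fun a => U a g

variable (μ : Measure K) [IsProbabilityMeasure μ] [μ.IsAddLeftInvariant] [μ.IsOpenPosMeasure]

/-- The averaged rank one operator. -/
noncomputable def avg (U : K → H →L[ℂ] H) (g : H) : H →L[ℂ] H :=
  ∫ a, rankOne ℂ (U a g) (U a g) ∂μ

variable {U : K → H →L[ℂ] H} (hU : IsRep U) (g : H)

omit [MeasurableSpace K] [BorelSpace K] [CompleteSpace H] [IsTopologicalAddGroup K]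
  [CompactSpace K] in
include hU in
theorem rep_neg_left (a : K) (f h : H) : inner ℂ (U a f) h = inner ℂ f (U (-a) h) := by
  have := hU.inner (-a) (U a f) h
  rw [← hU.add, neg_add_cancel, hU.zero] at this
  exact this.symm

omit [MeasurableSpace K] [BorelSpace K] [CompleteSpace H] [IsTopologicalAddGroup K]
  [CompactSpace K] in
include hU in
theorem rep_comm (a b : K) (f : H) : U a (U b f) = U b (U a f) := by
  rw [← hU.add, ← hU.add, add_comm]

omit [MeasurableSpace K] [BorelSpace K] [CompleteSpace H] [IsTopologicalAddGroup K]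
  [CompactSpace K] in
include hU in
theorem cont_rankOne : Continuous fun a => rankOne ℂ (U a g) (U a g) := by
  have h := hU.cont g
  have h1 : Continuous fun a => innerSL ℂ (U a g) := (innerSL ℂ (E := H)).continuous.comp h
  exact (smulRightL ℂ H H).continuous₂.comp (h1.prodMk h)

omit [CompleteSpace H] [IsTopologicalAddGroup K] [μ.IsAddLeftInvariant]
  [μ.IsOpenPosMeasure] in
theorem integrable_of_cont {E : Type*} [NormedAddCommGroup E] {f : K → E} (hf : Continuous f) :
    Integrable f μ :=
  hf.integrable_of_hasCompactSupport (HasCompactSupport.of_compactSpace f)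

include hU in
theorem avg_apply (h : H) : avg μ U g h = ∫ a, inner ℂ (U a g) h • U a g ∂μ := by
  unfold avg
  rw [ContinuousLinearMap.integral_apply (integrable_of_cont μ (cont_rankOne hU g))]
  rfl

include hU in
theorem inner_avg (h k : H) :
    inner ℂ h (avg μ U g k) = ∫ a, inner ℂ (U a g) k * inner ℂ h (U a g) ∂μ := by
  rw [avg_apply μ hU]
  have hc : Continuous fun a => inner ℂ (U a g) k • U a g :=
    ((hU.cont g).inner continuous_const).smul (hU.cont g)
  have := integral_inner (𝕜 := ℂ) (integrable_of_cont μ hc) h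
  rw [← this]
  congr 1
  ext a
  rw [inner_smul_right]

include hU in
theorem avg_symm : (avg μ U g).IsSymmetric := by
  intro h k
  change inner ℂ (avg μ U g h) k = inner ℂ h (avg μ U g k)
  rw [inner_avg μ hU, ← inner_conj_symm, inner_avg μ hU, ← integral_conj]
  congr 1
  ext a
  rw [map_mul, inner_conj_symm, inner_conj_symm]
  ring

include hU in
theorem avg_comm (b : K) (h : H) : avg μ U g (U b h) = U b (avg μ U g h) := by
  rw [avg_apply μ hU, avg_apply μ hU]
  have hc : Continuous fun a => inner ℂ (U a g) h • U a g :=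
    ((hU.cont g).inner continuous_const).smul (hU.cont g)
  rw [← ContinuousLinearMap.integral_comp_comm _ (integrable_of_cont μ hc)]
  have := integral_add_left_eq_self (μ := μ) (fun a => inner ℂ (U a g) (U b h) • U a g) b
  rw [← this]
  congr 1
  ext a
  rw [hU.add, hU.inner, map_smul]

include hU in
theorem avg_compact : IsCompactOperator (avg μ U g) := by
  have h1 : IsClosed {T : H →L[ℂ] H | IsCompactOperator T} := isClosed_setOfPred_isCompactOperator
  have h2 : Convex ℝ {T : H →L[ℂ] H | IsCompactOperator T} := by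
    intro S hS T hT a b _ _ _
    have e1 : IsCompactOperator (⇑(a • S)) := hS.smul a
    have e2 : IsCompactOperator (⇑(b • T)) := hT.smul b
    exact e1.add e2
  refine h2.integral_mem h1 (Filter.Eventually.of_forall fun a => ?_)
    (integrable_of_cont μ (cont_rankOne hU g))
  change IsCompactOperator (⇑(rankOne ℂ (U a g) (U a g)))
  rw [rankOne_def']
  exact (isCompactOperator_of_locallyCompactSpace_rng
    (ContinuousLinearMap.toSpanSingleton ℂ (U a g))).comp_clm _

include hU in
theorem avg_ker {h : H} (hh : avg μ U g h = 0) : inner ℂ g h = 0 := by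
  have h0 : inner ℂ h (avg μ U g h) = 0 := by rw [hh, inner_zero_right]
  rw [inner_avg μ hU] at h0
  have e : (fun a => inner ℂ (U a g) h * inner ℂ h (U a g)) =
      fun a => ((‖inner ℂ (U a g) h‖ ^ 2 : ℝ) : ℂ) := by
    ext a
    rw [← inner_conj_symm h (U a g), Complex.mul_conj, Complex.normSq_eq_norm_sq]
  rw [e, integral_complex_ofReal] at h0
  have h1 : ∫ a, ‖inner ℂ (U a g) h‖ ^ 2 ∂μ = 0 := by exact_mod_cast h0
  have hc : Continuous fun a => ‖inner ℂ (U a g) h‖ ^ 2 :=
    (((hU.cont g).inner continuous_const).norm).pow 2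
  rw [integral_eq_zero_iff_of_nonneg (fun a => by positivity) (integrable_of_cont μ hc)] at h1
  have h2 := (hc.ae_eq_iff_eq μ continuous_const).1 h1
  have h3 := congrFun h2 0
  rw [hU.zero] at h3
  exact norm_eq_zero.1 (pow_eq_zero_iff (two_ne_zero) |>.1 h3)

include hU in
theorem exists_eigen {x : K} (hx : U x g ≠ g) :
    ∃ l : ℂ, l ≠ 0 ∧ ∃ v ∈ eigenspace (avg μ U g : End ℂ H) l, U x v ≠ v := by
  by_contra! hcon
  set T := avg μ U g with hT
  have hker : ∀ h, U x (T h) = T h := by
    let S : H →L[ℂ] H := (U x - ContinuousLinearMap.id ℂ H) ∘L T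
    have hS : (⨆ l, eigenspace (T : End ℂ H) l) ≤ LinearMap.ker (S : H →ₗ[ℂ] H) := by
      refine iSup_le fun l v hv => ?_
      have hv' : T v = l • v := mem_eigenspace_iff.1 hv
      by_cases hl : l = 0
      · rw [LinearMap.mem_ker]
        change (U x - ContinuousLinearMap.id ℂ H) (T v) = 0
        rw [hv', hl, zero_smul, map_zero]
      · have := hcon l hl v hv
        rw [LinearMap.mem_ker]
        change (U x) (T v) - T v = 0
        rw [hv', map_smul, this, sub_self]
    have hcl : IsClosed (LinearMap.ker (S : H →ₗ[ℂ] H) : Set H) := S.isClosed_ker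
    have htop : (⨆ l, eigenspace (T : End ℂ H) l).topologicalClosure = ⊤ := by
      rw [Submodule.topologicalClosure_eq_top_iff]
      exact orthogonalComplement_iSup_eigenspaces_eq_bot (avg_compact μ hU g) (avg_symm μ hU g)
    have hle : (⊤ : Submodule ℂ H) ≤ LinearMap.ker (S : H →ₗ[ℂ] H) := by
      rw [← htop]
      exact Submodule.topologicalClosure_minimal _ hS hcl
    intro h
    have := hle (Submodule.mem_top : h ∈ ⊤)
    rw [LinearMap.mem_ker] at this
    exact sub_eq_zero.1 this
  have hfix : U x g = g := by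
    have h1 : ∀ w : H, inner ℂ g (U x w - w) = 0 := by
      intro w
      apply avg_ker μ hU
      rw [map_sub, avg_comm μ hU, hker, sub_self]
    have h2 : U (-x) g = g := by
      refine ext_inner_right ℂ fun w => ?_
      have := h1 w
      rw [inner_sub_right, sub_eq_zero] at this
      rw [rep_neg_left hU, neg_neg]
      exact this
    have h3 : U x (U (-x) g) = g := by rw [← hU.add, add_neg_cancel, hU.zero]
    rw [h2] at h3
    exact h3
  exact hx hfix

/-- Generalised eigenvectors of an isometry are eigenvectors. -/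
theorem isometry_eigen {E : Type*} [NormedAddCommGroup E] [InnerProductSpace ℂ E]
    (A : End ℂ E) (hA : ∀ f g, inner ℂ (A f) (A g) = inner ℂ f g) (c : ℂ) (k : ℕ) (v : E)
    (hv : ((A - algebraMap ℂ (End ℂ E) c) ^ k) v = 0) : A v = c • v := by
  have key : ∀ v : E, (A - algebraMap ℂ (End ℂ E) c) ((A - algebraMap ℂ (End ℂ E) c) v) = 0 →
      (A - algebraMap ℂ (End ℂ E) c) v = 0 := by
    intro v h
    set w := (A - algebraMap ℂ (End ℂ E) c) v with hw
    have e1 : A v = c • v + w := by
      rw [hw, LinearMap.sub_apply, Module.algebraMap_end_apply]; abel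
    have e2 : A w = c • w := by
      rw [LinearMap.sub_apply, Module.algebraMap_end_apply, sub_eq_zero] at h
      exact h
    by_contra hne
    have h1 := hA w w
    have hww : inner ℂ w w ≠ 0 := inner_self_ne_zero.2 hne
    rw [e2, inner_smul_left, inner_smul_right, ← mul_assoc] at h1
    have hc : (starRingEnd ℂ) c * c = 1 := by
      have : ((starRingEnd ℂ) c * c) * inner ℂ w w = 1 * inner ℂ w w := by rw [h1, one_mul]
      exact mul_right_cancel₀ hww this
    have h2 := hA w v
    rw [e1, e2, inner_add_right, inner_smul_left, inner_smul_right, inner_smul_left, ← mul_assoc,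
      hc, one_mul] at h2
    have h3 : (starRingEnd ℂ) c * inner ℂ w w = 0 := by
      have := h2
      linear_combination this
    rcases mul_eq_zero.1 h3 with h | h
    · rw [h, zero_mul] at hc; exact zero_ne_one hc
    · exact hww h
  induction k with
  | zero =>
    simp only [pow_zero, End.one_apply] at hv
    rw [hv, map_zero, smul_zero]
  | succ k ih =>
    rcases k with _ | k
    · rw [zero_add, pow_one] at hv
      rw [LinearMap.sub_apply, Module.algebraMap_end_apply, sub_eq_zero] at hv
      exact hv
    · apply ih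
      rw [pow_succ', pow_succ'] at hv
      rw [pow_succ']
      exact key _ hv

include hU μ in
theorem exists_common {x : K} (hx : U x g ≠ g) :
    ∃ (v : H) (χ : K → ℂ), v ≠ 0 ∧ (∀ a, U a v = χ a • v) ∧ χ x ≠ 1 := by
  obtain ⟨l, hl, v0, hv0, hxv0⟩ := exists_eigen μ hU g hx
  set T := avg μ U g with hT
  set E := eigenspace (T : End ℂ H) l with hE
  have : FiniteDimensional ℂ E := finite_dimensional_eigenspace (avg_compact μ hU g) l hl
  have hinv : ∀ a, ∀ v ∈ E, (U a : End ℂ H) v ∈ E := by
    intro a v hv
    rw [hE, mem_eigenspace_iff] at hv ⊢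
    change T (U a v) = l • U a v
    rw [hT, avg_comm μ hU, ← hT]
    change U a ((T : End ℂ H) v) = _
    rw [hv, map_smul]
  let f : K → End ℂ E := fun a => (U a : End ℂ H).restrict (hinv a)
  have hf : ∀ a (v : E), ((f a v : E) : H) = U a v := fun a v => rfl
  have hcomm : Pairwise fun a b => Commute (f a) (f b) := by
    intro a b _
    refine LinearMap.ext fun v => Subtype.ext ?_
    change ((f a (f b v) : E) : H) = ((f b (f a v) : E) : H)
    rw [hf, hf, hf, hf, rep_comm hU]
  have htop := iSup_iInf_maxGenEigenspace_eq_top_of_iSup_maxGenEigenspace_eq_top_of_commute f hcomm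
    (fun a => iSup_maxGenEigenspace_eq_top (f a))
  have hiso : ∀ a, ∀ v w : E, inner ℂ (f a v) (f a w) = inner ℂ v w := by
    intro a v w
    exact hU.inner a v w
  have hchi : ∀ χ : K → ℂ, ∀ v ∈ ⨅ a, (f a).maxGenEigenspace (χ a), ∀ a, f a v = χ a • v := by
    intro χ v hv a
    rw [Submodule.mem_iInf] at hv
    obtain ⟨k, hk⟩ := mem_maxGenEigenspace (f a) (χ a) v |>.1 (hv a)
    refine isometry_eigen (f a) (hiso a) (χ a) k v ?_
    rw [Algebra.algebraMap_eq_smul_one]
    exact hk
  by_contra! hcon
  have hle : (⊤ : Submodule ℂ E) ≤ LinearMap.ker (f x - 1) := by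
    rw [← htop]
    refine iSup_le fun χ v hv => ?_
    have h1 := hchi χ v hv
    rw [LinearMap.mem_ker, LinearMap.sub_apply, End.one_apply]
    by_cases hv0 : v = 0
    · rw [hv0, map_zero, sub_zero]
    · have hvH : (v : H) ≠ 0 := fun h => hv0 (Subtype.ext h)
      have h2 := hcon (v : H) χ hvH (fun a => by rw [← hf, h1 a]; rfl)
      rw [h1 x, h2, one_smul, sub_self]
  have h3 := hle (Submodule.mem_top : (⟨v0, hv0⟩ : E) ∈ ⊤)
  rw [LinearMap.mem_ker, LinearMap.sub_apply, End.one_apply, sub_eq_zero] at h3
  exact hxv0 (congrArg Subtype.val h3)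

include hU μ in
theorem exists_circle {x : K} (hx : U x g ≠ g) :
    ∃ χ : K → ℂ, Continuous χ ∧ (∀ a b, χ (a + b) = χ a * χ b) ∧ (∀ a, ‖χ a‖ = 1) ∧ χ x ≠ 1 := by
  obtain ⟨v, χ, hv, hχ, hx1⟩ := exists_common μ hU g hx
  have hvv : inner ℂ v v ≠ 0 := inner_self_ne_zero.2 hv
  refine ⟨χ, ?_, ?_, ?_, hx1⟩
  · have : χ = fun a => inner ℂ v (U a v) / inner ℂ v v := by
      ext a
      rw [hχ, inner_smul_right, mul_div_cancel_right₀ _ hvv]
    rw [this]
    exact (continuous_const.inner (hU.cont v)).div_const _
  · intro a b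
    have h1 := hU.add a b v
    rw [hχ, hχ b, map_smul, hχ a, smul_smul] at h1
    have h2 := sub_eq_zero.2 h1
    rw [← sub_smul] at h2
    rcases smul_eq_zero.1 h2 with h | h
    · rw [sub_eq_zero] at h; rw [h, mul_comm]
    · exact absurd h hv
  · intro a
    have h1 := hU.inner a v v
    rw [hχ, inner_smul_left, inner_smul_right, ← mul_assoc] at h1
    have hc : (starRingEnd ℂ) (χ a) * χ a = 1 := by
      have : ((starRingEnd ℂ) (χ a) * χ a) * inner ℂ v v = 1 * inner ℂ v v := by rw [h1, one_mul]
      exact mul_right_cancel₀ hvv this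
    rw [Complex.conj_mul'] at hc
    have h2 : ‖χ a‖ ^ 2 = 1 := by exact_mod_cast hc
    exact (pow_eq_one_iff_of_nonneg (norm_nonneg _) two_ne_zero).1 h2

end Abstract

section Concrete

variable {K : Type*} [AddCommGroup K] [TopologicalSpace K] [IsTopologicalAddGroup K]
  [CompactSpace K] [T2Space K]

/-- The translation representation on `L²`. -/
noncomputable def transRep [MeasurableSpace K] [BorelSpace K] (μ : Measure K)
    [μ.IsAddLeftInvariant] (a : K) : Lp ℂ 2 μ →L[ℂ] Lp ℂ 2 μ :=
  (Lp.compMeasurePreservingₗᵢ ℂ (fun y => a + y) (measurePreserving_add_left μ a)).toContinuousLinearMap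

theorem transRep_isRep [MeasurableSpace K] [BorelSpace K] (μ : Measure K) [IsProbabilityMeasure μ]
    [μ.IsAddLeftInvariant] [μ.Regular] : IsRep (transRep μ) where
  zero f := by
    change Lp.compMeasurePreserving (fun y => (0 : K) + y) (measurePreserving_add_left μ 0) f = f
    rw [Lp.ext_iff]
    refine (Lp.coeFn_compMeasurePreserving _ _).trans (Filter.Eventually.of_forall fun y => ?_)
    change f ((0 : K) + y) = f y
    rw [zero_add]
  add a b f := by
    change Lp.compMeasurePreserving (fun y => (a + b) + y) (measurePreserving_add_left μ (a + b)) f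
      = Lp.compMeasurePreserving (fun y => a + y) (measurePreserving_add_left μ a)
        (Lp.compMeasurePreserving (fun y => b + y) (measurePreserving_add_left μ b) f)
    rw [← Lp.compMeasurePreserving_comp_apply]
    rw [Lp.ext_iff]
    refine (Lp.coeFn_compMeasurePreserving _ _).trans ?_
    refine Filter.EventuallyEq.trans ?_ (Lp.coeFn_compMeasurePreserving _ _).symm
    refine Filter.Eventually.of_forall fun y => ?_
    change f ((a + b) + y) = f (b + (a + y))
    congr 1
    abel
  inner a f g := by
    exact LinearIsometry.inner_map_map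
      (Lp.compMeasurePreservingₗᵢ ℂ (fun y => a + y) (measurePreserving_add_left μ a)) f g
  cont g := by
    change Continuous fun a : K =>
      Lp.compMeasurePreserving (fun y => a + y) (measurePreserving_add_left μ a) g
    let G : C(K, C(K, K)) := (ContinuousMap.mk (fun a : K × K => a.1 + a.2) continuous_add).curry
    exact (continuous_const (y := g)).compMeasurePreservingLp G.continuous
      (fun a => measurePreserving_add_left μ a) (by norm_num)

theorem exists_circle_char {x : K} (hx : x ≠ 0) :
    ∃ χ : K → ℂ, Continuous χ ∧ (∀ a b, χ (a + b) = χ a * χ b) ∧ (∀ a, ‖χ a‖ = 1) ∧ χ x ≠ 1 := by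
  borelize K
  let K0 : TopologicalSpace.PositiveCompacts K :=
    ⟨⟨Set.univ, isCompact_univ⟩, by simp⟩
  let μ : Measure K := Measure.addHaarMeasure K0
  have hprob : IsProbabilityMeasure μ := ⟨Measure.addHaarMeasure_self (K₀ := K0)⟩
  obtain ⟨f, hf0, hf1, -⟩ := exists_continuous_zero_one_of_isClosed (isClosed_singleton (x := x))
    (isClosed_singleton (x := (0 : K))) (by simpa using hx)
  let F : K → ℂ := fun y => (f y : ℂ)
  have hFc : Continuous F := Complex.continuous_ofReal.comp f.continuous
  have hF : MemLp F 2 μ := hFc.memLp_of_hasCompactSupport (HasCompactSupport.of_compactSpace F)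
  have hne : transRep μ x (hF.toLp F) ≠ hF.toLp F := by
    intro h
    change Lp.compMeasurePreserving (fun y => x + y) (measurePreserving_add_left μ x)
      (hF.toLp F) = hF.toLp F at h
    rw [Lp.toLp_compMeasurePreserving hF, MemLp.toLp_eq_toLp_iff] at h
    have h1 := (Continuous.ae_eq_iff_eq μ (hFc.comp (continuous_const.add continuous_id)) hFc).1 h
    have h2 := congrFun h1 0
    have h3 : F (x + 0) = F 0 := h2
    rw [add_zero] at h3
    have h4 : f x = f 0 := Complex.ofReal_injective h3
    rw [hf0 (Set.mem_singleton x), hf1 (Set.mem_singleton 0)] at h4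
    simp at h4
  exact exists_circle μ (transRep_isRep μ) _ hne

/-- **Characters of compact Hausdorff abelian groups separate points.** -/
theorem exists_char_ne_zero {x : K} (hx : x ≠ 0) :
    ∃ χ : K →+ AddCircle (1 : ℝ), Continuous χ ∧ χ x ≠ 0 := by
  obtain ⟨χ, hc, hmul, hn, hx1⟩ := exists_circle_char hx
  let ψ : K → Circle := fun a => ⟨χ a, mem_sphere_zero_iff_norm.2 (hn a)⟩
  have hψc : Continuous ψ := hc.subtype_mk _
  let e := AddCircle.homeomorphCircle (one_ne_zero (α := ℝ))
  have hadd : ∀ a b, e.symm (ψ (a + b)) = e.symm (ψ a) + e.symm (ψ b) := by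
    intro a b
    apply e.injective
    rw [e.apply_symm_apply, AddCircle.homeomorphCircle_apply, AddCircle.toCircle_add,
      ← AddCircle.homeomorphCircle_apply (one_ne_zero (α := ℝ)),
      ← AddCircle.homeomorphCircle_apply (one_ne_zero (α := ℝ))]
    change _ = e (e.symm (ψ a)) * e (e.symm (ψ b))
    rw [e.apply_symm_apply, e.apply_symm_apply]
    exact Subtype.ext (hmul a b)
  refine ⟨AddMonoidHom.mk' (fun a => e.symm (ψ a)) hadd, e.symm.continuous.comp hψc, ?_⟩
  intro h
  apply hx1
  have h1 : e.symm (ψ x) = 0 := h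
  have h2 : ψ x = e 0 := by rw [← h1, e.apply_symm_apply]
  rw [AddCircle.homeomorphCircle_apply, AddCircle.toCircle_zero] at h2
  exact congrArg Subtype.val h2

end Concrete

end Pool.Agent.Helper89.PeterWeyl
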