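import Mathlib

/-!
Fusion machinery on the Cantor space: 1-Lipschitz injections, infinite compositions,
and a Mycielski type theorem for nonmeagre Borel sets in finite powers.
-/

open Set Function Topology

namespace Pool.Agent.Helper89.GammaGroup

/-- The Cantor space. -/
abbrev C := ℕ → Bool

/-- `h` is 1-Lipschitz: initial segments of values depend on initial segments of arguments. -/
def Lip (h : C → C) : Prop :=
  ∀ (x y : C) (n : ℕ), (∀ i, i < n → x i = y i) → ∀ i, i < n → h x i = h y i

/-- `h` does not change the first `m` bits. -/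
def Fix (m : ℕ) (h : C → C) : Prop := ∀ (x : C) (i : ℕ), i < m → h x i = x i

/-- 1-Lipschitz injections of the Cantor space. -/
structure IsEmb (h : C → C) : Prop where
  lip : Lip h
  inj : Injective h

theorem Lip.id : Lip id := fun _ _ _ hxy i hi => hxy i hi

theorem Lip.comp {g h : C → C} (hg : Lip g) (hh : Lip h) : Lip (g ∘ h) :=
  fun x y n hxy => hg _ _ n (hh x y n hxy)

theorem Fix.id (m : ℕ) : Fix m id := fun _ _ _ => rfl

theorem Fix.comp {m : ℕ} {g h : C → C} (hg : Fix m g) (hh : Fix m h) : Fix m (g ∘ h) := by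
  intro x i hi
  simp only [Function.comp]
  rw [hg _ i hi, hh _ i hi]

theorem Fix.mono {m n : ℕ} (hmn : m ≤ n) {h : C → C} (hh : Fix n h) : Fix m h :=
  fun x i hi => hh x i (lt_of_lt_of_le hi hmn)

theorem IsEmb.id : IsEmb id := ⟨Lip.id, injective_id⟩

theorem IsEmb.comp {g h : C → C} (hg : IsEmb g) (hh : IsEmb h) : IsEmb (g ∘ h) :=
  ⟨hg.lip.comp hh.lip, hg.inj.comp hh.inj⟩

theorem isOpen_cyl (x : C) (n : ℕ) : IsOpen {y : C | ∀ i, i < n → y i = x i} := by
  have : {y : C | ∀ i, i < n → y i = x i} = ⋂ i ∈ Finset.range n, {y : C | y i = x i} := by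
    ext y; simp
  rw [this]
  refine isOpen_biInter_finset fun i _ => ?_
  have : {y : C | y i = x i} = (fun y : C => y i) ⁻¹' {x i} := rfl
  rw [this]
  exact (isOpen_discrete _).preimage (continuous_apply i)

theorem Lip.continuous {h : C → C} (hh : Lip h) : Continuous h := by
  refine continuous_pi fun i => ?_
  refine IsLocallyConstant.continuous ?_
  rw [IsLocallyConstant.iff_exists_open]
  intro x
  refine ⟨{y : C | ∀ j, j < i + 1 → y j = x j}, isOpen_cyl x (i + 1), fun _ _ => rfl, ?_⟩
  intro y hy
  exact hh y x (i + 1) hy i (Nat.lt_succ_self i)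

/-! ### Infinite compositions -/

/-- `compSeq h k = h 0 ∘ ... ∘ h (k-1)`. -/
def compSeq (h : ℕ → C → C) : ℕ → C → C
  | 0 => id
  | k + 1 => compSeq h k ∘ h k

/-- The infinite composition. -/
def lim (h : ℕ → C → C) : C → C := fun x i => compSeq h (i + 1) x i

theorem compSeq_isEmb {h : ℕ → C → C} (hE : ∀ k, IsEmb (h k)) (k : ℕ) :
    IsEmb (compSeq h k) := by
  induction k with
  | zero => exact IsEmb.id
  | succ k ih => exact ih.comp (hE k)

theorem compSeq_fix {m : ℕ} {h : ℕ → C → C} (hE : ∀ k, Fix m (h k)) (k : ℕ) :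
    Fix m (compSeq h k) := by
  induction k with
  | zero => exact Fix.id m
  | succ k ih => exact ih.comp (hE k)

theorem compSeq_add (h : ℕ → C → C) (k l : ℕ) :
    compSeq h (k + l) = compSeq h k ∘ compSeq (fun n => h (k + n)) l := by
  induction l with
  | zero => rfl
  | succ l ih =>
    change compSeq h (k + l) ∘ h (k + l) = _
    rw [ih]; rfl

theorem compSeq_stable {h : ℕ → C → C} (hE : ∀ k, IsEmb (h k)) (hF : ∀ k, Fix k (h k))
    {i k : ℕ} (hik : i + 1 ≤ k) (x : C) : compSeq h k x i = compSeq h (i + 1) x i := by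
  induction k, hik using Nat.le_induction with
  | base => rfl
  | succ k hk ih =>
    rw [← ih]
    change compSeq h k (h k x) i = compSeq h k x i
    exact (compSeq_isEmb hE k).lip _ _ k (fun j hj => hF k x j hj) i (by omega)

theorem lim_lip {h : ℕ → C → C} (hE : ∀ k, IsEmb (h k)) : Lip (lim h) := by
  intro x y n hxy i hi
  exact (compSeq_isEmb hE (i + 1)).lip x y n hxy i hi

theorem lim_fix {m : ℕ} {h : ℕ → C → C} (hF : ∀ k, Fix m (h k)) : Fix m (lim h) := by
  intro x i hi
  exact compSeq_fix hF (i + 1) x i hi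

theorem lim_eq {h : ℕ → C → C} (hE : ∀ k, IsEmb (h k)) (hF : ∀ k, Fix k (h k)) (k : ℕ) :
    lim h = compSeq h k ∘ lim (fun n => h (k + n)) := by
  have hE' : ∀ n, IsEmb ((fun n => h (k + n)) n) := fun n => hE _
  have hF' : ∀ n, Fix n ((fun n => h (k + n)) n) := fun n => (hF (k + n)).mono (by omega)
  funext x i
  have h1 : compSeq h k (lim (fun n => h (k + n)) x) i
      = compSeq h k (compSeq (fun n => h (k + n)) (i + 1) x) i := by
    refine (compSeq_isEmb hE k).lip _ _ (i + 1) (fun j hj => ?_) i (Nat.lt_succ_self i)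
    exact (compSeq_stable hE' hF' (i := j) (k := i + 1) (by omega) x).symm
  change lim h x i = compSeq h k (lim (fun n => h (k + n)) x) i
  rw [h1]
  have h2 : compSeq h (k + (i + 1)) x i = compSeq h (i + 1) x i :=
    compSeq_stable hE hF (by omega) x
  rw [compSeq_add] at h2
  exact h2.symm

theorem lim_shift_fix {h : ℕ → C → C} (hF : ∀ k, Fix k (h k)) (k : ℕ) :
    Fix k (lim (fun n => h (k + n))) :=
  lim_fix fun n => (hF (k + n)).mono (by omega)

theorem lim_isEmb {h : ℕ → C → C} (hE : ∀ k, IsEmb (h k)) (hF : ∀ k, Fix k (h k)) :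
    IsEmb (lim h) := by
  refine ⟨lim_lip hE, ?_⟩
  intro x y hxy
  by_contra hne
  obtain ⟨n, hn⟩ : ∃ n, x n ≠ y n := by
    by_contra hcon
    push Not at hcon
    exact hne (funext hcon)
  rw [lim_eq hE hF (n + 1)] at hxy
  have h1 := (compSeq_isEmb hE (n + 1)).inj hxy
  have h2 := congrFun h1 n
  rw [lim_shift_fix hF (n + 1) x n (by omega), lim_shift_fix hF (n + 1) y n (by omega)] at h2
  exact hn h2

/-! ### Prepending finite strings -/

/-- Prepend a string of length `n`. -/
def app (n : ℕ) (s : Fin n → Bool) (y : C) : C :=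
  fun i => if h : i < n then s ⟨i, h⟩ else y (i - n)

/-- The restriction to the first `n` bits. -/
def res (n : ℕ) (x : C) : Fin n → Bool := fun i => x i

/-- Drop the first `n` bits. -/
def drp (n : ℕ) (x : C) : C := fun i => x (n + i)

theorem app_res_drp (n : ℕ) (x : C) : app n (res n x) (drp n x) = x := by
  funext i
  unfold app res drp
  by_cases h : i < n
  · simp [h]
  · simp only [h, dite_false]
    congr 1; omega

theorem app_isEmb (n : ℕ) (s : Fin n → Bool) : IsEmb (app n s) := by
  constructor
  · intro x y N hxy i hi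
    unfold app
    by_cases h : i < n
    · simp [h]
    · simp only [h, dite_false]
      exact hxy _ (by omega)
  · intro x y hxy
    funext i
    have := congrFun hxy (i + n)
    unfold app at this
    simpa using this

/-- Apply `e s` to the part of the Cantor space above `s`, for all strings `s` of length `n`. -/
def pw (n : ℕ) (e : (Fin n → Bool) → C → C) : C → C :=
  fun z => app n (res n z) (e (res n z) (drp n z))

theorem pw_fix (n : ℕ) (e : (Fin n → Bool) → C → C) : Fix n (pw n e) := by
  intro x i hi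
  unfold pw app res
  simp [hi]

theorem pw_app (n : ℕ) (e : (Fin n → Bool) → C → C) (s : Fin n → Bool) (y : C) :
    pw n e (app n s y) = app n s (e s y) := by
  have h1 : res n (app n s y) = s := by
    funext i; unfold res app; simp
  have h2 : drp n (app n s y) = y := by
    funext i; unfold drp app; simp
  unfold pw
  rw [h1, h2]

theorem pw_isEmb (n : ℕ) (e : (Fin n → Bool) → C → C) (he : ∀ s, IsEmb (e s)) :
    IsEmb (pw n e) := by
  constructor
  · intro x y N hxy i hi
    by_cases h : i < n
    · rw [pw_fix n e x i h, pw_fix n e y i h]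
      exact hxy i hi
    · have hr : res n x = res n y := by
        funext j
        exact hxy j (by have := j.2; omega)
      unfold pw
      rw [← hr]
      unfold app
      simp only [h, dite_false]
      refine (he _).lip _ _ (N - n) (fun j hj => ?_) _ (by omega)
      unfold drp
      exact hxy _ (by omega)
  · intro x y hxy
    have hr : res n x = res n y := by
      funext j
      have := congrFun hxy j
      rwa [pw_fix n e x j j.2, pw_fix n e y j j.2] at this
    unfold pw at hxy
    rw [← hr] at hxy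
    have h1 := (app_isEmb n (res n x)).inj hxy
    have h2 := (he _).inj h1
    rw [← app_res_drp n x, ← app_res_drp n y, ← hr, h2]

/-! ### The space of 1-Lipschitz maps and a Mycielski type theorem -/

/-- The list of the first `n` bits. -/
def bits (x : C) (n : ℕ) : List Bool := List.ofFn (fun i : Fin n => x i)

theorem bits_length (x : C) (n : ℕ) : (bits x n).length = n := by
  unfold bits; simp

theorem bits_congr {x y : C} {n : ℕ} (h : ∀ i, i < n → x i = y i) : bits x n = bits y n := by
  unfold bits
  congr 1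
  funext i
  exact h i i.2

/-- A code of a family of 1-Lipschitz maps. -/
abbrev Code (J : Type) := J × List Bool → Bool

/-- Evaluation of a code. -/
def ev {J : Type} (τ : Code J) (j : J) (x : C) : C := fun n => τ (j, bits x (n + 1))

theorem ev_lip {J : Type} (τ : Code J) (j : J) : Lip (ev τ j) := by
  intro x y n hxy i hi
  unfold ev
  rw [bits_congr (x := x) (y := y) (n := i + 1) (fun k hk => hxy k (by omega))]

theorem continuous_ev {J : Type} (j : J) :
    Continuous (fun p : Code J × C => ev p.1 j p.2) := by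
  refine continuous_pi fun n => ?_
  rw [continuous_iff_continuousAt]
  rintro ⟨τ, x⟩
  have h1 : ContinuousAt (fun p : Code J × C => p.1 (j, bits x (n + 1))) (τ, x) :=
    ((continuous_apply (j, bits x (n + 1))).comp continuous_fst).continuousAt
  refine h1.congr ?_
  have h2 : {p : Code J × C | ∀ i, i < n + 1 → p.2 i = x i} ∈ 𝓝 (τ, x) := by
    refine IsOpen.mem_nhds ?_ (fun _ _ => rfl)
    exact (isOpen_cyl x (n + 1)).preimage continuous_snd
  filter_upwards [h2] with p hp
  change p.1 (j, bits x (n + 1)) = p.1 (j, bits p.2 (n + 1))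
  rw [bits_congr hp]

/-- The family of values. -/
def evs {J : Type} (τ : Code J) (y : J → C) : J → C := fun j => ev τ j (y j)

theorem continuous_evs {J : Type} :
    Continuous (fun p : Code J × (J → C) => evs p.1 p.2) := by
  refine continuous_pi fun j => ?_
  exact (continuous_ev j).comp
    (continuous_fst.prodMk ((continuous_apply j).comp continuous_snd))

theorem isOpen_forall_evs {J : Type} {D : Set (J → C)} (hD : IsOpen D) :
    IsOpen {τ : Code J | ∀ y : J → C, evs τ y ∈ D} := by
  have h1 : {τ : Code J | ∀ y : J → C, evs τ y ∈ D}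
      = (Prod.fst '' {p : Code J × (J → C) | evs p.1 p.2 ∉ D})ᶜ := by
    ext τ
    simp
  rw [h1, isOpen_compl_iff]
  refine isClosedMap_fst_of_compactSpace _ ?_
  exact (isClosed_compl_iff.2 hD).preimage continuous_evs

theorem isOpen_inj_ev {J : Type} (j : J) (n : ℕ) :
    IsOpen {τ : Code J | ∀ x y : C, x n ≠ y n → ev τ j x ≠ ev τ j y} := by
  have h1 : {τ : Code J | ∀ x y : C, x n ≠ y n → ev τ j x ≠ ev τ j y}
      = (Prod.fst '' {p : Code J × (C × C) | p.2.1 n ≠ p.2.2 n ∧
          ev p.1 j p.2.1 = ev p.1 j p.2.2})ᶜ := by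
    ext τ
    simp only [mem_ofPred_eq, mem_compl_iff, mem_image, Prod.exists, not_exists, not_and]
    constructor
    · rintro h τ' x y ⟨hxy, he⟩ rfl
      exact h x y hxy he
    · intro h x y hxy he
      exact h τ x y ⟨hxy, he⟩ rfl
  rw [h1, isOpen_compl_iff]
  refine isClosedMap_fst_of_compactSpace _ ?_
  have hc1 : IsClosed {p : Code J × (C × C) | p.2.1 n ≠ p.2.2 n} := by
    have : Continuous (fun p : Code J × (C × C) => (p.2.1 n, p.2.2 n)) := by
      refine Continuous.prodMk ?_ ?_
      · exact (continuous_apply n).comp (continuous_fst.comp continuous_snd)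
      · exact (continuous_apply n).comp (continuous_snd.comp continuous_snd)
    exact (isClosed_discrete {q : Bool × Bool | q.1 ≠ q.2}).preimage this
  have hc2 : IsClosed {p : Code J × (C × C) | ev p.1 j p.2.1 = ev p.1 j p.2.2} := by
    refine isClosed_eq ?_ ?_
    · exact (continuous_ev j).comp (continuous_fst.prodMk (continuous_fst.comp continuous_snd))
    · exact (continuous_ev j).comp (continuous_fst.prodMk (continuous_snd.comp continuous_snd))
  exact hc1.inter hc2

/-- The basic density argument: codes whose maps are constant above strings of length `L`. -/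
theorem dense_codes {J : Type} [Finite J] (𝒟 : Set (Code J)) (L₀ : ℕ)
    (h : ∀ L, L₀ ≤ L → ∃ 𝒢 : Set (J × (Fin L → Bool) → C), Dense 𝒢 ∧
      ∀ w ∈ 𝒢, ∀ τ : Code J, (∀ j y, ev τ j y = w (j, res L y)) → τ ∈ 𝒟) : Dense 𝒟 := by
  rw [dense_iff_inter_open]
  rintro 𝒪 h𝒪 ⟨τ₀, hτ₀⟩
  rw [isOpen_pi_iff] at h𝒪
  obtain ⟨I, u, hu, hIu⟩ := h𝒪 τ₀ hτ₀
  -- a level above all lists in `I`
  obtain ⟨L, hL0, hL⟩ : ∃ L, L₀ ≤ L ∧ ∀ a ∈ I, a.2.length ≤ L := by
    refine ⟨max L₀ (I.sup fun a => a.2.length), le_max_left _ _, fun a ha => ?_⟩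
    exact le_trans (Finset.le_sup (f := fun a : J × List Bool => a.2.length) ha)
      (le_max_right _ _)
  obtain ⟨𝒢, h𝒢, hG⟩ := h L hL0
  -- the initial values
  let w₀ : J × (Fin L → Bool) → C := fun a => ev τ₀ a.1 (app L a.2 (fun _ => false))
  let V : Set (J × (Fin L → Bool) → C) := {w | ∀ a, ∀ i, i < L → w a i = w₀ a i}
  have hV : IsOpen V := by
    have : V = ⋂ a, (fun w : J × (Fin L → Bool) → C => w a) ⁻¹'
        {y : C | ∀ i, i < L → y i = w₀ a i} := by
      ext w; simp [V]
    rw [this]
    refine isOpen_iInter_of_finite fun a => ?_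
    exact (isOpen_cyl (w₀ a) L).preimage (continuous_apply a)
  obtain ⟨w, hwV, hwG⟩ := h𝒢.inter_open_nonempty V hV ⟨w₀, fun _ _ _ => rfl⟩
  -- the new code
  let τ : Code J := fun a =>
    if a.2.length ≤ L then τ₀ a
    else w (a.1, fun i : Fin L => a.2.getD i false) (a.2.length - 1)
  have hτ : ∀ j y, ev τ j y = w (j, res L y) := by
    intro j y
    funext n
    change τ (j, bits y (n + 1)) = _
    by_cases hn : n + 1 ≤ L
    · have h1 : τ (j, bits y (n + 1)) = τ₀ (j, bits y (n + 1)) := by
        simp only [τ]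
        rw [if_pos]
        rw [bits_length]; exact hn
      rw [h1, hwV (j, res L y) n (by omega)]
      change _ = τ₀ (j, bits _ (n + 1))
      rw [bits_congr]
      intro i hi
      unfold app res
      have : i < L := by omega
      simp [this]
    · have h1 : τ (j, bits y (n + 1)) = w (j, fun i : Fin L => (bits y (n + 1)).getD i false)
          ((bits y (n + 1)).length - 1) := by
        simp only [τ]
        rw [if_neg]
        rw [bits_length]; exact hn
      rw [h1, bits_length]
      have h2 : (fun i : Fin L => (bits y (n + 1)).getD i false) = res L y := by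
        funext i
        have hi := i.2
        unfold bits res
        rw [List.getD_eq_getElem _ _ (by rw [List.length_ofFn]; omega), List.getElem_ofFn]
      rw [h2]
      rfl
  refine ⟨τ, hIu ?_, hG w hwG τ hτ⟩
  intro a ha
  have h1 : τ a = τ₀ a := by
    simp only [τ]
    rw [if_pos (hL a ha)]
  rw [h1]
  exact (hu a ha).2

/-- Density is pulled back along an injective change of finitely many coordinates. -/
theorem dense_precomp {J K Y : Type} [TopologicalSpace Y] {D : Set (J → Y)} (hD : Dense D)
    (ρ : J → K) (hρ : Injective ρ) : Dense {w : K → Y | (fun j => w (ρ j)) ∈ D} := by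
  rw [dense_iff_inter_open]
  rintro V hV ⟨w₀, hw₀⟩
  let Φ : (J → Y) → (K → Y) := fun u => Function.extend ρ u w₀
  have hΦ : Continuous Φ := by
    refine continuous_pi fun k => ?_
    by_cases hk : ∃ j, ρ j = k
    · obtain ⟨j, rfl⟩ := hk
      have : (fun u : J → Y => Φ u (ρ j)) = fun u => u j := by
        funext u
        exact hρ.extend_apply u w₀ j
      rw [this]
      exact continuous_apply j
    · have : (fun u : J → Y => Φ u k) = fun u => w₀ k := by
        funext u
        exact Function.extend_apply' u w₀ k hk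
      rw [this]
      exact continuous_const
  have hne : (Φ ⁻¹' V).Nonempty := by
    refine ⟨fun j => w₀ (ρ j), ?_⟩
    have : Φ (fun j => w₀ (ρ j)) = w₀ := by
      funext k
      by_cases hk : ∃ j, ρ j = k
      · obtain ⟨j, rfl⟩ := hk
        exact hρ.extend_apply _ w₀ j
      · exact Function.extend_apply' _ w₀ k hk
    change Φ _ ∈ V
    rw [this]; exact hw₀
  obtain ⟨u, huV, huD⟩ := hD.inter_open_nonempty _ (hV.preimage hΦ) hne
  refine ⟨Φ u, huV, ?_⟩
  have : (fun j => Φ u (ρ j)) = u := by
    funext j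
    exact hρ.extend_apply u w₀ j
  change (fun j => Φ u (ρ j)) ∈ D
  rw [this]; exact huD

theorem isOpen_precomp {J K Y : Type} [TopologicalSpace Y] {D : Set (J → Y)} (hD : IsOpen D)
    (ρ : J → K) : IsOpen {w : K → Y | (fun j => w (ρ j)) ∈ D} :=
  hD.preimage (continuous_pi fun j => continuous_apply (ρ j))

theorem dense_ne_pair : Dense {w : Fin 2 → C | w 0 ≠ w 1} := by
  rw [dense_iff_inter_open]
  rintro V hV ⟨w₀, hw₀⟩
  by_cases h : w₀ 0 ≠ w₀ 1
  · exact ⟨w₀, hw₀, h⟩
  push Not at h
  -- change `w₀ 1` at a far coordinate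
  let ψ : C → (Fin 2 → C) := fun c => Function.update w₀ 1 c
  have hψ : Continuous ψ := continuous_const.update 1 continuous_id
  have hmem : ψ (w₀ 1) ∈ V := by
    change Function.update w₀ 1 (w₀ 1) ∈ V
    rw [Function.update_eq_self]; exact hw₀
  have hO : IsOpen (ψ ⁻¹' V) := hV.preimage hψ
  rw [isOpen_pi_iff] at hO
  obtain ⟨I, u, hu, hIu⟩ := hO (w₀ 1) hmem
  obtain ⟨n, hn⟩ : ∃ n, n ∉ I := Infinite.exists_notMem_finset I
  let c : C := Function.update (w₀ 1) n (!(w₀ 1 n))
  have hc : c ∈ ψ ⁻¹' V := by
    refine hIu ?_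
    intro a ha
    have : a ≠ n := by
      rintro rfl
      exact hn ha
    have h1 : c a = w₀ 1 a := Function.update_of_ne this _ _
    rw [h1]
    exact (hu a ha).2
  refine ⟨ψ c, hc, ?_⟩
  change ψ c 0 ≠ ψ c 1
  have h0 : ψ c 0 = w₀ 0 := Function.update_of_ne (by decide) _ _
  have h1 : ψ c 1 = c := Function.update_self _ _ _
  rw [h0, h1, h]
  intro he
  have := congrFun he n
  simp [c] at this

theorem dense_forall_evs {J : Type} [Finite J] {D : Set (J → C)} (hO : IsOpen D)
    (hD : Dense D) : Dense {τ : Code J | ∀ y : J → C, evs τ y ∈ D} := by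
  refine dense_codes _ 0 fun L _ => ?_
  refine ⟨⋂ σ : J → (Fin L → Bool), {w | (fun j => w (j, σ j)) ∈ D}, ?_, ?_⟩
  · refine dense_iInter_of_isOpen ?_ ?_
    · intro σ
      exact isOpen_precomp hO (fun j => (j, σ j))
    · intro σ
      exact dense_precomp hD (fun j => (j, σ j)) (fun a b hab => (Prod.mk.inj hab).1)
  · intro w hw τ hτ y
    have h1 : evs τ y = fun j => w (j, res L (y j)) := by
      funext j
      exact hτ j (y j)
    rw [h1]
    exact mem_iInter.1 hw (fun j => res L (y j))

theorem dense_inj_ev {J : Type} [Finite J] (j : J) (n : ℕ) :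
    Dense {τ : Code J | ∀ x y : C, x n ≠ y n → ev τ j x ≠ ev τ j y} := by
  refine dense_codes _ (n + 1) fun L hL => ?_
  refine ⟨⋂ q : {q : (Fin L → Bool) × (Fin L → Bool) // q.1 ≠ q.2},
    {w | w (j, q.1.1) ≠ w (j, q.1.2)}, ?_, ?_⟩
  · refine dense_iInter_of_isOpen ?_ ?_
    · intro q
      exact isOpen_ne_fun (continuous_apply _) (continuous_apply _)
    · intro q
      have := dense_precomp dense_ne_pair
        (fun i : Fin 2 => ((j, if i = 0 then q.1.1 else q.1.2) : J × (Fin L → Bool))) ?_
      · simpa using this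
      · intro a b hab
        have h2 := (Prod.mk.inj hab).2
        have hq := q.2
        fin_cases a <;> fin_cases b <;> simp_all
  · intro w hw τ hτ x y hxy
    rw [hτ j x, hτ j y]
    have hne : res L x ≠ res L y := by
      intro he
      exact hxy (congrFun he ⟨n, by omega⟩)
    exact mem_iInter.1 hw ⟨(res L x, res L y), hne⟩

/-- Mycielski type theorem: a nonmeagre Borel subset of a finite power of the Cantor space
contains a product of ranges of 1-Lipschitz injections. -/
theorem mycielski {J : Type} [Finite J] (B : Set (J → C)) (hB : MeasurableSet B)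
    (hn : ¬ IsMeagre B) :
    ∃ e : J → C → C, (∀ j, IsEmb (e j)) ∧ ∀ y : J → C, (fun j => e j (y j)) ∈ B := by
  obtain ⟨U, hU, hBU⟩ := hB.residualEq_isOpen
  have hres : {y | y ∈ B ↔ y ∈ U} ∈ residual (J → C) := by
    filter_upwards [hBU] with y hy
    exact iff_of_eq hy
  have hUne : U.Nonempty := by
    by_contra hcon
    rw [not_nonempty_iff_eq_empty] at hcon
    refine hn ?_
    change Bᶜ ∈ residual _
    filter_upwards [hres] with y hy
    rw [hcon] at hy
    simpa using hy
  obtain ⟨u, hu⟩ := hUne
  obtain ⟨t, ht, htG, htD⟩ := mem_residual.1 hres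
  obtain ⟨D, hDo, rfl⟩ := isGδ_iff_eq_iInter_nat.1 htG
  have hDD : ∀ n, Dense (D n) := fun n => htD.mono (iInter_subset _ n)
  -- the generic code
  have hdense : Dense ((⋂ n, {τ : Code J | ∀ y : J → C, evs τ y ∈ D n}) ∩
      (⋂ a : J × ℕ, {τ : Code J | ∀ x y : C, x a.2 ≠ y a.2 → ev τ a.1 x ≠ ev τ a.1 y})) := by
    have h1 : Dense (⋂ n, {τ : Code J | ∀ y : J → C, evs τ y ∈ D n}) :=
      dense_iInter_of_isOpen_nat (fun n => isOpen_forall_evs (hDo n))
        (fun n => dense_forall_evs (hDo n) (hDD n))
    have h2 : Dense (⋂ a : J × ℕ,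
        {τ : Code J | ∀ x y : C, x a.2 ≠ y a.2 → ev τ a.1 x ≠ ev τ a.1 y}) :=
      dense_iInter_of_isOpen (fun a => isOpen_inj_ev a.1 a.2) (fun a => dense_inj_ev a.1 a.2)
    refine Dense.inter_of_Gδ ?_ ?_ h1 h2
    · exact IsGδ.iInter_of_isOpen fun n => isOpen_forall_evs (hDo n)
    · exact IsGδ.iInter_of_isOpen fun a => isOpen_inj_ev a.1 a.2
  have hOU : IsOpen {τ : Code J | ∀ y : J → C, evs τ y ∈ U} := isOpen_forall_evs hU
  have hOne : ({τ : Code J | ∀ y : J → C, evs τ y ∈ U}).Nonempty := by
    refine ⟨fun a => u a.1 (a.2.length - 1), fun y => ?_⟩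
    have : evs (fun a : J × List Bool => u a.1 (a.2.length - 1)) y = u := by
      funext j n
      change u j ((bits (y j) (n + 1)).length - 1) = u j n
      rw [bits_length]; rfl
    rw [this]; exact hu
  obtain ⟨τ, hτU, hτ1, hτ2⟩ := hdense.inter_open_nonempty _ hOU hOne
  refine ⟨fun j => ev τ j, fun j => ⟨ev_lip τ j, ?_⟩, fun y => ?_⟩
  · intro x y hxy
    by_contra hne
    obtain ⟨n, hn⟩ : ∃ n, x n ≠ y n := by
      by_contra hcon
      push Not at hcon
      exact hne (funext hcon)
    exact mem_iInter.1 hτ2 (j, n) x y hn hxy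
  · have h1 : evs τ y ∈ ⋂ n, D n := by
      rw [mem_iInter]
      intro n
      exact mem_iInter.1 hτ1 n y
    have h2 := ht h1
    exact h2.2 (hτU y)

end Pool.Agent.Helper89.GammaGroup
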