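import Pool.Agent.Helper89.GammaFusion

/-!
Generic chains through a sigma-closed preorder of countable conditions.
-/

open Set Function Topology Cardinal

namespace Pool.Agent.Helper89.GammaGroup

/-- A countable chain in a preorder with lower bounds for descending sequences has a lower
bound. -/
theorem chain_bound {D : Type} [Preorder D] [Nonempty D]
    (hω : ∀ p : ℕ → D, (∀ n, p (n + 1) ≤ p n) → ∃ q, ∀ n, q ≤ p n)
    (S : Set D) (hS : S.Countable) (hc : ∀ a ∈ S, ∀ b ∈ S, a ≤ b ∨ b ≤ a) :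
    ∃ q, ∀ s ∈ S, q ≤ s := by
  classical
  rcases S.eq_empty_or_nonempty with rfl | hne
  · exact ⟨Classical.arbitrary D, fun s hs => absurd hs (notMem_empty s)⟩
  obtain ⟨s, hs⟩ := hS.exists_eq_range hne
  obtain ⟨mn, hmn⟩ : ∃ mn : D → D → D, ∀ a b, (a ≤ b ∧ mn a b = a) ∨ (¬ a ≤ b ∧ mn a b = b) := by
    refine ⟨fun a b => if a ≤ b then a else b, fun a b => ?_⟩
    by_cases h : a ≤ b
    · exact Or.inl ⟨h, if_pos h⟩
    · exact Or.inr ⟨h, if_neg h⟩
  obtain ⟨t, ht0, ht1⟩ : ∃ t : ℕ → D, t 0 = s 0 ∧ ∀ n, t (n + 1) = mn (t n) (s (n + 1)) :=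
    ⟨fun n => Nat.rec (motive := fun _ => D) (s 0) (fun n x => mn x (s (n + 1))) n,
      rfl, fun n => rfl⟩
  have hsS : ∀ n, s n ∈ S := fun n => by rw [hs]; exact mem_range_self n
  have htS : ∀ n, t n ∈ S := by
    intro n
    induction n with
    | zero => rw [ht0]; exact hsS 0
    | succ n ih =>
      rcases hmn (t n) (s (n + 1)) with h | h
      · rw [ht1, h.2]; exact ih
      · rw [ht1, h.2]; exact hsS _
  have hanti : ∀ n, t (n + 1) ≤ t n := by
    intro n
    rcases hmn (t n) (s (n + 1)) with h | h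
    · rw [ht1, h.2]
    · rw [ht1, h.2]
      rcases hc _ (htS n) _ (hsS (n + 1)) with h' | h'
      · exact absurd h' h.1
      · exact h'
  have hle : ∀ n, t n ≤ s n := by
    intro n
    cases n with
    | zero => rw [ht0]
    | succ n =>
      rcases hmn (t n) (s (n + 1)) with h | h
      · rw [ht1, h.2]; exact h.1
      · rw [ht1, h.2]
  obtain ⟨q, hq⟩ := hω t hanti
  refine ⟨q, fun x hx => ?_⟩
  rw [hs] at hx
  obtain ⟨n, rfl⟩ := hx
  exact le_trans (hq n) (hle n)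

/-- Existence of a chain meeting `ℵ₁` many dense sets. -/
theorem exists_generic {D : Type} [Preorder D] [Nonempty D]
    (hω : ∀ p : ℕ → D, (∀ n, p (n + 1) ≤ p n) → ∃ q, ∀ n, q ≤ p n)
    {α : Type} (hα : #α ≤ ℵ₁) (E : α → Set D) (hE : ∀ a p, ∃ q ∈ E a, q ≤ p) :
    ∃ p : α → D, (∀ a, p a ∈ E a) ∧ ∀ a b, p a ≤ p b ∨ p b ≤ p a := by
  classical
  obtain ⟨r, wo, hr⟩ := Cardinal.exists_ord_eq α
  have hcount : ∀ a, {b | r b a}.Countable := by
    intro a
    have h1 : (Ordinal.typein r a).card < #α := Cardinal.card_typein_lt a hr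
    have h2 : #{b | r b a} = (Ordinal.typein r a).card := by
      rw [Ordinal.typein]
      rfl
    have h3 : #{b | r b a} < ℵ₁ := by
      rw [h2]
      exact lt_of_lt_of_le h1 hα
    rw [← Cardinal.le_aleph0_iff_set_countable]
    have h4 : ℵ₁ = Order.succ ℵ₀ := by
      rw [← Cardinal.succ_aleph0]
    rw [h4] at h3
    exact Order.lt_succ_iff.1 h3
  let F : (a : α) → ((b : α) → r b a → D) → D := fun a ih =>
    if h : ∃ q, q ∈ E a ∧ ∀ b (hb : r b a), q ≤ ih b hb then Classical.choose h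
    else Classical.arbitrary D
  let p : α → D := wo.wf.fix F
  have hp : ∀ a, p a = F a (fun b _ => p b) := fun a => wo.wf.fix_eq F a
  have key : ∀ a, p a ∈ E a ∧ ∀ b, r b a → p a ≤ p b := by
    intro a
    induction a using wo.wf.induction with
    | _ a ih =>
      have hchain : ∃ q, ∀ s ∈ p '' {b | r b a}, q ≤ s := by
        refine chain_bound hω _ ((hcount a).image p) ?_
        rintro _ ⟨b, hb, rfl⟩ _ ⟨c, hc, rfl⟩
        rcases trichotomous_of r b c with h | h | h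
        · exact Or.inr ((ih c hc).2 b h)
        · rw [h]; exact Or.inl (le_refl _)
        · exact Or.inl ((ih b hb).2 c h)
      obtain ⟨q₀, hq₀⟩ := hchain
      obtain ⟨q, hqE, hq⟩ := hE a q₀
      have hex : ∃ q, q ∈ E a ∧ ∀ b (hb : r b a), q ≤ (fun b (_ : r b a) => p b) b hb :=
        ⟨q, hqE, fun b hb => le_trans hq (hq₀ _ ⟨b, hb, rfl⟩)⟩
      have hpa : p a = Classical.choose hex := by
        rw [hp a]
        simp only [F]
        rw [dif_pos hex]
      have hspec := Classical.choose_spec hex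
      rw [hpa]
      exact hspec
  refine ⟨p, fun a => (key a).1, fun a b => ?_⟩
  rcases trichotomous_of r a b with h | h | h
  · exact Or.inr ((key b).2 a h)
  · rw [h]; exact Or.inl (le_refl _)
  · exact Or.inl ((key a).2 b h)

/-! ### Conditions -/

/-- A condition: a countable set of points and a countable set of 1-Lipschitz injections. -/
structure Cond where
  A : Set C
  P : Set (C → C)
  hA : A.Countable
  hAne : A.Nonempty
  hP : P.Countable
  hPne : P.Nonempty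
  hE : ∀ f ∈ P, IsEmb f

/-- The points that may still be in the final set. -/
def reach (p : Cond) : Set C := p.A ∪ ⋃ f ∈ p.P, range f

instance : LE Cond where
  le q p := p.A ⊆ q.A ∧ q.A ⊆ reach p ∧ (∀ g ∈ q.P, ∃ f ∈ p.P, ∃ h, IsEmb h ∧ g = f ∘ h) ∧
    (∀ f ∈ p.P, ∀ m, ∃ h, IsEmb h ∧ Fix m h ∧ f ∘ h ∈ q.P)

theorem le_def (q p : Cond) : q ≤ p ↔ p.A ⊆ q.A ∧ q.A ⊆ reach p ∧
    (∀ g ∈ q.P, ∃ f ∈ p.P, ∃ h, IsEmb h ∧ g = f ∘ h) ∧
    (∀ f ∈ p.P, ∀ m, ∃ h, IsEmb h ∧ Fix m h ∧ f ∘ h ∈ q.P) := Iff.rfl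

theorem reach_mono {q p : Cond} (h : q ≤ p) : reach q ⊆ reach p := by
  obtain ⟨h1, h2, h3, h4⟩ := h
  intro x hx
  rcases hx with hx | hx
  · exact h2 hx
  · simp only [mem_iUnion] at hx
    obtain ⟨g, hg, y, rfl⟩ := hx
    obtain ⟨f, hf, k, -, rfl⟩ := h3 g hg
    refine Or.inr ?_
    simp only [mem_iUnion]
    exact ⟨f, hf, k y, rfl⟩

instance : Preorder Cond where
  le_refl p := by
    refine ⟨Subset.rfl, fun x hx => Or.inl hx, fun g hg => ⟨g, hg, id, IsEmb.id, rfl⟩,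
      fun f hf m => ⟨id, IsEmb.id, Fix.id m, hf⟩⟩
  le_trans r q p hrq hqp := by
    have hreach := reach_mono hqp
    obtain ⟨h1, h2, h3, h4⟩ := hrq
    obtain ⟨k1, k2, k3, k4⟩ := hqp
    refine ⟨k1.trans h1, h2.trans hreach, ?_, ?_⟩
    · intro g hg
      obtain ⟨f, hf, h, hh, rfl⟩ := h3 g hg
      obtain ⟨f', hf', h', hh', rfl⟩ := k3 f hf
      exact ⟨f', hf', h' ∘ h, hh'.comp hh, rfl⟩
    · intro f hf m
      obtain ⟨h, hh, hm, hfh⟩ := k4 f hf m
      obtain ⟨h', hh', hm', hfh'⟩ := h4 _ hfh m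
      exact ⟨h ∘ h', hh.comp hh', hm.comp hm', hfh'⟩

instance : Nonempty Cond :=
  ⟨{ A := {fun _ => false}
     P := {id}
     hA := countable_singleton _
     hAne := singleton_nonempty _
     hP := countable_singleton _
     hPne := singleton_nonempty _
     hE := by
      intro f hf
      rw [mem_singleton_iff] at hf
      rw [hf]; exact IsEmb.id }⟩

theorem exists_step_seq (p : ℕ → Cond) (hp : ∀ n, p (n + 1) ≤ p n) (n m : ℕ) (f : C → C)
    (hf : f ∈ (p n).P) :
    ∃ h : ℕ → C → C, (∀ k, IsEmb (h k)) ∧ (∀ k, Fix (m + k) (h k)) ∧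
      ∀ k, f ∘ compSeq h k ∈ (p (n + k)).P := by
  have step : ∀ k (F : C → C), F ∈ (p (n + k)).P → ∃ h, IsEmb h ∧ Fix (m + k) h ∧
      F ∘ h ∈ (p (n + (k + 1))).P := by
    intro k F hF
    exact (hp (n + k)).2.2.2 F hF (m + k)
  choose h hh using step
  let st : (k : ℕ) → {F : C → C // F ∈ (p (n + k)).P} := fun k =>
    Nat.rec ⟨f, hf⟩ (fun k x => ⟨x.1 ∘ h k x.1 x.2, (hh k x.1 x.2).2.2⟩) k
  have hst : ∀ k, (st (k + 1)).1 = (st k).1 ∘ h k (st k).1 (st k).2 := fun k => rfl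
  refine ⟨fun k => h k (st k).1 (st k).2, fun k => (hh k _ _).1, fun k => (hh k _ _).2.1, ?_⟩
  intro k
  have : f ∘ compSeq (fun k => h k (st k).1 (st k).2) k = (st k).1 := by
    induction k with
    | zero => rfl
    | succ k ih =>
      rw [hst]
      change (f ∘ compSeq (fun k => h k (st k).1 (st k).2) k) ∘ h k (st k).1 (st k).2 = _
      rw [ih]
  rw [this]
  exact (st k).2

theorem exists_fusion (p : ℕ → Cond) (hp : ∀ n, p (n + 1) ≤ p n) (n m : ℕ) (f : C → C)
    (hf : f ∈ (p n).P) :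
    ∃ g : C → C, (∃ h, IsEmb h ∧ Fix m h ∧ g = f ∘ h) ∧
      ∀ k, ∃ F ∈ (p k).P, ∃ h, IsEmb h ∧ g = F ∘ h := by
  obtain ⟨h, hE, hF, hk⟩ := exists_step_seq p hp n m f hf
  have hF0 : ∀ k, Fix k (h k) := fun k => (hF k).mono (by omega)
  have hFm : ∀ k, Fix m (h k) := fun k => (hF k).mono (by omega)
  refine ⟨f ∘ lim h, ⟨lim h, lim_isEmb hE hF0, lim_fix hFm, rfl⟩, fun k => ?_⟩
  by_cases hkn : n ≤ k
  · obtain ⟨l, rfl⟩ := Nat.exists_eq_add_of_le hkn
    refine ⟨f ∘ compSeq h l, hk l, lim (fun i => h (l + i)), ?_, ?_⟩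
    · exact lim_isEmb (fun i => hE _) (fun i => (hF0 (l + i)).mono (by omega))
    · rw [lim_eq hE hF0 l]; rfl
  · have hle : p n ≤ p k := by
      have hanti : Antitone p := antitone_nat_of_succ_le hp
      exact hanti (by omega)
    obtain ⟨F, hF', h', hh', hfF⟩ := hle.2.2.1 f hf
    refine ⟨F, hF', h' ∘ lim h, hh'.comp (lim_isEmb hE hF0), ?_⟩
    rw [hfF]; rfl

theorem cond_bound (p : ℕ → Cond) (hp : ∀ n, p (n + 1) ≤ p n) : ∃ q, ∀ n, q ≤ p n := by
  have hfus := exists_fusion p hp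
  choose g hg1 hg2 using hfus
  have hanti : Antitone p := antitone_nat_of_succ_le hp
  let ι := (Σ n : ℕ, (p n).P) × ℕ
  have : ∀ n, Countable (p n).P := fun n => (p n).hP.to_subtype
  let G : ι → (C → C) := fun a => g a.1.1 a.2 a.1.2.1 a.1.2.2
  refine ⟨{ A := ⋃ n, (p n).A
            P := range G
            hA := countable_iUnion fun n => (p n).hA
            hAne := by
              obtain ⟨x, hx⟩ := (p 0).hAne
              exact ⟨x, mem_iUnion.2 ⟨0, hx⟩⟩
            hP := countable_range G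
            hPne := by
              obtain ⟨f, hf⟩ := (p 0).hPne
              exact ⟨G ⟨⟨0, ⟨f, hf⟩⟩, 0⟩, mem_range_self _⟩
            hE := by
              rintro _ ⟨⟨⟨n, f, hf⟩, m⟩, rfl⟩
              obtain ⟨h, hh, -, he⟩ := hg1 n m f hf
              change IsEmb (g n m f hf)
              rw [he]
              exact ((p n).hE f hf).comp hh }, ?_⟩
  intro k
  refine ⟨subset_iUnion (fun n => (p n).A) k, ?_, ?_, ?_⟩
  · change (⋃ n, (p n).A) ⊆ reach (p k)
    refine iUnion_subset fun n => ?_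
    by_cases hnk : n ≤ k
    · exact fun x hx => Or.inl ((hanti hnk).1 hx)
    · exact (hanti (show k ≤ n by omega)).2.1
  · rintro _ ⟨⟨⟨n, f, hf⟩, m⟩, rfl⟩
    exact hg2 n m f hf k
  · intro f hf m
    obtain ⟨h, hh, hm, he⟩ := hg1 k m f hf
    refine ⟨h, hh, hm, ?_⟩
    rw [← he]
    exact ⟨⟨⟨k, ⟨f, hf⟩⟩, m⟩, rfl⟩

end Pool.Agent.Helper89.GammaGroup
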