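import Pool.Agent.Helper89.GammaGeneric

/-!
Under CH, a subgroup of `ℤ^ℕ` of size continuum such that every sequence of Borel sets which
is an omega-cover (with multiplicity) has a gamma-subsequence.
-/

open Set Function Topology Cardinal Filter

namespace Pool.Agent.Helper89.GammaGroup

/-- The natural embedding of the Cantor space into `ℤ^ℕ`. -/
def emb (x : C) : ℕ → ℤ := fun n => if x n then 1 else 0

theorem continuous_emb : Continuous emb := by
  refine continuous_pi fun n => ?_
  have : (fun x : C => emb x n) = (fun b : Bool => if b then (1 : ℤ) else 0) ∘ fun x : C => x n :=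
    rfl
  rw [this]
  exact (continuous_of_discreteTopology).comp (continuous_apply n)

theorem injective_emb : Injective emb := by
  intro x y hxy
  funext n
  have := congrFun hxy n
  unfold emb at this
  cases hx : x n <;> cases hy : y n <;> simp_all

/-- Functions below the promise of a condition. -/
def dn (p : Cond) : Set (C → C) := {g | ∃ F ∈ p.P, ∃ h, IsEmb h ∧ g = F ∘ h}

theorem dn_comp {p : Cond} {g h : C → C} (hg : g ∈ dn p) (hh : IsEmb h) : g ∘ h ∈ dn p := by
  obtain ⟨F, hF, k, hk, rfl⟩ := hg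
  exact ⟨F, hF, k ∘ h, hk.comp hh, rfl⟩

theorem dn_isEmb {p : Cond} {g : C → C} (hg : g ∈ dn p) : IsEmb g := by
  obtain ⟨F, hF, k, hk, rfl⟩ := hg
  exact (p.hE F hF).comp hk

/-- Integer combinations. -/
def comb {J : Type} [Fintype J] (a : ℕ → C) (k : ℕ) (c : Fin k → ℤ) (d : J → ℤ) (x : J → C) :
    ℕ → ℤ :=
  (∑ i : Fin k, c i • emb (a i)) + ∑ j, d j • emb (x j)

/-- All combinations with coefficients bounded by `k` are in `B`. -/
def good {J : Type} [Fintype J] (a : ℕ → C) (k : ℕ) (B : Set (ℕ → ℤ)) (x : J → C) : Prop :=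
  ∀ (c : Fin k → ℤ) (d : J → ℤ), (∀ i, |c i| ≤ k) → (∀ j, |d j| ≤ k) → comb a k c d x ∈ B

theorem measurableSet_good {J : Type} [Fintype J] (a : ℕ → C) (k : ℕ) {B : Set (ℕ → ℤ)}
    (hB : MeasurableSet B) (f : J → C → C) (hf : ∀ j, Continuous (f j)) :
    MeasurableSet {y : J → C | good a k B (fun j => f j (y j))} := by
  have : {y : J → C | good a k B (fun j => f j (y j))} =
      ⋂ (c : Fin k → ℤ), ⋂ (d : J → ℤ), ⋂ (_ : ∀ i, |c i| ≤ k), ⋂ (_ : ∀ j, |d j| ≤ k),
        (fun y : J → C => comb a k c d (fun j => f j (y j))) ⁻¹' B := by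
    ext y
    simp [good]
  rw [this]
  refine MeasurableSet.iInter fun c => MeasurableSet.iInter fun d => MeasurableSet.iInter fun _ =>
    MeasurableSet.iInter fun _ => ?_
  have hcont : Continuous (fun y : J → C => comb a k c d (fun j => f j (y j))) := by
    unfold comb
    refine continuous_const.add ?_
    refine continuous_finsetSum _ fun j _ => ?_
    exact (continuous_emb.comp ((hf j).comp (continuous_apply j))).const_smul (d j)
  exact hcont.measurable hB

/-- The dense set attached to a sequence of Borel sets. -/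
def EB (B : ℕ → Set (ℕ → ℤ)) : Set Cond :=
  {p | (∃ F : Set (ℕ → ℤ), F.Finite ∧ F ⊆ AddSubgroup.closure (emb '' p.A) ∧
      ∃ n₀, ∀ n, n₀ ≤ n → ¬ F ⊆ B n) ∨
    (∃ φ : ℕ → ℕ, StrictMono φ ∧ ∀ v ∈ AddSubgroup.closure (emb '' reach p),
      ∀ᶠ j in atTop, v ∈ B (φ j))}

/-- The first case: the omega-cover is killed. -/
theorem EB_case1 (B : ℕ → Set (ℕ → ℤ)) (p : Cond) (a : ℕ → C) (ha : ∀ n, a n ∈ p.A)
    {J : Type} [Fintype J] (f : J → C → C) (hf : ∀ j, f j ∈ dn p) (k n₀ : ℕ)
    (hm : ∀ n, n₀ ≤ n → IsMeagre {y : J → C | good a k (B n) (fun j => f j (y j))}) :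
    ∃ q ∈ EB B, q ≤ p := by
  have hres : (⋂ n, ⋂ (_ : n₀ ≤ n), {y : J → C | good a k (B n) (fun j => f j (y j))}ᶜ) ∈
      residual (J → C) := by
    rw [countable_iInter_mem]
    intro n
    rw [countable_iInter_mem]
    intro hn
    exact hm n hn
  obtain ⟨y, hy⟩ := (dense_of_mem_residual hres).nonempty
  simp only [mem_iInter] at hy
  let x : J → C := fun j => f j (y j)
  let q : Cond :=
    { A := p.A ∪ range x
      P := p.P
      hA := p.hA.union (countable_range x)
      hAne := p.hAne.mono subset_union_left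
      hP := p.hP
      hPne := p.hPne
      hE := p.hE }
  refine ⟨q, Or.inl ⟨{v | ∃ (c : Fin k → ℤ) (d : J → ℤ), (∀ i, |c i| ≤ k) ∧ (∀ j, |d j| ≤ k) ∧
    comb a k c d x = v}, ?_, ?_, n₀, ?_⟩, ?_⟩
  · have hfin : ({cd : (Fin k → ℤ) × (J → ℤ) | (∀ i, |cd.1 i| ≤ k) ∧ ∀ j, |cd.2 j| ≤ k}).Finite := by
      classical
      refine Set.Finite.subset ((Set.finite_Icc (fun _ : Fin k => -(k : ℤ)) (fun _ => (k : ℤ))).prod
        (Set.finite_Icc (fun _ : J => -(k : ℤ)) (fun _ => (k : ℤ)))) ?_
      rintro ⟨c, d⟩ ⟨hc, hd⟩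
      refine ⟨⟨fun i => (abs_le.1 (hc i)).1, fun i => (abs_le.1 (hc i)).2⟩,
        ⟨fun i => (abs_le.1 (hd i)).1, fun i => (abs_le.1 (hd i)).2⟩⟩
    refine (hfin.image (fun cd => comb a k cd.1 cd.2 x)).subset ?_
    rintro v ⟨c, d, hc, hd, rfl⟩
    exact ⟨(c, d), ⟨hc, hd⟩, rfl⟩
  · rintro v ⟨c, d, -, -, rfl⟩
    refine AddSubgroup.add_mem _ ?_ ?_
    · refine AddSubgroup.sum_mem _ fun i _ => AddSubgroup.zsmul_mem _ ?_ _
      exact AddSubgroup.subset_closure ⟨a i, Or.inl (ha i), rfl⟩
    · refine AddSubgroup.sum_mem _ fun j _ => AddSubgroup.zsmul_mem _ ?_ _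
      exact AddSubgroup.subset_closure ⟨x j, Or.inr ⟨j, rfl⟩, rfl⟩
  · intro n hn hsub
    refine hy n hn ?_
    intro c d hc hd
    exact hsub ⟨c, d, hc, hd, rfl⟩
  · refine ⟨subset_union_left, ?_, fun g hg => ⟨g, hg, id, IsEmb.id, rfl⟩,
      fun f hf m => ⟨id, IsEmb.id, Fix.id m, hf⟩⟩
    rintro z (hz | ⟨j, rfl⟩)
    · exact Or.inl hz
    · obtain ⟨F, hF, h, hh, hfj⟩ := hf j
      refine Or.inr ?_
      simp only [mem_iUnion]
      refine ⟨F, hF, h (y j), ?_⟩
      change F (h (y j)) = f j (y j)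
      rw [hfj]; rfl

/-- One step of the fusion in the second case. -/
theorem fusion_step (B : ℕ → Set (ℕ → ℤ)) (hB : ∀ n, MeasurableSet (B n)) (p : Cond)
    (a : ℕ → C)
    (h2 : ∀ (J : Type) [Fintype J] (f : J → C → C), (∀ j, f j ∈ dn p) → ∀ k n₀ : ℕ,
      ∃ n, n₀ ≤ n ∧ ¬ IsMeagre {y : J → C | good a k (B n) (fun j => f j (y j))})
    (j : ℕ) (g : ℕ → C → C) (hg : ∀ i, g i ∈ dn p) (n : ℕ) :
    ∃ (h : ℕ → C → C) (n' : ℕ), n < n' ∧ (∀ i, IsEmb (h i)) ∧ (∀ i, Fix j (h i)) ∧
      (∀ i, j < i → h i = id) ∧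
      ∀ y : Fin (j + 1) × (Fin j → Bool) → C,
        good a j (B n') (fun t : Fin (j + 1) × (Fin j → Bool) =>
          g t.1 (h t.1 (app j t.2 (y t)))) := by
  let fn : Fin (j + 1) × (Fin j → Bool) → C → C := fun t => g (t.1 : ℕ) ∘ app j t.2
  have hfn : ∀ t, fn t ∈ dn p := fun t => dn_comp (hg (t.1 : ℕ)) (app_isEmb j t.2)
  have hfn' : ∀ t x, fn t x = g (t.1 : ℕ) (app j t.2 x) := fun t x => rfl
  clear_value fn
  obtain ⟨n', hn', hm⟩ := h2 (Fin (j + 1) × (Fin j → Bool)) fn hfn j (n + 1)
  have hmeas : MeasurableSet {y : Fin (j + 1) × (Fin j → Bool) → C |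
      good a j (B n') (fun t => fn t (y t))} :=
    measurableSet_good a j (hB n') fn (fun t => (dn_isEmb (hfn t)).lip.continuous)
  obtain ⟨e, he, hey⟩ := mycielski _ hmeas hm
  classical
  refine ⟨fun i => if hi : i < j + 1 then pw j (fun s => e (⟨i, hi⟩, s)) else id, n', by omega,
    ?_, ?_, ?_, ?_⟩
  · intro i
    by_cases hi : i < j + 1
    · simp only [hi, dite_true]
      exact pw_isEmb j _ fun s => he _
    · simp only [hi, dite_false]
      exact IsEmb.id
  · intro i
    by_cases hi : i < j + 1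
    · simp only [hi, dite_true]
      exact pw_fix j _
    · simp only [hi, dite_false]
      exact Fix.id j
  · intro i hi
    have : ¬ i < j + 1 := by omega
    simp only [this, dite_false]
  · intro y
    have h3 := hey y
    have h4 : (fun t : Fin (j + 1) × (Fin j → Bool) => fn t (e t (y t))) =
        fun t : Fin (j + 1) × (Fin j → Bool) =>
          g (t.1 : ℕ) ((fun i : ℕ => if hi : i < j + 1 then pw j (fun s => e (⟨i, hi⟩, s))
          else id) (t.1 : ℕ) (app j t.2 (y t))) := by
      funext t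
      have ht := t.1.2
      simp only [ht, dite_true]
      rw [pw_app, hfn']
    rw [← h4]
    exact h3

/-- The second case: the fusion. -/
theorem EB_case2 (B : ℕ → Set (ℕ → ℤ)) (hB : ∀ n, MeasurableSet (B n)) (p : Cond)
    (a : ℕ → C) (ha : p.A = range a)
    (h2 : ∀ (J : Type) [Fintype J] (f : J → C → C), (∀ j, f j ∈ dn p) → ∀ k n₀ : ℕ,
      ∃ n, n₀ ≤ n ∧ ¬ IsMeagre {y : J → C | good a k (B n) (fun j => f j (y j))}) :
    ∃ q ∈ EB B, q ≤ p := by
  obtain ⟨f', hf'⟩ := p.hP.exists_eq_range p.hPne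
  have hstep := fun (j : ℕ) (s : {g : ℕ → C → C // ∀ i, g i ∈ dn p} × ℕ) =>
    fusion_step B hB p a h2 j s.1.1 s.1.2 s.2
  choose H N hN hHE hHF hHid hHgood using hstep
  have hf0 : ∀ i, f' (Nat.unpair i).1 ∈ dn p := fun i =>
    ⟨f' (Nat.unpair i).1, by rw [hf']; exact mem_range_self _, id, IsEmb.id, rfl⟩
  obtain ⟨st, hst0, hst1⟩ : ∃ st : ℕ → {g : ℕ → C → C // ∀ i, g i ∈ dn p} × ℕ,
      (∀ i, (st 0).1.1 i = f' (Nat.unpair i).1) ∧
      ∀ j, (∀ i, (st (j + 1)).1.1 i = (st j).1.1 i ∘ H j (st j) i) ∧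
        (st (j + 1)).2 = N j (st j) :=
    ⟨fun j => Nat.rec (motive := fun _ => {g : ℕ → C → C // ∀ i, g i ∈ dn p} × ℕ)
      (⟨fun i => f' (Nat.unpair i).1, hf0⟩, 0)
      (fun j s => (⟨fun i => s.1.1 i ∘ H j s i, fun i => dn_comp (s.1.2 i) (hHE j s i)⟩, N j s)) j,
      fun i => rfl, fun j => ⟨fun i => rfl, rfl⟩⟩
  let h : ℕ → ℕ → C → C := fun i j => H j (st j) i
  have hE : ∀ i j, IsEmb (h i j) := fun i j => hHE j (st j) i
  have hF : ∀ i j, Fix j (h i j) := fun i j => hHF j (st j) i
  have hid : ∀ i j, j < i → h i j = id := fun i j hij => hHid j (st j) i hij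
  have hcomp : ∀ i j, (st j).1.1 i = f' (Nat.unpair i).1 ∘ compSeq (h i) j := by
    intro i j
    induction j with
    | zero => rw [hst0]; rfl
    | succ j ih => rw [(hst1 j).1 i, ih]; rfl
  let g : ℕ → C → C := fun i => f' (Nat.unpair i).1 ∘ lim (h i)
  let r : ℕ → ℕ → C → C := fun i k => lim (fun n => h i (k + n))
  have hr : ∀ i k, Fix k (r i k) := fun i k => lim_shift_fix (hF i) k
  have hgr : ∀ i k z, g i z = (st k).1.1 i (r i k z) := by
    intro i k z
    have h1 := lim_eq (hE i) (hF i) k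
    change f' (Nat.unpair i).1 (lim (h i) z) = _
    rw [hcomp, h1]; rfl
  let q : Cond :=
    { A := p.A
      P := range g
      hA := p.hA
      hAne := p.hAne
      hP := countable_range g
      hPne := range_nonempty g
      hE := by
        rintro _ ⟨i, rfl⟩
        exact (dn_isEmb (hf0 i)).comp (lim_isEmb (hE i) (hF i)) }
  refine ⟨q, Or.inr ⟨fun j => (st (j + 1)).2, ?_, ?_⟩, ?_⟩
  · refine strictMono_nat_of_lt_succ fun j => ?_
    change (st (j + 1)).2 < (st (j + 1 + 1)).2
    rw [(hst1 (j + 1)).2]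
    exact hN _ _
  · -- the gamma property
    intro v hv
    let pt : ℕ ⊕ ℕ × C → (ℕ → ℤ) := fun x =>
      Sum.elim (fun i => emb (a i)) (fun iz => emb (g iz.1 iz.2)) x
    have hpt : emb '' reach q = range pt := by
      ext w
      constructor
      · rintro ⟨x, hx, rfl⟩
        rcases hx with hx | hx
        · have hx' : x ∈ range a := by rw [← ha]; exact hx
          obtain ⟨i, rfl⟩ := hx'
          exact ⟨Sum.inl i, rfl⟩
        · simp only [mem_iUnion] at hx
          obtain ⟨_, ⟨i, rfl⟩, z, rfl⟩ := hx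
          exact ⟨Sum.inr (i, z), rfl⟩
      · rintro ⟨x, rfl⟩
        rcases x with i | ⟨i, z⟩
        · refine ⟨a i, Or.inl ?_, rfl⟩
          change a i ∈ p.A
          rw [ha]; exact mem_range_self i
        · refine ⟨g i z, Or.inr ?_, rfl⟩
          simp only [mem_iUnion]
          exact ⟨g i, ⟨i, rfl⟩, z, rfl⟩
    rw [hpt, ← Submodule.span_int_eq_addSubgroupClosure] at hv
    have hv' : v ∈ Submodule.span ℤ (range pt) := hv
    rw [Finsupp.mem_span_range_iff_exists_finsupp] at hv'
    obtain ⟨c, hc⟩ := hv'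
    classical
    have ev1 : ∀ᶠ j : ℕ in atTop, ∀ x ∈ c.support, |c x| ≤ j := by
      rw [Finset.eventually_all]
      intro x _
      filter_upwards [eventually_ge_atTop (c x).natAbs] with j hj
      have : ((c x).natAbs : ℤ) ≤ j := by exact_mod_cast hj
      rwa [Int.natCast_natAbs] at this
    have ev2 : ∀ᶠ j : ℕ in atTop, ∀ i ∈ c.support.toLeft, i < j := by
      rw [Finset.eventually_all]
      intro i _
      exact eventually_gt_atTop i
    have ev3 : ∀ᶠ j : ℕ in atTop, ∀ iz ∈ c.support.toRight, iz.1 < j + 1 := by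
      rw [Finset.eventually_all]
      intro iz _
      filter_upwards [eventually_ge_atTop iz.1] with j hj
      omega
    have ev4 : ∀ᶠ j : ℕ in atTop, ∀ iz ∈ c.support.toRight, ∀ iz' ∈ c.support.toRight,
        res j iz.2 = res j iz'.2 → iz.2 = iz'.2 := by
      rw [Finset.eventually_all]
      intro iz _
      rw [Finset.eventually_all]
      intro iz' _
      by_cases hz : iz.2 = iz'.2
      · exact Eventually.of_forall fun j _ => hz
      · obtain ⟨n, hn⟩ : ∃ n, iz.2 n ≠ iz'.2 n := by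
          by_contra hcon
          push Not at hcon
          exact hz (funext hcon)
        filter_upwards [eventually_gt_atTop n] with j hj hres
        exact absurd (congrFun hres ⟨n, hj⟩) hn
    filter_upwards [ev1, ev2, ev3, ev4] with j h1 h2' h3 h4
    have hzero : ∀ x, |c x| ≤ (j : ℤ) := by
      intro x
      by_cases hx : x ∈ c.support
      · exact h1 x hx
      · rw [Finsupp.notMem_support_iff.1 hx]; simp
    -- the choice of the points
    let T := Fin (j + 1) × (Fin j → Bool)
    have hchoice : ∀ t : T, ∃ (d : ℤ) (y : C), |d| ≤ j ∧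
        ((∀ z, ((t.1 : ℕ), z) ∈ c.support.toRight → res j z ≠ t.2) → d = 0) ∧
        (∀ z, ((t.1 : ℕ), z) ∈ c.support.toRight → res j z = t.2 →
          d = c (Sum.inr ((t.1 : ℕ), z)) ∧ g t.1 z = (st (j + 1)).1.1 t.1 (app j t.2 y)) := by
      intro t
      by_cases hex : ∃ z, ((t.1 : ℕ), z) ∈ c.support.toRight ∧ res j z = t.2
      · obtain ⟨z, hz, hzt⟩ := hex
        refine ⟨c (Sum.inr ((t.1 : ℕ), z)), drp j (r t.1 (j + 1) z), hzero _, ?_, ?_⟩
        · intro hcon
          exact absurd hzt (hcon z hz)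
        · intro z' hz' hzt'
          have hzz : z' = z := h4 _ hz' _ hz (by rw [hzt, hzt'])
          subst hzz
          refine ⟨rfl, ?_⟩
          rw [hgr t.1 (j + 1) z']
          have h5 : t.2 = res j (r t.1 (j + 1) z') := by
            rw [← hzt]
            funext i
            exact (hr t.1 (j + 1) z' i (by have := i.2; omega)).symm
          rw [h5, app_res_drp]
      · push Not at hex
        refine ⟨0, fun _ => false, by simp, fun _ => rfl, ?_⟩
        intro z hz hzt
        exact absurd hzt (hex z hz)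
    choose d y hd hd0 hdy using hchoice
    have hgood := hHgood j (st j) y (fun i => c (Sum.inl (i : ℕ))) d (fun i => hzero _) hd
    have hN' : N j (st j) = (st (j + 1)).2 := ((hst1 j).2).symm
    rw [hN'] at hgood
    have hfun : (fun t : T => (st j).1.1 t.1 (H j (st j) t.1 (app j t.2 (y t)))) =
        fun t : T => (st (j + 1)).1.1 t.1 (app j t.2 (y t)) := by
      funext t
      rw [(hst1 j).1]; rfl
    rw [hfun] at hgood
    -- identify the combination
    have hv2 : comb a j (fun i => c (Sum.inl (i : ℕ))) d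
        (fun t : T => (st (j + 1)).1.1 t.1 (app j t.2 (y t))) = v := by
      rw [← hc]
      unfold comb
      rw [Finsupp.sum, ← Finset.toLeft_disjSum_toRight (u := c.support), Finset.sum_disjSum]
      congr 1
      · rw [← Finset.sum_range (fun i => c (Sum.inl i) • emb (a i))]
        symm
        refine Finset.sum_subset ?_ ?_
        · intro i hi
          rw [Finset.mem_range]
          exact h2' i hi
        · intro i _ hi
          have : c (Sum.inl i) = 0 := by
            rw [← Finsupp.notMem_support_iff]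
            intro hcon
            exact hi (Finset.mem_toLeft.2 hcon)
          rw [this, zero_smul]
      · symm
        have hlt : ∀ iz ∈ c.support.toRight, iz.1 < j + 1 := h3
        refine Finset.sum_of_injOn
          (fun iz : ℕ × C => ((Fin.ofNat (j + 1) iz.1, res j iz.2) : T)) ?_ ?_ ?_ ?_
        · rintro ⟨i, z⟩ hiz ⟨i', z'⟩ hiz' heq
          have h6 := (Prod.mk.inj heq).1
          have h7 := (Prod.mk.inj heq).2
          have h8 : i = i' := by
            have := congrArg Fin.val h6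
            simp only [Fin.ofNat] at this
            rwa [Nat.mod_eq_of_lt (hlt _ hiz), Nat.mod_eq_of_lt (hlt _ hiz')] at this
          have h9 : z = z' := h4 _ hiz _ hiz' h7
          rw [h8, h9]
        · intro _ _
          simp
        · intro t _ ht
          have : d t = 0 := by
            refine hd0 t ?_
            intro z hz hres
            refine ht ⟨((t.1 : ℕ), z), hz, ?_⟩
            refine Prod.ext ?_ hres
            apply Fin.ext
            change (t.1 : ℕ) % (j + 1) = t.1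
            exact Nat.mod_eq_of_lt t.1.2
          rw [this, zero_smul]
        · rintro ⟨i, z⟩ hiz
          have h6 : ((Fin.ofNat (j + 1) i : Fin (j + 1)) : ℕ) = i :=
            Nat.mod_eq_of_lt (hlt _ hiz)
          have h7 := hdy (Fin.ofNat (j + 1) i, res j z) z (by rw [h6]; exact hiz) rfl
          rw [h6] at h7
          change c (Sum.inr (i, z)) • emb (g i z) = _
          rw [h7.1, h7.2]
          simp only [h6]
    rw [← hv2]
    exact hgood
  · refine ⟨Subset.rfl, fun x hx => Or.inl hx, ?_, ?_⟩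
    · rintro _ ⟨i, rfl⟩
      exact ⟨f' (Nat.unpair i).1, by rw [hf']; exact mem_range_self _, lim (h i),
        lim_isEmb (hE i) (hF i), rfl⟩
    · intro f hf m
      rw [hf'] at hf
      obtain ⟨b, rfl⟩ := hf
      refine ⟨lim (h (Nat.pair b m)), lim_isEmb (hE _) (hF _), ?_, ?_⟩
      · refine lim_fix fun j => ?_
        by_cases hj : j < Nat.pair b m
        · rw [hid _ _ hj]; exact Fix.id m
        · refine (hF _ j).mono ?_
          have := Nat.right_le_pair b m
          omega
      · refine ⟨Nat.pair b m, ?_⟩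
        change f' (Nat.unpair (Nat.pair b m)).1 ∘ _ = _
        rw [Nat.unpair_pair]

theorem EB_dense (B : ℕ → Set (ℕ → ℤ)) (hB : ∀ n, MeasurableSet (B n)) (p : Cond) :
    ∃ q ∈ EB B, q ≤ p := by
  obtain ⟨a, ha⟩ := p.hA.exists_eq_range p.hAne
  by_cases h2 : ∀ (J : Type) [Fintype J] (f : J → C → C), (∀ j, f j ∈ dn p) → ∀ k n₀ : ℕ,
      ∃ n, n₀ ≤ n ∧ ¬ IsMeagre {y : J → C | good a k (B n) (fun j => f j (y j))}
  · exact EB_case2 B hB p a ha h2
  · push Not at h2
    obtain ⟨J, _, f, hf, k, n₀, hm⟩ := h2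
    exact EB_case1 B p a (fun n => by rw [ha]; exact mem_range_self n) f hf k n₀ hm

end Pool.Agent.Helper89.GammaGroup
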