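import Pool.Agent.Helper89.GammaGroup

/-!
Under CH there is a subgroup `G` of `ℤ^ℕ` of size continuum such that every sequence of Borel
sets, each finite subset of `G` being contained in infinitely many of them, has a subsequence
converging to `G`.
-/

open Set Function Topology Cardinal Filter

namespace Pool.Agent.Helper89.GammaGroup

theorem card_borel_seq (hCH : ℵ₁ = (𝔠 : Cardinal.{0})) :
    #{B : ℕ → Set (ℕ → ℤ) // ∀ n, MeasurableSet (B n)} ≤ ℵ₁ := by
  rw [hCH]
  have h1 : #{s : Set (ℕ → ℤ) // MeasurableSet s} ≤ 𝔠 := by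
    obtain ⟨b, hb, hgen⟩ := (inferInstance :
      MeasurableSpace.CountablyGenerated (ℕ → ℤ)).isCountablyGenerated
    have h2 : #b ≤ 𝔠 := le_trans (Cardinal.le_aleph0_iff_set_countable.2 hb)
      Cardinal.aleph0_le_continuum
    have h3 := MeasurableSpace.cardinal_measurableSet_le_continuum h2
    rw [← hgen] at h3
    exact h3
  have h4 : #{B : ℕ → Set (ℕ → ℤ) // ∀ n, MeasurableSet (B n)}
      ≤ #(ℕ → {s : Set (ℕ → ℤ) // MeasurableSet s}) := by
    refine Cardinal.mk_le_of_injective
      (f := fun B n => (⟨B.1 n, B.2 n⟩ : {s : Set (ℕ → ℤ) // MeasurableSet s})) ?_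
    intro B B' h
    apply Subtype.ext
    funext n
    exact congrArg Subtype.val (congrFun h n)
  refine h4.trans ?_
  rw [← Cardinal.power_def]
  calc #{s : Set (ℕ → ℤ) // MeasurableSet s} ^ #ℕ ≤ 𝔠 ^ #ℕ :=
        Cardinal.power_le_power_right h1
    _ = 𝔠 := by rw [Cardinal.mk_nat, Cardinal.continuum_power_aleph0]

theorem exists_group (hCH : ℵ₁ = (𝔠 : Cardinal.{0})) :
    ∃ G : AddSubgroup (ℕ → ℤ), #G = 𝔠 ∧
      ∀ B : ℕ → Set (ℕ → ℤ), (∀ n, MeasurableSet (B n)) →
        (∀ F : Set (ℕ → ℤ), F.Finite → F ⊆ G → ∀ n₀, ∃ n, n₀ ≤ n ∧ F ⊆ B n) →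
        ∃ φ : ℕ → ℕ, StrictMono φ ∧ ∀ v ∈ G, ∀ᶠ j in atTop, v ∈ B (φ j) := by
  obtain ⟨p, hpE, hpc⟩ := exists_generic cond_bound (card_borel_seq hCH)
    (fun B => EB B.1) (fun B q => EB_dense B.1 B.2 q)
  let X : Set C := ⋃ B, (p B).A
  let G : AddSubgroup (ℕ → ℤ) := AddSubgroup.closure (emb '' X)
  have hXA : ∀ B, (p B).A ⊆ X := fun B => subset_iUnion (fun B => (p B).A) B
  have hXr : ∀ B, X ⊆ reach (p B) := by
    intro B
    refine iUnion_subset fun B' => ?_
    rcases hpc B' B with h | h
    · exact h.2.1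
    · exact fun x hx => Or.inl (h.1 hx)
  have main : ∀ B : ℕ → Set (ℕ → ℤ), (∀ n, MeasurableSet (B n)) →
        (∀ F : Set (ℕ → ℤ), F.Finite → F ⊆ G → ∀ n₀, ∃ n, n₀ ≤ n ∧ F ⊆ B n) →
        ∃ B' , ∃ φ : ℕ → ℕ, StrictMono φ ∧ (∀ v ∈ AddSubgroup.closure (emb '' reach (p B')),
          ∀ᶠ j in atTop, v ∈ B (φ j)) := by
    intro B hB hω
    refine ⟨⟨B, hB⟩, ?_⟩
    rcases hpE ⟨B, hB⟩ with ⟨F, hF, hFA, n₀, hn₀⟩ | ⟨φ, hφ, hv⟩
    · exfalso
      have hFG : F ⊆ G := by
        refine hFA.trans ?_
        exact AddSubgroup.closure_mono (image_mono (hXA _))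
      obtain ⟨n, hn, hsub⟩ := hω F hF hFG n₀
      exact hn₀ n hn hsub
    · exact ⟨φ, hφ, hv⟩
  refine ⟨G, ?_, ?_⟩
  · apply le_antisymm
    · refine (Cardinal.mk_set_le _).trans ?_
      rw [← Cardinal.power_def, Cardinal.mk_nat]
      have : #ℤ = ℵ₀ := Cardinal.mk_int
      rw [this, Cardinal.aleph0_power_aleph0]
    · rw [← hCH]
      by_contra hcon
      rw [not_le] at hcon
      have hGc : (G : Set (ℕ → ℤ)).Countable := by
        rw [← Cardinal.le_aleph0_iff_set_countable]
        rw [← Cardinal.succ_aleph0] at hcon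
        exact Order.lt_succ_iff.1 hcon
      obtain ⟨e, he⟩ := hGc.exists_eq_range ⟨0, G.zero_mem⟩
      obtain ⟨B', φ, hφ, hv⟩ := main (fun n => e '' {i | i ≤ n})
        (fun n => ((Set.finite_le_nat n).image e).measurableSet) (by
          intro F hF hFG n₀
          -- all elements of `F` occur before some index
          have : ∀ v ∈ F, ∃ i, e i = v := by
            intro v hv
            have h1 : v ∈ (G : Set (ℕ → ℤ)) := hFG hv
            rw [he] at h1
            exact h1
          choose! i hi using this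
          obtain ⟨N, hN⟩ := (hF.image i).bddAbove
          refine ⟨max n₀ N, le_max_left _ _, ?_⟩
          intro v hv
          exact ⟨i v, le_trans (hN ⟨v, hv, rfl⟩) (le_max_right _ _), hi v hv⟩)
      have hsub : emb '' reach (p B') ⊆ range e := by
        intro v hv'
        obtain ⟨j, hj⟩ := (hv v (AddSubgroup.subset_closure hv')).exists
        obtain ⟨i, -, hi⟩ := hj
        exact ⟨i, hi⟩
      have hcr : (reach (p B')).Countable :=
        (Set.countable_of_injective_of_countable_image injective_emb.injOn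
          ((countable_range e).mono hsub))
      obtain ⟨f, hf⟩ := (p B').hPne
      have hrf : (range f).Countable := by
        refine hcr.mono ?_
        intro x hx
        refine Or.inr ?_
        simp only [mem_iUnion]
        exact ⟨f, hf, hx⟩
      have hC : (univ : Set C).Countable := by
        refine Set.countable_of_injective_of_countable_image
          ((p B').hE f hf).inj.injOn ?_
        rw [image_univ]; exact hrf
      have h5 : #C ≤ ℵ₀ := by
        rw [Cardinal.le_aleph0_iff_set_countable.symm] at hC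
        rwa [Cardinal.mk_univ] at hC
      have h6 : #C = 𝔠 := by
        rw [← Cardinal.power_def, Cardinal.mk_nat, Cardinal.mk_bool,
          Cardinal.two_power_aleph0]
      rw [h6] at h5
      exact absurd h5 (not_le.2 Cardinal.aleph0_lt_continuum)
  · intro B hB hω
    obtain ⟨B', φ, hφ, hv⟩ := main B hB hω
    refine ⟨φ, hφ, fun v hvG => hv v ?_⟩
    exact AddSubgroup.closure_mono (image_mono (hXr B')) hvG

end Pool.Agent.Helper89.GammaGroup
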