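import Pool.Agent.Results.MP_cc0654_lc.BorelGammaGroup

/-!
Corollary (not a separate hand-in): the same group also satisfies `S₁(Ω, Γ)`.
-/

open Set Cardinal Filter

namespace Pool.Agent.Helper89.GammaOpen

open Pool.Agent.Results.MP_cc0654_lc.BorelGammaGroup

/-- `Ω`: the open omega-covers. -/
def OpenOmega (X : Type) [TopologicalSpace X] : Set (Set (Set X)) :=
  {𝒰 | (∀ U ∈ 𝒰, IsOpen U) ∧ IsOmegaCover 𝒰}

/-- `Γ`: the open gamma-covers. -/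
def OpenGamma (X : Type) [TopologicalSpace X] : Set (Set (Set X)) :=
  {𝒰 | (∀ U ∈ 𝒰, IsOpen U) ∧ IsGammaCover 𝒰}

/-- An open omega-cover of a second countable space has a countable omega-subcover. -/
theorem exists_countable_subcover {X : Type} [TopologicalSpace X] [SecondCountableTopology X]
    (𝒰 : Set (Set X)) (h𝒰 : 𝒰 ∈ OpenOmega X) :
    ∃ 𝒱 ⊆ 𝒰, 𝒱.Countable ∧ IsOmegaCover 𝒱 := by
  have h1 : ∀ k : ℕ, ∃ T : Set 𝒰, T.Countable ∧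
      (⋃ U ∈ T, {f : Fin k → X | ∀ i, f i ∈ (U : Set X)}) =
        ⋃ U : 𝒰, {f : Fin k → X | ∀ i, f i ∈ (U : Set X)} := by
    intro k
    refine TopologicalSpace.isOpen_iUnion_countable _ fun U => ?_
    have : {f : Fin k → X | ∀ i, f i ∈ (U : Set X)} =
        ⋂ i, (fun f : Fin k → X => f i) ⁻¹' (U : Set X) := by
      ext f; simp
    rw [this]
    exact isOpen_iInter_of_finite fun i => (h𝒰.1 U U.2).preimage (continuous_apply i)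
  choose T hT1 hT2 using h1
  have hsub : (⋃ k, ((↑) : 𝒰 → Set X) '' T k) ⊆ 𝒰 := by
    refine iUnion_subset fun k => ?_
    rintro _ ⟨U, -, rfl⟩
    exact U.2
  have hω : ∀ F : Set X, F.Finite → ∃ U ∈ ⋃ k, ((↑) : 𝒰 → Set X) '' T k, F ⊆ U := by
    intro F hF
    obtain ⟨U, hU, hFU⟩ := h𝒰.2.2.2 F hF
    obtain ⟨n, f, hf⟩ := hF.fin_embedding
    have h2 : (f : Fin n → X) ∈ ⋃ U : 𝒰, {f : Fin n → X | ∀ i, f i ∈ (U : Set X)} := by
      rw [mem_iUnion]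
      refine ⟨⟨U, hU⟩, fun i => hFU ?_⟩
      rw [← hf]; exact mem_range_self i
    rw [← hT2 n] at h2
    simp only [mem_iUnion] at h2
    obtain ⟨V, hV, hfV⟩ := h2
    refine ⟨V, mem_iUnion.2 ⟨n, V, hV, rfl⟩, ?_⟩
    rw [← hf]
    rintro _ ⟨i, rfl⟩
    exact hfV i
  refine ⟨⋃ k, ((↑) : 𝒰 → Set X) '' T k, hsub, countable_iUnion fun k => (hT1 k).image _, ?_, ?_,
    hω⟩
  · rw [eq_univ_iff_forall]
    intro x
    obtain ⟨U, hU, hx⟩ := hω {x} (finite_singleton x)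
    exact ⟨U, hU, hx rfl⟩
  · intro hcon
    exact h𝒰.2.2.1 (hsub hcon)

/-- In a subgroup of `ℤ^ℕ`, `S₁(B_Ω, B_Γ)` implies `S₁(Ω, Γ)`. -/
theorem borel_imp_open (G : AddSubgroup (ℕ → ℤ)) (h : S1 (BorelOmega G) (BorelGamma G)) :
    S1 (OpenOmega G) (OpenGamma G) := by
  have hsc : SecondCountableTopology G :=
    TopologicalSpace.Subtype.secondCountableTopology (G : Set (ℕ → ℤ))
  intro 𝒰 h𝒰
  have h1 : ∀ n, ∃ 𝒱 ⊆ 𝒰 n, 𝒱.Countable ∧ IsOmegaCover 𝒱 := fun n =>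
    exists_countable_subcover (𝒰 n) (h𝒰 n)
  choose 𝒱 h𝒱1 h𝒱2 h𝒱3 using h1
  obtain ⟨U, hU, hv⟩ := h 𝒱 (fun n => ⟨h𝒱2 n, fun V hV =>
    MeasurableSpace.measurableSet_generateFrom ((h𝒰 n).1 V (h𝒱1 n hV)), h𝒱3 n⟩)
  refine ⟨U, fun n => h𝒱1 n (hU n), ?_, hv.2.2⟩
  rintro _ ⟨n, rfl⟩
  exact (h𝒰 n).1 _ (h𝒱1 n (hU n))

/-- The positive answer to Q2. -/
theorem open_version (hCH : ℵ₁ = (𝔠 : Cardinal.{0})) :
    ∃ G : AddSubgroup (ℕ → ℤ), #G = 𝔠 ∧ S1 (OpenOmega G) (OpenGamma G) := by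
  obtain ⟨G, hG, h⟩ := result hCH
  exact ⟨G, hG, borel_imp_open G h⟩

end Pool.Agent.Helper89.GammaOpen
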