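import Mathlib

/-!
The combinatorial core of the proof that the theory of the integers with a predicate for
square-free integers is not MS-measurable.
-/

open Set Function

namespace Pool.Agent.Helper89.MS

/-- The leading coefficient in dimension `e`. -/
noncomputable def lead (e : ℕ) (v : ℕ × ℝ) : ℝ := if v.1 = e then v.2 else 0

/-- The data provided by the Fubini property for a family of fibres. -/
def FubData {M : Type*} (D : Set (Set M)) (h : Set M → ℕ × ℝ) (fib : M → Set M) (w : ℕ × ℝ) :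
    Prop :=
  ∃ (r : ℕ) (Y : Fin r → Set M) (a : Fin r → ℕ × ℝ),
    (∀ i, Y i ∈ D) ∧ (∀ i, (Y i).Nonempty) ∧ (∀ i j, i ≠ j → Disjoint (Y i) (Y j)) ∧
    (⋃ i, Y i = {s | (fib s).Nonempty}) ∧ (∀ i, ∀ s ∈ Y i, h (fib s) = a i) ∧
    ∀ c, IsGreatest (range fun i => (a i).1 + (h (Y i)).1) c →
      w = (c, ∑ i, if (a i).1 + (h (Y i)).1 = c then (a i).2 * (h (Y i)).2 else 0)

/-- What is used of an MS-measurable structure expanding an abelian group. -/
structure Pack (M : Type*) [AddCommGroup M] where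
  D : Set (Set M)
  h : Set M → ℕ × ℝ
  univ_mem : univ ∈ D
  inter_mem : ∀ {X Y : Set M}, X ∈ D → Y ∈ D → X ∩ Y ∈ D
  compl_mem : ∀ {X : Set M}, X ∈ D → Xᶜ ∈ D
  shift_mem : ∀ {X : Set M}, X ∈ D → ∀ t, {x | x + t ∈ X} ∈ D
  h_shift : ∀ {X : Set M}, X ∈ D → ∀ t, h {x | x + t ∈ X} = h X
  pos : ∀ {X : Set M}, X ∈ D → X.Nonempty → 0 < (h X).2
  h_empty : h ∅ = (0, 0)
  add_dim : ∀ {X Y : Set M}, X ∈ D → Y ∈ D → Disjoint X Y →
    (h (X ∪ Y)).1 = max (h X).1 (h Y).1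
  add_lead : ∀ {X Y : Set M}, X ∈ D → Y ∈ D → Disjoint X Y → ∀ e, (h X).1 ≤ e →
    (h Y).1 ≤ e → lead e (h (X ∪ Y)) = lead e (h X) + lead e (h Y)
  A : Set M
  A_mem : A ∈ D
  H_finite : (range fun t => h {x | x ∈ A ∧ x + t ∈ A}).Finite
  H_level : ∀ v, {t | h {x | x ∈ A ∧ x + t ∈ A} = v} ∈ D
  E_finite : (range fun u => h {t | lead (h univ).1 (h {x | x ∈ A ∧ x + (t + u) ∈ A}) ≠
    lead (h univ).1 (h {x | x ∈ A ∧ x + t ∈ A})}).Finite
  D2 : Set (Set (M × M))
  fub : ∀ Z ∈ D2, Z.Nonempty → ∃ w, FubData D h (fun s => {x | (x, s) ∈ Z}) w ∧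
    FubData D h (fun x => {s | (x, s) ∈ Z}) w
  D2_fib1 : ∀ Z ∈ D2, ∀ s, {x | (x, s) ∈ Z} ∈ D
  D2_fib2 : ∀ Z ∈ D2, ∀ x, {s | (x, s) ∈ Z} ∈ D
  D2_corr : ∀ X ∈ D, {z : M × M | z.1 ∈ A ∧ z.1 + z.2 ∈ A ∧ z.2 ∈ X} ∈ D2
  D2_drop : ∀ X ∈ D, ∀ N : ℕ, 1 ≤ N → {z : M × M | z.1 ∈ X ∧ z.1 + N • z.2 ∈ A} ∈ D2
  dim_inj : ∀ N : ℕ, 1 ≤ N → ∀ x, (h {b | x + N • b ∈ A}).1 ≤ (h A).1
  coset_mem : ∀ (N : ℕ) (c : M), {x | ∃ y, x = c + N • y} ∈ D

variable {M : Type*} [AddCommGroup M] (P : Pack M)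

namespace Pack

theorem empty_mem : ∅ ∈ P.D := by
  have := P.compl_mem P.univ_mem
  rwa [compl_univ] at this

theorem union_mem {X Y : Set M} (hX : X ∈ P.D) (hY : Y ∈ P.D) : X ∪ Y ∈ P.D := by
  have := P.compl_mem (P.inter_mem (P.compl_mem hX) (P.compl_mem hY))
  rwa [compl_inter, compl_compl, compl_compl] at this

theorem biUnion_mem {ι : Type*} (s : Finset ι) (Y : ι → Set M) (hY : ∀ i ∈ s, Y i ∈ P.D) :
    (⋃ i ∈ s, Y i) ∈ P.D := by
  classical
  induction s using Finset.induction_on with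
  | empty => simpa using P.empty_mem
  | insert a s ha ih =>
    rw [Finset.set_biUnion_insert]
    exact P.union_mem (hY a (Finset.mem_insert_self a s))
      (ih fun i hi => hY i (Finset.mem_insert_of_mem hi))

/-- Dimension of the group. -/
noncomputable def d : ℕ := (P.h univ).1

/-- The measure in top dimension. -/
noncomputable def nu (X : Set M) : ℝ := lead P.d (P.h X)

theorem dim_mono {X Y : Set M} (hX : X ∈ P.D) (hY : Y ∈ P.D) (hXY : X ⊆ Y) :
    (P.h X).1 ≤ (P.h Y).1 := by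
  have h1 : Y = X ∪ (Y ∩ Xᶜ) := by
    ext x
    by_cases hx : x ∈ X
    · simp [hx, hXY hx]
    · simp [hx]
  have h2 : Disjoint X (Y ∩ Xᶜ) := by
    rw [disjoint_left]
    intro x hx hx'
    exact hx'.2 hx
  rw [h1, P.add_dim hX (P.inter_mem hY (P.compl_mem hX)) h2]
  exact le_max_left _ _

theorem dim_le {X : Set M} (hX : X ∈ P.D) : (P.h X).1 ≤ P.d :=
  P.dim_mono hX P.univ_mem (subset_univ X)

theorem nu_add {X Y : Set M} (hX : X ∈ P.D) (hY : Y ∈ P.D) (hXY : Disjoint X Y) :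
    P.nu (X ∪ Y) = P.nu X + P.nu Y :=
  P.add_lead hX hY hXY P.d (P.dim_le hX) (P.dim_le hY)

theorem nu_empty : P.nu ∅ = 0 := by
  unfold nu lead
  rw [P.h_empty]; simp

theorem nu_nonneg {X : Set M} (hX : X ∈ P.D) : 0 ≤ P.nu X := by
  rcases X.eq_empty_or_nonempty with rfl | hne
  · rw [P.nu_empty]
  · unfold nu lead
    split_ifs
    · exact (P.pos hX hne).le
    · exact le_rfl

theorem nu_shift {X : Set M} (hX : X ∈ P.D) (t : M) : P.nu {x | x + t ∈ X} = P.nu X := by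
  unfold nu
  rw [P.h_shift hX]

theorem nu_split {X Y : Set M} (hX : X ∈ P.D) (hY : Y ∈ P.D) :
    P.nu (X ∩ Y) + P.nu (X ∩ Yᶜ) = P.nu X := by
  rw [← P.nu_add (P.inter_mem hX hY) (P.inter_mem hX (P.compl_mem hY))]
  · rw [inter_union_compl]
  · rw [disjoint_left]
    intro x hx hx'
    exact hx'.2 hx.2

/-- Indicator functions. -/
noncomputable def ind (X : Set M) : M → ℝ := X.indicator 1

theorem ind_mem {X : Set M} {x : M} (hx : x ∈ X) : ind X x = 1 := by
  unfold ind; simp [hx]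

theorem ind_notMem {X : Set M} {x : M} (hx : x ∉ X) : ind X x = 0 := by
  unfold ind; simp [hx]

theorem ind_mul (X Y : Set M) : ind X * ind Y = ind (X ∩ Y) := by
  funext x
  by_cases hX : x ∈ X <;> by_cases hY : x ∈ Y <;> simp [ind, hX, hY]

theorem pos_aux (s : Finset P.D) (c : P.D → ℝ) : ∀ Y ∈ P.D, ∀ k : ℝ,
    (∀ t ∈ Y, k ≤ ∑ X ∈ s, c X * ind (X : Set M) t) →
      k * P.nu Y ≤ ∑ X ∈ s, c X * P.nu ((X : Set M) ∩ Y) := by
  classical
  induction s using Finset.induction_on with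
  | empty =>
    intro Y hY k hk
    rcases Y.eq_empty_or_nonempty with rfl | ⟨t, ht⟩
    · simp [P.nu_empty]
    · have := hk t ht
      simp only [Finset.sum_empty] at this ⊢
      exact mul_nonpos_of_nonpos_of_nonneg this (P.nu_nonneg hY)
  | insert X₀ s hX₀ ih =>
    intro Y hY k hk
    have h1 := ih (Y ∩ X₀) (P.inter_mem hY X₀.2) (k - c X₀) (by
      intro t ht
      have := hk t ht.1
      rw [Finset.sum_insert hX₀, ind_mem ht.2] at this
      linarith)
    have h2 := ih (Y ∩ (X₀ : Set M)ᶜ) (P.inter_mem hY (P.compl_mem X₀.2)) k (by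
      intro t ht
      have := hk t ht.1
      rw [Finset.sum_insert hX₀, ind_notMem ht.2] at this
      linarith)
    have h3 : ∀ X ∈ s, c X * P.nu ((X : Set M) ∩ Y) =
        c X * P.nu ((X : Set M) ∩ (Y ∩ X₀)) + c X * P.nu ((X : Set M) ∩ (Y ∩ (X₀ : Set M)ᶜ)) := by
      intro X _
      rw [← mul_add, ← inter_assoc, ← inter_assoc, P.nu_split (P.inter_mem X.2 hY) X₀.2]
    rw [Finset.sum_insert hX₀, Finset.sum_congr rfl h3, Finset.sum_add_distrib]
    have h4 := P.nu_split hY X₀.2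
    have h5 : P.nu ((X₀ : Set M) ∩ Y) = P.nu (Y ∩ X₀) := by rw [inter_comm]
    rw [h5]
    have h6 : k * P.nu Y = k * P.nu (Y ∩ X₀) + k * P.nu (Y ∩ (X₀ : Set M)ᶜ) := by
      rw [← h4]; ring
    rw [sub_mul] at h1
    linarith

/-- Evaluation of formal combinations as functions. -/
noncomputable def Phi : (P.D →₀ ℝ) →ₗ[ℝ] (M → ℝ) :=
  Finsupp.linearCombination ℝ (fun X : P.D => ind (X : Set M))

/-- Evaluation of formal combinations by the measure. -/
noncomputable def Psi : (P.D →₀ ℝ) →ₗ[ℝ] ℝ :=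
  Finsupp.linearCombination ℝ (fun X : P.D => P.nu (X : Set M))

theorem Psi_nonneg (c : P.D →₀ ℝ) (hc : ∀ t, 0 ≤ P.Phi c t) : 0 ≤ P.Psi c := by
  have h1 := P.pos_aux c.support c univ P.univ_mem 0 (by
    intro t _
    have := hc t
    unfold Phi at this
    rw [Finsupp.linearCombination_apply, Finsupp.sum, Finset.sum_apply] at this
    simpa using this)
  unfold Psi
  rw [Finsupp.linearCombination_apply, Finsupp.sum]
  simpa using h1

theorem exists_I : ∃ I : (M → ℝ) →ₗ[ℝ] ℝ, I ∘ₗ P.Phi = P.Psi := by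
  have h1 : P.Psi ∈ (LinearMap.ker P.Phi).dualAnnihilator := by
    rw [Submodule.mem_dualAnnihilator]
    intro c hc
    rw [LinearMap.mem_ker] at hc
    apply le_antisymm
    · have := P.Psi_nonneg (-c) (by intro t; rw [map_neg, hc]; simp)
      rw [map_neg] at this
      linarith
    · exact P.Psi_nonneg c (by intro t; rw [hc]; simp)
  rw [← LinearMap.range_dualMap_eq_dualAnnihilator_ker] at h1
  obtain ⟨I, hI⟩ := h1
  exact ⟨I, hI⟩

/-- The integral. -/
noncomputable def I : (M → ℝ) →ₗ[ℝ] ℝ := Classical.choose P.exists_I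

/-- The simple functions. -/
noncomputable def V : Submodule ℝ (M → ℝ) := LinearMap.range P.Phi

theorem ind_mem_V {X : Set M} (hX : X ∈ P.D) : ind X ∈ P.V := by
  refine ⟨Finsupp.single ⟨X, hX⟩ 1, ?_⟩
  unfold Phi
  rw [Finsupp.linearCombination_single, one_smul]

theorem I_ind {X : Set M} (hX : X ∈ P.D) : P.I (ind X) = P.nu X := by
  have h1 := Classical.choose_spec P.exists_I
  have h2 := congrArg (fun f => f (Finsupp.single (⟨X, hX⟩ : P.D) (1 : ℝ))) h1
  simp only [LinearMap.comp_apply] at h2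
  unfold Phi Psi at h2
  rw [Finsupp.linearCombination_single, Finsupp.linearCombination_single, one_smul,
    one_smul] at h2
  exact h2

theorem I_nonneg {g : M → ℝ} (hg : g ∈ P.V) (h0 : ∀ t, 0 ≤ g t) : 0 ≤ P.I g := by
  obtain ⟨c, rfl⟩ := hg
  have h1 := Classical.choose_spec P.exists_I
  have h2 := congrArg (fun f => f c) h1
  simp only [LinearMap.comp_apply] at h2
  change 0 ≤ (Classical.choose P.exists_I) (P.Phi c)
  rw [h2]
  exact P.Psi_nonneg c h0

theorem I_mono {f g : M → ℝ} (hf : f ∈ P.V) (hg : g ∈ P.V) (h : ∀ t, f t ≤ g t) :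
    P.I f ≤ P.I g := by
  have := P.I_nonneg (P.V.sub_mem hg hf) (fun t => sub_nonneg.2 (h t))
  rw [map_sub] at this
  linarith

theorem V_induction {p : (M → ℝ) → Prop} (h1 : ∀ X ∈ P.D, p (ind X)) (h0 : p 0)
    (ha : ∀ f g, f ∈ P.V → g ∈ P.V → p f → p g → p (f + g))
    (hs : ∀ (a : ℝ) f, f ∈ P.V → p f → p (a • f)) {g : M → ℝ} (hg : g ∈ P.V) : p g := by
  obtain ⟨c, rfl⟩ := hg
  induction c using Finsupp.induction_linear with
  | zero => rw [map_zero]; exact h0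
  | add f g hf hg => rw [map_add]; exact ha _ _ ⟨f, rfl⟩ ⟨g, rfl⟩ hf hg
  | single X a =>
    have : P.Phi (Finsupp.single X a) = a • ind (X : Set M) := by
      unfold Phi
      rw [Finsupp.linearCombination_single]
    rw [this]
    exact hs a _ (P.ind_mem_V X.2) (h1 X X.2)

theorem V_mul {f g : M → ℝ} (hf : f ∈ P.V) (hg : g ∈ P.V) : f * g ∈ P.V := by
  refine P.V_induction (p := fun f => f * g ∈ P.V) ?_ ?_ ?_ ?_ hf
  · intro X hX
    refine P.V_induction (p := fun g => ind X * g ∈ P.V) ?_ ?_ ?_ ?_ hg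
    · intro Y hY
      rw [ind_mul]
      exact P.ind_mem_V (P.inter_mem hX hY)
    · rw [mul_zero]; exact P.V.zero_mem
    · intro f g _ _ h1 h2
      rw [mul_add]; exact P.V.add_mem h1 h2
    · intro a f _ h1
      rw [mul_smul_comm]; exact P.V.smul_mem a h1
  · rw [zero_mul]; exact P.V.zero_mem
  · intro f g _ _ h1 h2
    rw [add_mul]; exact P.V.add_mem h1 h2
  · intro a f _ h1
    rw [smul_mul_assoc]; exact P.V.smul_mem a h1

theorem V_shift {g : M → ℝ} (hg : g ∈ P.V) (t : M) :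
    (fun x => g (x + t)) ∈ P.V ∧ P.I (fun x => g (x + t)) = P.I g := by
  refine P.V_induction (p := fun g => (fun x => g (x + t)) ∈ P.V ∧
    P.I (fun x => g (x + t)) = P.I g) ?_ ?_ ?_ ?_ hg
  · intro X hX
    have h1 : (fun x => ind X (x + t)) = ind {x | x + t ∈ X} := by
      funext x
      by_cases hx : x + t ∈ X
      · rw [ind_mem hx, ind_mem]; exact hx
      · rw [ind_notMem hx, ind_notMem]; exact hx
    rw [h1, P.I_ind hX, P.I_ind (P.shift_mem hX t), P.nu_shift hX]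
    exact ⟨P.ind_mem_V (P.shift_mem hX t), rfl⟩
  · exact ⟨P.V.zero_mem, rfl⟩
  · intro f g _ _ h1 h2
    refine ⟨P.V.add_mem h1.1 h2.1, ?_⟩
    have : (fun x => (f + g) (x + t)) = (fun x => f (x + t)) + fun x => g (x + t) := rfl
    rw [this, map_add, map_add, h1.2, h2.2]
  · intro a f _ h1
    refine ⟨P.V.smul_mem a h1.1, ?_⟩
    have : (fun x => (a • f) (x + t)) = a • fun x => f (x + t) := rfl
    rw [this, map_smul, map_smul, h1.2]

theorem V_sum {ι : Type*} (s : Finset ι) (g : ι → M → ℝ) (hg : ∀ i ∈ s, g i ∈ P.V) :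
    (∑ i ∈ s, g i) ∈ P.V := P.V.sum_mem hg

/-! ### Fubini -/

theorem exists_dim_ge {r : ℕ} (Y : Fin r → Set M) (hY : ∀ i, Y i ∈ P.D)
    (hdisj : ∀ i j, i ≠ j → Disjoint (Y i) (Y j)) (hr : (⋃ i, Y i).Nonempty) (e : ℕ)
    (he : e ≤ (P.h (⋃ i, Y i)).1) : ∃ i, e ≤ (P.h (Y i)).1 := by
  classical
  have key : ∀ (s : Finset (Fin r)) (k : ℕ), (∀ i ∈ s, (P.h (Y i)).1 ≤ k) →
      (P.h (⋃ i ∈ s, Y i)).1 ≤ k := by
    intro s
    induction s using Finset.induction_on with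
    | empty =>
      intro k _
      simp [P.h_empty]
    | insert a s ha ih =>
      intro k hk
      rw [Finset.set_biUnion_insert, P.add_dim (hY a) (P.biUnion_mem s Y fun i _ => hY i)]
      · exact max_le (hk a (Finset.mem_insert_self a s))
          (ih k fun i hi => hk i (Finset.mem_insert_of_mem hi))
      · rw [disjoint_iUnion₂_right]
        intro i hi
        refine hdisj a i ?_
        rintro rfl
        exact ha hi
  by_contra hcon
  push Not at hcon
  obtain ⟨x, hx⟩ := hr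
  obtain ⟨i₀, -⟩ := mem_iUnion.1 hx
  have h0 := hcon i₀
  have h1 := key Finset.univ (e - 1) (fun i _ => by have := hcon i; omega)
  have h2 : (⋃ i ∈ (Finset.univ : Finset (Fin r)), Y i) = ⋃ i, Y i := by simp
  rw [h2] at h1
  omega

theorem fub_lead {fib : M → Set M} {w : ℕ × ℝ} (hfib : ∀ s, fib s ∈ P.D)
    (hne : ∃ s, (fib s).Nonempty) (hF : FubData P.D P.h fib w) :
    (fun s => P.nu (fib s)) ∈ P.V ∧ P.I (fun s => P.nu (fib s)) = lead (2 * P.d) w := by
  classical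
  obtain ⟨r, Y, a, hYD, hYne, hdisj, hU, ha, hw⟩ := hF
  have hfun : (fun s => P.nu (fib s)) = ∑ i, lead P.d (a i) • ind (Y i) := by
    funext s
    rw [Finset.sum_apply]
    by_cases hs : s ∈ ⋃ i, Y i
    · obtain ⟨i, hi⟩ := mem_iUnion.1 hs
      rw [Finset.sum_eq_single i]
      · simp only [Pi.smul_apply, ind_mem hi, smul_eq_mul, mul_one]
        unfold nu
        rw [ha i s hi]
      · intro j _ hji
        have : s ∉ Y j := fun hj => (disjoint_left.1 (hdisj j i hji)) hj hi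
        simp only [Pi.smul_apply, ind_notMem this, smul_zero]
      · intro h; exact absurd (Finset.mem_univ i) h
    · have h1 : fib s = ∅ := by
        rw [hU] at hs
        exact not_nonempty_iff_eq_empty.1 hs
      rw [h1, P.nu_empty]
      symm
      refine Finset.sum_eq_zero fun i _ => ?_
      have : s ∉ Y i := fun hi => hs (mem_iUnion.2 ⟨i, hi⟩)
      simp only [Pi.smul_apply, ind_notMem this, smul_zero]
  have hV : (fun s => P.nu (fib s)) ∈ P.V := by
    rw [hfun]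
    exact P.V.sum_mem fun i _ => P.V.smul_mem _ (P.ind_mem_V (hYD i))
  refine ⟨hV, ?_⟩
  rw [hfun, map_sum]
  simp only [map_smul, smul_eq_mul]
  have h2 : ∀ i, P.I (ind (Y i)) = P.nu (Y i) := fun i => P.I_ind (hYD i)
  simp only [h2]
  -- the greatest total dimension
  obtain ⟨s₀, hs₀⟩ := hne
  have hs₀' : s₀ ∈ ⋃ i, Y i := by rw [hU]; exact hs₀
  obtain ⟨i₀, hi₀⟩ := mem_iUnion.1 hs₀'
  have hai : ∀ i, (a i).1 ≤ P.d := by
    intro i
    obtain ⟨s, hs⟩ := hYne i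
    rw [← ha i s hs]
    exact P.dim_le (hfib s)
  have hYi : ∀ i, (P.h (Y i)).1 ≤ P.d := fun i => P.dim_le (hYD i)
  obtain ⟨i₁, -, hi₁⟩ := Finset.exists_max_image Finset.univ
    (fun i => (a i).1 + (P.h (Y i)).1) ⟨i₀, Finset.mem_univ i₀⟩
  have hc := hw ((a i₁).1 + (P.h (Y i₁)).1) ⟨⟨i₁, rfl⟩, by
    rintro _ ⟨i, rfl⟩
    exact hi₁ i (Finset.mem_univ i)⟩
  rw [hc]
  unfold lead
  simp only
  by_cases hcase : (a i₁).1 + (P.h (Y i₁)).1 = 2 * P.d
  · rw [if_pos hcase]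
    refine Finset.sum_congr rfl fun i _ => ?_
    unfold nu lead
    rw [hcase]
    have := hai i
    have := hYi i
    by_cases h3 : (a i).1 = P.d
    · by_cases h4 : (P.h (Y i)).1 = P.d
      · rw [if_pos h3, if_pos h4, if_pos (by omega)]
      · rw [if_pos h3, if_neg h4, if_neg (by omega), mul_zero]
    · rw [if_neg h3, zero_mul, if_neg (by omega)]
  · rw [if_neg hcase]
    refine Finset.sum_eq_zero fun i _ => ?_
    unfold nu lead
    have := hai i
    have := hYi i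
    have h5 := hi₁ i (Finset.mem_univ i)
    have := hai i₁
    have := hYi i₁
    by_cases h3 : (a i).1 = P.d
    · have h4 : (P.h (Y i)).1 ≠ P.d := by omega
      rw [if_neg h4, mul_zero]
    · rw [if_neg h3, zero_mul]

theorem fubini (Z : Set (M × M)) (hZ : Z ∈ P.D2) :
    (fun s => P.nu {x | (x, s) ∈ Z}) ∈ P.V ∧ (fun x => P.nu {s | (x, s) ∈ Z}) ∈ P.V ∧
    P.I (fun s => P.nu {x | (x, s) ∈ Z}) = P.I (fun x => P.nu {s | (x, s) ∈ Z}) := by
  by_cases hne : Z.Nonempty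
  · obtain ⟨w, h1, h2⟩ := P.fub Z hZ hne
    obtain ⟨⟨x, s⟩, hxs⟩ := hne
    have h3 := P.fub_lead (P.D2_fib1 Z hZ) ⟨s, x, hxs⟩ h1
    have h4 := P.fub_lead (P.D2_fib2 Z hZ) ⟨x, s, hxs⟩ h2
    exact ⟨h3.1, h4.1, h3.2.trans h4.2.symm⟩
  · rw [not_nonempty_iff_eq_empty] at hne
    subst hne
    have h1 : (fun s : M => P.nu {x | (x, s) ∈ (∅ : Set (M × M))}) = 0 := by
      funext s
      simp [P.nu_empty]
    have h2 : (fun x : M => P.nu {s | (x, s) ∈ (∅ : Set (M × M))}) = 0 := by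
      funext s
      simp [P.nu_empty]
    rw [h1, h2]
    exact ⟨P.V.zero_mem, P.V.zero_mem, rfl⟩

/-! ### The dimension of `A` -/

theorem drop_step (hA : (P.h P.A).1 < P.d) (X : Set M) (hX : X ∈ P.D) (N : ℕ) (hN : 1 ≤ N)
    (hXne : X.Nonempty) :
    ∃ b : M, {x | x ∈ X ∧ x + N • b ∈ P.A} = ∅ ∨
      (P.h {x | x ∈ X ∧ x + N • b ∈ P.A}).1 < (P.h X).1 := by
  by_contra hcon
  push Not at hcon
  have hZ := P.D2_drop X hX N hN
  set Z : Set (M × M) := {z : M × M | z.1 ∈ X ∧ z.1 + N • z.2 ∈ P.A} with hZdef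
  have hZne : Z.Nonempty := by
    obtain ⟨x, hx⟩ := (hcon 0).1
    exact ⟨(x, 0), hx⟩
  obtain ⟨w, h1, h2⟩ := P.fub Z hZ hZne
  -- lower bound
  have hlow : (P.h X).1 + P.d ≤ w.1 := by
    obtain ⟨r, Y, a, hYD, hYne, hdisj, hU, ha, hw⟩ := h1
    have hU' : (⋃ i, Y i) = univ := by
      rw [hU, eq_univ_iff_forall]
      intro b
      exact (hcon b).1
    obtain ⟨i, hi⟩ := P.exists_dim_ge Y hYD hdisj (by rw [hU']; exact ⟨0, trivial⟩) P.d
      (by rw [hU']; exact le_rfl)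
    obtain ⟨i₁, -, hi₁⟩ := Finset.exists_max_image Finset.univ
      (fun i => (a i).1 + (P.h (Y i)).1) ⟨i, Finset.mem_univ i⟩
    have hc := hw ((a i₁).1 + (P.h (Y i₁)).1) ⟨⟨i₁, rfl⟩, by
      rintro _ ⟨i, rfl⟩
      exact hi₁ i (Finset.mem_univ i)⟩
    rw [hc]
    have h3 := hi₁ i (Finset.mem_univ i)
    obtain ⟨b, hb⟩ := hYne i
    have h4 := ha i b hb
    have h5 := (hcon b).2
    have h6 : (P.h {x | x ∈ X ∧ x + N • b ∈ P.A}).1 = (a i).1 := by
      rw [← h4]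
      rfl
    rw [h6] at h5
    change (P.h X).1 + P.d ≤ (a i₁).1 + (P.h (Y i₁)).1
    omega
  -- upper bound
  have hup : w.1 ≤ (P.h X).1 + (P.h P.A).1 := by
    obtain ⟨r, Y, a, hYD, hYne, hdisj, hU, ha, hw⟩ := h2
    obtain ⟨⟨x₀, b₀⟩, hz₀⟩ := hZne
    have hx₀ : x₀ ∈ ⋃ i, Y i := by
      rw [hU]; exact ⟨b₀, hz₀⟩
    obtain ⟨i, hi⟩ := mem_iUnion.1 hx₀
    obtain ⟨i₁, -, hi₁⟩ := Finset.exists_max_image Finset.univ
      (fun i => (a i).1 + (P.h (Y i)).1) ⟨i, Finset.mem_univ i⟩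
    have hc := hw ((a i₁).1 + (P.h (Y i₁)).1) ⟨⟨i₁, rfl⟩, by
      rintro _ ⟨i, rfl⟩
      exact hi₁ i (Finset.mem_univ i)⟩
    rw [hc]
    change (a i₁).1 + (P.h (Y i₁)).1 ≤ _
    have hsub : Y i₁ ⊆ X := by
      intro x hx
      have : x ∈ ⋃ i, Y i := mem_iUnion.2 ⟨i₁, hx⟩
      rw [hU] at this
      obtain ⟨b, hb⟩ := this
      exact hb.1
    have h3 := P.dim_mono (hYD i₁) hX hsub
    obtain ⟨x, hx⟩ := hYne i₁
    have h4 := ha i₁ x hx
    have h5 : {s | (x, s) ∈ Z} = {b | x + N • b ∈ P.A} := by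
      ext b
      constructor
      · exact fun hb => hb.2
      · exact fun hb => ⟨hsub hx, hb⟩
    have h6 := P.dim_inj N hN x
    rw [← h5, h4] at h6
    omega
  omega

theorem drop_iter (hA : (P.h P.A).1 < P.d) (N : ℕ) (hN : 1 ≤ N) (n : ℕ) :
    ∃ b : ℕ → M, {x | ∀ i, i < n → x + N • b i ∈ P.A} ∈ P.D ∧
      ({x | ∀ i, i < n → x + N • b i ∈ P.A} = ∅ ∨
        (P.h {x | ∀ i, i < n → x + N • b i ∈ P.A}).1 + n ≤ P.d) := by
  induction n with
  | zero =>
    refine ⟨fun _ => 0, ?_⟩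
    have : {x : M | ∀ i, i < 0 → x + N • (0 : M) ∈ P.A} = univ := by
      ext x; simp
    rw [this]
    exact ⟨P.univ_mem, Or.inr le_rfl⟩
  | succ n ih =>
    obtain ⟨b, hb, hcase⟩ := ih
    set X : Set M := {x | ∀ i, i < n → x + N • b i ∈ P.A} with hX
    have hstep : ∃ c : M, {x | x ∈ X ∧ x + N • c ∈ P.A} = ∅ ∨
        (P.h {x | x ∈ X ∧ x + N • c ∈ P.A}).1 + (n + 1) ≤ P.d := by
      rcases X.eq_empty_or_nonempty with h0 | hne
      · refine ⟨0, Or.inl ?_⟩
        rw [h0]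
        ext x; simp
      · rcases hcase with h0 | hdim
        · exact absurd h0 (nonempty_iff_ne_empty.1 hne)
        · obtain ⟨c, hc⟩ := P.drop_step hA X hb N hN hne
          refine ⟨c, ?_⟩
          rcases hc with hc | hc
          · exact Or.inl hc
          · right; omega
    obtain ⟨c, hc⟩ := hstep
    refine ⟨Function.update b n c, ?_⟩
    have h1 : {x | ∀ i, i < n + 1 → x + N • (Function.update b n c) i ∈ P.A} =
        {x | x ∈ X ∧ x + N • c ∈ P.A} := by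
      ext x
      constructor
      · intro hx
        refine ⟨fun i hi => ?_, ?_⟩
        · have := hx i (by omega)
          rwa [Function.update_of_ne (by omega)] at this
        · have := hx n (by omega)
          rwa [Function.update_self] at this
      · rintro ⟨hx1, hx2⟩ i hi
        by_cases h : i = n
        · subst h
          rw [Function.update_self]; exact hx2
        · rw [Function.update_of_ne h]
          exact hx1 i (by omega)
    rw [h1]
    refine ⟨?_, hc⟩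
    exact P.inter_mem hb (P.shift_mem P.A_mem (N • c))

/-- If all small families of translates of `A` by multiples of `N` meet, then `A` has full
dimension. -/
theorem dim_A (hmeet : ∀ n : ℕ, ∃ N : ℕ, 1 ≤ N ∧ ∀ b : ℕ → M, ∃ x, ∀ i, i < n →
    x + N • b i ∈ P.A) : (P.h P.A).1 = P.d := by
  apply le_antisymm (P.dim_le P.A_mem)
  by_contra hcon
  rw [not_le] at hcon
  obtain ⟨N, hN, hmeet⟩ := hmeet (P.d + 1)
  obtain ⟨b, hb, hcase⟩ := P.drop_iter hcon N hN (P.d + 1)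
  rcases hcase with h0 | h0
  · obtain ⟨x, hx⟩ := hmeet b
    have : x ∈ {x | ∀ i, i < P.d + 1 → x + N • b i ∈ P.A} := hx
    rw [h0] at this
    exact this
  · omega

end Pack

end Pool.Agent.Helper89.MS
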