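import Pool.Agent.Helper89.MSCore

/-!
The combinatorial core, second part: the correlation function of `A` has a finite index
stabiliser, and the final contradiction.
-/

open Set Function

namespace Pool.Agent.Helper89.MS

theorem exists_pos_lb {s : Set ℝ} (hs : s.Finite) (h : ∀ x ∈ s, 0 < x) :
    ∃ η : ℝ, 0 < η ∧ ∀ x ∈ s, η ≤ x := by
  induction s, hs using Set.Finite.induction_on with
  | empty => exact ⟨1, one_pos, fun x hx => absurd hx (notMem_empty x)⟩
  | insert _ _ ih =>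
    obtain ⟨η, hη, hle⟩ := ih fun x hx => h x (mem_insert_of_mem _ hx)
    rename_i a s _ _
    refine ⟨min η a, lt_min hη (h a (mem_insert a s)), ?_⟩
    rintro x (rfl | hx)
    · exact min_le_right _ _
    · exact (min_le_left _ _).trans (hle x hx)

variable {M : Type*} [AddCommGroup M] (P : Pack M)

namespace Pack

/-- The correlation sets. -/
def corr (t : M) : Set M := {x | x ∈ P.A ∧ x + t ∈ P.A}

theorem corr_mem (t : M) : P.corr t ∈ P.D := P.inter_mem P.A_mem (P.shift_mem P.A_mem t)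

/-- The correlation function. -/
noncomputable def f (t : M) : ℝ := P.nu (P.corr t)

theorem f_nonneg (t : M) : 0 ≤ P.f t := P.nu_nonneg (P.corr_mem t)

theorem f_neg (t : M) : P.f (-t) = P.f t := by
  unfold f
  have h1 : P.corr t = {x | x + t ∈ P.corr (-t)} := by
    ext x
    unfold corr
    simp only [mem_ofPred_eq, add_neg_cancel_right]
    tauto
  rw [h1, P.nu_shift (P.corr_mem (-t))]

theorem f_sub_comm (s t : M) : P.f (s - t) = P.f (t - s) := by
  rw [← P.f_neg, neg_sub]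

theorem f_zero : P.f 0 = P.nu P.A := by
  unfold f corr
  simp

theorem f_finite : (range P.f).Finite := by
  refine (P.H_finite.image (fun v => lead P.d v)).subset ?_
  rintro _ ⟨t, rfl⟩
  exact ⟨P.h {x | x ∈ P.A ∧ x + t ∈ P.A}, ⟨t, rfl⟩, rfl⟩

/-- Sets defined from the values of the correlation are definable. -/
theorem pred_mem (Q : (ℕ × ℝ) → (ℕ × ℝ) → Prop) (u v : M) :
    {t | Q (P.h (P.corr (t + u))) (P.h (P.corr (t + v)))} ∈ P.D := by
  classical
  have hfin := P.H_finite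
  let s : Finset ((ℕ × ℝ) × (ℕ × ℝ)) :=
    (hfin.toFinset ×ˢ hfin.toFinset).filter fun p => Q p.1 p.2
  have h1 : {t | Q (P.h (P.corr (t + u))) (P.h (P.corr (t + v)))} =
      ⋃ p ∈ s, ({t | t + u ∈ {t | P.h {x | x ∈ P.A ∧ x + t ∈ P.A} = p.1}} ∩
        {t | t + v ∈ {t | P.h {x | x ∈ P.A ∧ x + t ∈ P.A} = p.2}}) := by
    ext t
    simp only [mem_ofPred_eq, mem_iUnion, mem_inter_iff, exists_prop, s, Finset.mem_filter,
      Finset.mem_product, Set.Finite.mem_toFinset]
    constructor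
    · intro hQ
      exact ⟨(P.h (P.corr (t + u)), P.h (P.corr (t + v))), ⟨⟨⟨t + u, rfl⟩, ⟨t + v, rfl⟩⟩, hQ⟩,
        rfl, rfl⟩
    · rintro ⟨p, ⟨-, hQ⟩, h1, h2⟩
      have h1' : P.h (P.corr (t + u)) = p.1 := h1
      have h2' : P.h (P.corr (t + v)) = p.2 := h2
      rw [h1', h2']; exact hQ
  rw [h1]
  exact P.biUnion_mem s _ fun p _ => P.inter_mem (P.shift_mem (P.H_level p.1) u)
    (P.shift_mem (P.H_level p.2) v)

theorem pred_mem1 (Q : (ℕ × ℝ) → Prop) : {t | Q (P.h (P.corr t))} ∈ P.D := by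
  have := P.pred_mem (fun a _ => Q a) 0 0
  simpa using this

/-- The set where `f` changes under the translation by `u`. -/
def E (u : M) : Set M := {t | P.f (t + u) ≠ P.f t}

theorem E_mem (u : M) : P.E u ∈ P.D := by
  have h1 := P.pred_mem (fun a b => lead P.d a ≠ lead P.d b) u 0
  have h2 : P.E u = {t | lead P.d (P.h (P.corr (t + u))) ≠ lead P.d (P.h (P.corr (t + 0)))} := by
    ext t
    change P.f (t + u) ≠ P.f t ↔ lead P.d (P.h (P.corr (t + u))) ≠ lead P.d (P.h (P.corr (t + 0)))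
    rw [add_zero]
    rfl
  rw [h2]
  exact h1

theorem f_mem_V : P.f ∈ P.V := by
  classical
  have h1 : P.f = ∑ v ∈ P.f_finite.toFinset, v • ind {t | P.f t = v} := by
    funext t
    rw [Finset.sum_apply, Finset.sum_eq_single (P.f t)]
    · rw [Pi.smul_apply, ind_mem (show t ∈ {t' | P.f t' = P.f t} from rfl), smul_eq_mul, mul_one]
    · intro v _ hv
      rw [Pi.smul_apply, ind_notMem (show t ∉ {t' | P.f t' = v} from fun h => hv h.symm),
        smul_zero]
    · intro h
      exact absurd ((Set.Finite.mem_toFinset P.f_finite).2 (mem_range_self t)) h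
  rw [h1]
  exact P.V.sum_mem fun v _ => P.V.smul_mem v
    (P.ind_mem_V (P.pred_mem1 (fun a => lead P.d a = v)))

theorem nu_mono {X Y : Set M} (hX : X ∈ P.D) (hY : Y ∈ P.D) (hXY : X ⊆ Y) :
    P.nu X ≤ P.nu Y := by
  rw [← P.I_ind hX, ← P.I_ind hY]
  refine P.I_mono (P.ind_mem_V hX) (P.ind_mem_V hY) fun t => ?_
  by_cases h : t ∈ X
  · rw [ind_mem h, ind_mem (hXY h)]
  · rw [ind_notMem h]
    unfold ind
    exact indicator_nonneg (fun _ _ => zero_le_one) t

theorem nu_union_le {X Y : Set M} (hX : X ∈ P.D) (hY : Y ∈ P.D) :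
    P.nu (X ∪ Y) ≤ P.nu X + P.nu Y := by
  rw [← P.I_ind hX, ← P.I_ind hY, ← map_add, ← P.I_ind (P.union_mem hX hY)]
  refine P.I_mono (P.ind_mem_V (P.union_mem hX hY))
    (P.V.add_mem (P.ind_mem_V hX) (P.ind_mem_V hY)) fun t => ?_
  by_cases h1 : t ∈ X <;> by_cases h2 : t ∈ Y <;> simp [ind, h1, h2]

/-- The stabiliser of the correlation function. -/
noncomputable def Hs : AddSubgroup M where
  carrier := {u | P.nu (P.E u) = 0}
  zero_mem' := by
    change P.nu (P.E 0) = 0
    have : P.E 0 = ∅ := by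
      ext t; simp [E]
    rw [this, P.nu_empty]
  add_mem' := by
    intro u v hu hv
    change P.nu (P.E (u + v)) = 0
    have hu' : P.nu (P.E u) = 0 := hu
    have hv' : P.nu (P.E v) = 0 := hv
    have h1 : P.E (u + v) ⊆ {t | t + u ∈ P.E v} ∪ P.E u := by
      intro t ht
      by_contra hcon
      rw [mem_union, not_or] at hcon
      have h2 : P.f (t + u + v) = P.f (t + u) := not_not.1 hcon.1
      have h3 : P.f (t + u) = P.f t := not_not.1 hcon.2
      exact ht (by rw [← add_assoc, h2, h3])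
    have h4 := P.nu_mono (P.E_mem (u + v)) (P.union_mem (P.shift_mem (P.E_mem v) u) (P.E_mem u)) h1
    have h5 := P.nu_union_le (P.shift_mem (P.E_mem v) u) (P.E_mem u)
    rw [P.nu_shift (P.E_mem v), hu', hv'] at h5
    exact le_antisymm (by linarith) (P.nu_nonneg (P.E_mem _))
  neg_mem' := by
    intro u hu
    change P.nu (P.E (-u)) = 0
    have hu' : P.nu (P.E u) = 0 := hu
    have h1 : P.E u = {t | t + u ∈ P.E (-u)} := by
      ext t
      unfold E
      simp only [mem_ofPred_eq, add_neg_cancel_right, ne_eq]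
      exact not_congr eq_comm
    rw [h1, P.nu_shift (P.E_mem (-u))] at hu'
    exact hu'

theorem mem_Hs {u : M} : u ∈ P.Hs ↔ P.nu (P.E u) = 0 := Iff.rfl

/-! ### Bessel -/

/-- The indicator function of a translate of `A`. -/
noncomputable def uu (s : M) : M → ℝ := ind {x | x + s ∈ P.A}

theorem uu_mem (s : M) : P.uu s ∈ P.V := P.ind_mem_V (P.shift_mem P.A_mem s)

theorem I_uu (s t : M) : P.I (P.uu s * P.uu t) = P.f (t - s) := by
  unfold uu
  rw [ind_mul, P.I_ind (P.inter_mem (P.shift_mem P.A_mem s) (P.shift_mem P.A_mem t))]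
  have h1 : {x | x + s ∈ P.A} ∩ {x | x + t ∈ P.A} = {x | x + s ∈ P.corr (t - s)} := by
    ext x
    unfold corr
    simp only [mem_inter_iff, mem_ofPred_eq]
    have : x + s + (t - s) = x + t := by abel
    rw [this]
  rw [h1, P.nu_shift (P.corr_mem _)]
  rfl

theorem bessel (n : ℕ) (a b : ℕ → M)
    (h1 : ∀ i, i < n → ∀ j, j < i → P.f (a i - a j) = P.f (b i - a j) ∧
      P.f (a i - b j) = P.f (b i - b j)) (t : M) :
    ∑ i ∈ Finset.range n, (P.f (t - a i) - P.f (t - b i)) ^ 2 ≤ 2 * P.f 0 ^ 2 := by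
  set f0 := P.f 0 with hf0
  have hf0nn : 0 ≤ f0 := P.f_nonneg 0
  -- the differences
  let dd : ℕ → M → ℝ := fun i => P.uu (a i) - P.uu (b i)
  have hddV : ∀ i, dd i ∈ P.V := fun i => P.V.sub_mem (P.uu_mem _) (P.uu_mem _)
  let g : ℕ → ℝ := fun i => P.f (t - a i) - P.f (t - b i)
  have hg : ∀ i, P.I (P.uu t * dd i) = g i := by
    intro i
    change P.I (P.uu t * (P.uu (a i) - P.uu (b i))) = P.f (t - a i) - P.f (t - b i)
    rw [mul_sub, map_sub, P.I_uu, P.I_uu, P.f_sub_comm (a i), P.f_sub_comm (b i)]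
  have horth' : ∀ i, i < n → ∀ j, j < i → P.I (dd i * dd j) = 0 := by
    intro i hi j hj
    obtain ⟨h2, h3⟩ := h1 i hi j hj
    change P.I ((P.uu (a i) - P.uu (b i)) * (P.uu (a j) - P.uu (b j))) = 0
    rw [sub_mul, mul_sub, mul_sub, map_sub, map_sub, map_sub, P.I_uu, P.I_uu, P.I_uu, P.I_uu,
      P.f_sub_comm (a j), P.f_sub_comm (b j), P.f_sub_comm (a j), P.f_sub_comm (b j), h2, h3]
    ring
  have horth : ∀ i, i < n → ∀ j, j < n → i ≠ j → P.I (dd i * dd j) = 0 := by
    intro i hi j hj hij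
    rcases lt_or_gt_of_ne hij with h | h
    · rw [mul_comm]; exact horth' j hj i h
    · exact horth' i hi j h
  have hnorm : ∀ i, P.I (dd i * dd i) ≤ 2 * f0 := by
    intro i
    change P.I ((P.uu (a i) - P.uu (b i)) * (P.uu (a i) - P.uu (b i))) ≤ 2 * f0
    rw [sub_mul, mul_sub, mul_sub, map_sub, map_sub, map_sub, P.I_uu, P.I_uu, P.I_uu, P.I_uu,
      sub_self, sub_self]
    have := P.f_nonneg (b i - a i)
    have := P.f_nonneg (a i - b i)
    linarith
  set G := ∑ i ∈ Finset.range n, g i ^ 2 with hG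
  have hG0 : 0 ≤ G := Finset.sum_nonneg fun i _ => sq_nonneg _
  -- the quadratic inequality
  have hquad : ∀ l : ℝ, 0 ≤ f0 - 2 * l * G + l ^ 2 * (2 * f0) * G := by
    intro l
    let S : M → ℝ := ∑ i ∈ Finset.range n, g i • dd i
    have hSV : S ∈ P.V := P.V.sum_mem fun i _ => P.V.smul_mem _ (hddV i)
    have hwV : P.uu t - l • S ∈ P.V := P.V.sub_mem (P.uu_mem t) (P.V.smul_mem l hSV)
    have hpos : 0 ≤ P.I ((P.uu t - l • S) * (P.uu t - l • S)) :=
      P.I_nonneg (P.V_mul hwV hwV) fun x => mul_self_nonneg _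
    have hexp : (P.uu t - l • S) * (P.uu t - l • S) =
        P.uu t * P.uu t - (2 * l) • (P.uu t * S) + (l ^ 2) • (S * S) := by
      funext x
      simp only [Pi.mul_apply, Pi.sub_apply, Pi.add_apply, Pi.smul_apply, smul_eq_mul]
      ring
    have hIS : P.I (P.uu t * S) = G := by
      change P.I (P.uu t * ∑ i ∈ Finset.range n, g i • dd i) = G
      rw [Finset.mul_sum, map_sum, hG]
      refine Finset.sum_congr rfl fun i _ => ?_
      rw [mul_smul_comm, map_smul, hg i, smul_eq_mul, sq]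
    have hSS : P.I (S * S) ≤ 2 * f0 * G := by
      have h4 : P.I (S * S) = ∑ i ∈ Finset.range n, g i ^ 2 * P.I (dd i * dd i) := by
        change P.I ((∑ i ∈ Finset.range n, g i • dd i) * ∑ i ∈ Finset.range n, g i • dd i) = _
        rw [Finset.sum_mul_sum, map_sum]
        refine Finset.sum_congr rfl fun i hi => ?_
        rw [map_sum, Finset.sum_eq_single i]
        · rw [smul_mul_smul_comm, map_smul, smul_eq_mul, sq]
        · intro j hj hji
          rw [smul_mul_smul_comm, map_smul,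
            horth i (Finset.mem_range.1 hi) j (Finset.mem_range.1 hj) (Ne.symm hji), smul_zero]
        · intro h; exact absurd hi h
      rw [h4, hG, Finset.mul_sum]
      refine Finset.sum_le_sum fun i _ => ?_
      rw [mul_comm]
      exact mul_le_mul_of_nonneg_right (hnorm i) (sq_nonneg _)
    rw [hexp, map_add, map_sub, map_smul, map_smul, P.I_uu, sub_self, hIS, smul_eq_mul,
      smul_eq_mul] at hpos
    have h5 : l ^ 2 * P.I (S * S) ≤ l ^ 2 * (2 * f0 * G) :=
      mul_le_mul_of_nonneg_left hSS (sq_nonneg l)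
    have h6 : f0 - 2 * l * G + l ^ 2 * (2 * f0) * G = f0 - 2 * l * G + l ^ 2 * (2 * f0 * G) := by
      ring
    rw [h6]
    linarith
  rcases hf0nn.lt_or_eq with hpos | hzero
  · have h7 := hquad (1 / (2 * f0))
    have h8 : f0 - 2 * (1 / (2 * f0)) * G + (1 / (2 * f0)) ^ 2 * (2 * f0) * G =
        f0 - G / (2 * f0) := by
      field_simp
      ring
    rw [h8] at h7
    have h9 : G / (2 * f0) ≤ f0 := by linarith
    rw [div_le_iff₀ (by positivity)] at h9
    change G ≤ 2 * f0 ^ 2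
    nlinarith
  · rw [← hzero] at hquad ⊢
    have h7 := hquad 1
    change G ≤ 2 * (0 : ℝ) ^ 2
    nlinarith

theorem gap : ∃ η : ℝ, 0 < η ∧ ∀ s t, P.f s ≠ P.f t → η ≤ (P.f s - P.f t) ^ 2 := by
  have hfin : {r : ℝ | ∃ s t, P.f s ≠ P.f t ∧ r = (P.f s - P.f t) ^ 2}.Finite := by
    refine ((P.f_finite.prod P.f_finite).image (fun p => (p.1 - p.2) ^ 2)).subset ?_
    rintro _ ⟨s, t, -, rfl⟩
    exact ⟨(P.f s, P.f t), ⟨⟨s, rfl⟩, ⟨t, rfl⟩⟩, rfl⟩
  obtain ⟨η, hη, hle⟩ := exists_pos_lb hfin (by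
    rintro _ ⟨s, t, hst, rfl⟩
    have : P.f s - P.f t ≠ 0 := sub_ne_zero.2 hst
    positivity)
  exact ⟨η, hη, fun s t hst => hle _ ⟨s, t, hst, rfl⟩⟩

theorem gapE : ∃ δ : ℝ, 0 < δ ∧ ∀ u, u ∉ P.Hs → δ ≤ P.nu (P.E u) := by
  have hfin : {r : ℝ | ∃ u, u ∉ P.Hs ∧ r = P.nu (P.E u)}.Finite := by
    refine (P.E_finite.image (fun v => lead P.d v)).subset ?_
    rintro _ ⟨u, -, rfl⟩
    exact ⟨P.h (P.E u), ⟨u, rfl⟩, rfl⟩
  obtain ⟨δ, hδ, hle⟩ := exists_pos_lb hfin (by
    rintro _ ⟨u, hu, rfl⟩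
    exact lt_of_le_of_ne (P.nu_nonneg (P.E_mem u)) (fun h => hu h.symm))
  exact ⟨δ, hδ, fun u hu => hle _ ⟨u, hu, rfl⟩⟩

theorem exists_pairs (hinf : Infinite (M ⧸ P.Hs)) (n : ℕ) :
    ∃ a b : ℕ → M, (∀ i, i < n → a i - b i ∉ P.Hs) ∧
      ∀ i, i < n → ∀ j, j < i → P.f (a i - a j) = P.f (b i - a j) ∧
      P.f (a i - b j) = P.f (b i - b j) := by
  induction n with
  | zero => exact ⟨fun _ => 0, fun _ => 0, fun i hi => absurd hi (by omega),
      fun i hi => absurd hi (by omega)⟩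
  | succ n ih =>
    obtain ⟨a, b, h1, h2⟩ := ih
    have : Finite (range P.f) := P.f_finite.to_subtype
    let pat : M ⧸ P.Hs → (Fin n → range P.f × range P.f) := fun q j =>
      (⟨P.f (Quotient.out q - a j), ⟨_, rfl⟩⟩, ⟨P.f (Quotient.out q - b j), ⟨_, rfl⟩⟩)
    obtain ⟨q, q', hne, heq⟩ := Finite.exists_ne_map_eq_of_infinite pat
    set x := Quotient.out q with hx
    set y := Quotient.out q' with hy
    have hxy : x - y ∉ P.Hs := by
      intro hmem
      apply hne
      have h3 : (x : M ⧸ P.Hs) = (y : M ⧸ P.Hs) := by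
        rw [eq_comm, QuotientAddGroup.eq]
        have : -y + x = x - y := by abel
        rw [this]; exact hmem
      have h4 : (x : M ⧸ P.Hs) = q := Quotient.out_eq q
      have h5 : (y : M ⧸ P.Hs) = q' := Quotient.out_eq q'
      rw [← h4, ← h5, h3]
    have hpat : ∀ j, j < n → P.f (x - a j) = P.f (y - a j) ∧ P.f (x - b j) = P.f (y - b j) := by
      intro j hj
      have h6 := congrFun heq ⟨j, hj⟩
      exact ⟨congrArg Subtype.val (Prod.mk.inj h6).1, congrArg Subtype.val (Prod.mk.inj h6).2⟩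
    refine ⟨Function.update a n x, Function.update b n y, ?_, ?_⟩
    · intro i hi
      by_cases h : i = n
      · subst h
        rw [Function.update_self, Function.update_self]; exact hxy
      · rw [Function.update_of_ne h, Function.update_of_ne h]
        exact h1 i (by omega)
    · intro i hi j hj
      have hjn : j ≠ n := by omega
      rw [Function.update_of_ne hjn, Function.update_of_ne hjn]
      by_cases h : i = n
      · subst h
        rw [Function.update_self, Function.update_self]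
        exact hpat j hj
      · rw [Function.update_of_ne h, Function.update_of_ne h]
        exact h2 i (by omega) j hj

/-- The stabiliser has finite index. -/
theorem finite_index : Finite (M ⧸ P.Hs) := by
  by_contra hcon
  rw [not_finite_iff_infinite] at hcon
  obtain ⟨η, hη, hgap⟩ := P.gap
  obtain ⟨δ, hδ, hgapE⟩ := P.gapE
  have key : ∀ n : ℕ, (n : ℝ) * δ ≤ 2 * P.f 0 ^ 2 / η * P.nu univ := by
    intro n
    obtain ⟨a, b, h1, h2⟩ := P.exists_pairs hcon n
    let Ei : ℕ → Set M := fun i => {t | t + (-a i) ∈ P.E (a i - b i)}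
    have hEi : ∀ i, Ei i ∈ P.D := fun i => P.shift_mem (P.E_mem _) _
    have hEimem : ∀ i t, t ∈ Ei i ↔ P.f (t - b i) ≠ P.f (t - a i) := by
      intro i t
      change P.f (t + -a i + (a i - b i)) ≠ P.f (t + -a i) ↔ _
      have h3 : t + -a i + (a i - b i) = t - b i := by abel
      have h4 : t + -a i = t - a i := by abel
      rw [h3, h4]
    have hnuEi : ∀ i, i < n → δ ≤ P.nu (Ei i) := by
      intro i hi
      change δ ≤ P.nu {t | t + (-a i) ∈ P.E (a i - b i)}
      rw [P.nu_shift (P.E_mem _)]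
      exact hgapE _ (h1 i hi)
    have hle : P.I (∑ i ∈ Finset.range n, ind (Ei i)) ≤ P.I ((2 * P.f 0 ^ 2 / η) • ind univ) := by
      refine P.I_mono (P.V.sum_mem fun i _ => P.ind_mem_V (hEi i))
        (P.V.smul_mem _ (P.ind_mem_V P.univ_mem)) fun t => ?_
      rw [Finset.sum_apply, Pi.smul_apply, ind_mem (mem_univ t), smul_eq_mul, mul_one,
        le_div_iff₀ hη, Finset.sum_mul]
      refine le_trans (Finset.sum_le_sum fun i hi => ?_) (P.bessel n a b h2 t)
      by_cases ht : t ∈ Ei i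
      · rw [ind_mem ht, one_mul]
        exact hgap _ _ (Ne.symm ((hEimem i t).1 ht))
      · rw [ind_notMem ht, zero_mul]
        positivity
    rw [map_sum, map_smul, P.I_ind P.univ_mem, smul_eq_mul] at hle
    refine le_trans ?_ hle
    have h5 : ∑ i ∈ Finset.range n, δ ≤ ∑ i ∈ Finset.range n, P.I (ind (Ei i)) := by
      refine Finset.sum_le_sum fun i hi => ?_
      rw [P.I_ind (hEi i)]
      exact hnuEi i (Finset.mem_range.1 hi)
    rwa [Finset.sum_const, Finset.card_range, nsmul_eq_mul] at h5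
  obtain ⟨n, hn⟩ := exists_nat_gt (2 * P.f 0 ^ 2 / η * P.nu univ / δ)
  rw [div_lt_iff₀ hδ] at hn
  exact absurd (key n) (not_le.2 hn)

/-! ### The contradiction -/

/-- The subgroup of multiples of `N`. -/
def mulN (M : Type*) [AddCommGroup M] (N : ℕ) : AddSubgroup M :=
  (nsmulAddMonoidHom (α := M) N).range

theorem mem_mulN {N : ℕ} {x : M} : x ∈ mulN M N ↔ ∃ y, N • y = x := Iff.rfl

/-- The coset of `c` as a set. -/
def cos (N : ℕ) (q : M ⧸ mulN M N) : Set M := {x | (x : M ⧸ mulN M N) = q}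

theorem cos_mem (N : ℕ) (q : M ⧸ mulN M N) : cos N q ∈ P.D := by
  obtain ⟨c, rfl⟩ := QuotientAddGroup.mk_surjective q
  have h1 : cos N (c : M ⧸ mulN M N) = {x | ∃ y, x = c + N • y} := by
    ext x
    change (x : M ⧸ mulN M N) = (c : M ⧸ mulN M N) ↔ _
    rw [eq_comm, QuotientAddGroup.eq, mem_mulN]
    constructor
    · rintro ⟨y, hy⟩
      exact ⟨y, by rw [hy]; abel⟩
    · rintro ⟨y, rfl⟩
      exact ⟨y, by abel⟩
  rw [h1]
  exact P.coset_mem N c

/-- Measure of `A` in a coset. -/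
noncomputable def al (N : ℕ) (q : M ⧸ mulN M N) : ℝ := P.nu (P.A ∩ cos N q)

theorem corr_identity (N : ℕ) [Fintype (M ⧸ mulN M N)] (c : M) :
    P.I (P.f * ind (cos N (c : M ⧸ mulN M N))) =
      ∑ q : M ⧸ mulN M N, P.al N (q + (c : M ⧸ mulN M N)) * P.al N q := by
  classical
  have hZ := P.D2_corr _ (P.cos_mem N (c : M ⧸ mulN M N))
  obtain ⟨-, -, h1⟩ := P.fubini _ hZ
  have h2 : (fun s => P.nu {x | (x, s) ∈ {z : M × M | z.1 ∈ P.A ∧ z.1 + z.2 ∈ P.A ∧
      z.2 ∈ cos N (c : M ⧸ mulN M N)}}) = P.f * ind (cos N (c : M ⧸ mulN M N)) := by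
    funext s
    rw [Pi.mul_apply]
    by_cases hs : s ∈ cos N (c : M ⧸ mulN M N)
    · rw [ind_mem hs, mul_one]
      unfold f corr
      congr 1
      ext x
      simp only [mem_ofPred_eq]
      tauto
    · rw [ind_notMem hs, mul_zero]
      have : {x | (x, s) ∈ {z : M × M | z.1 ∈ P.A ∧ z.1 + z.2 ∈ P.A ∧
          z.2 ∈ cos N (c : M ⧸ mulN M N)}} = ∅ := by
        ext x
        simp only [mem_ofPred_eq, mem_empty_iff_false, iff_false]
        tauto
      rw [this, P.nu_empty]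
  have h3 : (fun x => P.nu {s | (x, s) ∈ {z : M × M | z.1 ∈ P.A ∧ z.1 + z.2 ∈ P.A ∧
      z.2 ∈ cos N (c : M ⧸ mulN M N)}}) =
      ∑ q : M ⧸ mulN M N, P.al N (q + (c : M ⧸ mulN M N)) • ind (P.A ∩ cos N q) := by
    funext x
    rw [Finset.sum_apply]
    by_cases hx : x ∈ P.A
    · rw [Finset.sum_eq_single (x : M ⧸ mulN M N)]
      · rw [Pi.smul_apply, ind_mem (show x ∈ P.A ∩ cos N (x : M ⧸ mulN M N) from ⟨hx, rfl⟩),
          smul_eq_mul, mul_one]
        unfold al
        have h4 : {s | (x, s) ∈ {z : M × M | z.1 ∈ P.A ∧ z.1 + z.2 ∈ P.A ∧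
            z.2 ∈ cos N (c : M ⧸ mulN M N)}} =
            {s | s + x ∈ P.A ∩ cos N ((x : M ⧸ mulN M N) + (c : M ⧸ mulN M N))} := by
          ext s
          change (x ∈ P.A ∧ x + s ∈ P.A ∧ (s : M ⧸ mulN M N) = (c : M ⧸ mulN M N)) ↔
            (s + x ∈ P.A ∧ ((s + x : M) : M ⧸ mulN M N) =
              (x : M ⧸ mulN M N) + (c : M ⧸ mulN M N))
          rw [add_comm s x, QuotientAddGroup.mk_add, add_right_inj]
          tauto
        rw [h4, P.nu_shift (P.inter_mem P.A_mem (P.cos_mem N _))]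
      · intro q _ hq
        rw [Pi.smul_apply, ind_notMem, smul_zero]
        rintro ⟨-, h5⟩
        exact hq h5.symm
      · intro h; exact absurd (Finset.mem_univ _) h
    · have h4 : {s | (x, s) ∈ {z : M × M | z.1 ∈ P.A ∧ z.1 + z.2 ∈ P.A ∧
            z.2 ∈ cos N (c : M ⧸ mulN M N)}} = ∅ := by
        ext s
        simp only [mem_ofPred_eq, mem_empty_iff_false, iff_false]
        tauto
      rw [h4, P.nu_empty]
      symm
      refine Finset.sum_eq_zero fun q _ => ?_
      rw [Pi.smul_apply, ind_notMem (fun h => hx h.1), smul_zero]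
  rw [h2, h3, map_sum] at h1
  rw [h1]
  refine Finset.sum_congr rfl fun q _ => ?_
  rw [map_smul, P.I_ind (P.inter_mem P.A_mem (P.cos_mem N q)), smul_eq_mul]
  rfl

theorem corr_shift (N : ℕ) (c : M) (hc : c ∈ P.Hs) :
    P.I (P.f * ind (cos N (c : M ⧸ mulN M N))) =
      P.I (P.f * ind (cos N ((0 : M) : M ⧸ mulN M N))) := by
  have hV : P.f * ind (cos N (c : M ⧸ mulN M N)) ∈ P.V :=
    P.V_mul P.f_mem_V (P.ind_mem_V (P.cos_mem N _))
  have hV0 : P.f * ind (cos N ((0 : M) : M ⧸ mulN M N)) ∈ P.V :=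
    P.V_mul P.f_mem_V (P.ind_mem_V (P.cos_mem N _))
  obtain ⟨h1, h2⟩ := P.V_shift hV c
  rw [← h2]
  obtain ⟨B, hB⟩ : ∃ B : ℝ, ∀ t, |P.f t| ≤ B := by
    obtain ⟨B, hB⟩ := (P.f_finite.image (fun r => |r|)).bddAbove
    exact ⟨B, fun t => hB ⟨P.f t, ⟨t, rfl⟩, rfl⟩⟩
  -- the difference is supported on a null set
  have hdiff : ∀ x, |(P.f * ind (cos N (c : M ⧸ mulN M N))) (x + c) -
      (P.f * ind (cos N ((0 : M) : M ⧸ mulN M N))) x| ≤ ((2 * B) • ind (P.E c)) x := by
    intro x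
    have hmem : (x + c ∈ cos N (c : M ⧸ mulN M N)) ↔ (x ∈ cos N ((0 : M) : M ⧸ mulN M N)) := by
      change ((x + c : M) : M ⧸ mulN M N) = (c : M ⧸ mulN M N) ↔
        (x : M ⧸ mulN M N) = ((0 : M) : M ⧸ mulN M N)
      rw [QuotientAddGroup.mk_add, QuotientAddGroup.mk_zero, add_eq_right]
    have hB0 : 0 ≤ B := le_trans (abs_nonneg _) (hB 0)
    rw [Pi.mul_apply, Pi.mul_apply, Pi.smul_apply, smul_eq_mul]
    by_cases hx : x ∈ cos N ((0 : M) : M ⧸ mulN M N)
    · rw [ind_mem hx, ind_mem (hmem.2 hx), mul_one, mul_one]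
      by_cases hE : x ∈ P.E c
      · rw [ind_mem hE, mul_one]
        calc |P.f (x + c) - P.f x| ≤ |P.f (x + c)| + |P.f x| := abs_sub _ _
          _ ≤ 2 * B := by have := hB (x + c); have := hB x; linarith
      · rw [ind_notMem hE]
        have : P.f (x + c) = P.f x := not_not.1 hE
        rw [this]; simp
    · rw [ind_notMem hx, ind_notMem (fun h => hx (hmem.1 h))]
      have : 0 ≤ ind (P.E c) x := by
        unfold ind
        exact indicator_nonneg (fun _ _ => zero_le_one) x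
      simp only [mul_zero, sub_zero, abs_zero]
      positivity
  have hnull : P.I ((2 * B) • ind (P.E c)) = 0 := by
    rw [map_smul, P.I_ind (P.E_mem c), P.mem_Hs.1 hc, smul_zero]
  have hVE : (2 * B) • ind (P.E c) ∈ P.V := P.V.smul_mem _ (P.ind_mem_V (P.E_mem c))
  have hd1 := P.I_mono (P.V.sub_mem h1 hV0) hVE (fun x => (abs_le.1 (hdiff x)).2)
  have hd2 := P.I_mono (P.V.neg_mem hVE) (P.V.sub_mem h1 hV0) (fun x => (abs_le.1 (hdiff x)).1)
  rw [map_sub, hnull] at hd1
  rw [map_sub, map_neg, hnull] at hd2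
  linarith

/-- The invariance of the measures of `A` in cosets. -/
theorem al_invariant (N : ℕ) [Fintype (M ⧸ mulN M N)] (c : M) (hc : c ∈ P.Hs)
    (q : M ⧸ mulN M N) : P.al N (q + (c : M ⧸ mulN M N)) = P.al N q := by
  have h1 := P.corr_shift N c hc
  rw [P.corr_identity N c, P.corr_identity N 0] at h1
  simp only [QuotientAddGroup.mk_zero, add_zero] at h1
  have h2 : ∑ q : M ⧸ mulN M N, (P.al N (q + (c : M ⧸ mulN M N)) - P.al N q) ^ 2 = 0 := by
    have h3 : ∑ q : M ⧸ mulN M N, P.al N (q + (c : M ⧸ mulN M N)) ^ 2 =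
        ∑ q : M ⧸ mulN M N, P.al N q ^ 2 :=
      Equiv.sum_comp (Equiv.addRight (c : M ⧸ mulN M N)) (fun q => P.al N q ^ 2)
    have h4 : ∀ q : M ⧸ mulN M N, (P.al N (q + (c : M ⧸ mulN M N)) - P.al N q) ^ 2 =
        P.al N (q + (c : M ⧸ mulN M N)) ^ 2 - 2 * (P.al N (q + (c : M ⧸ mulN M N)) * P.al N q)
          + P.al N q ^ 2 := by
      intro q; ring
    simp only [h4]
    rw [Finset.sum_add_distrib, Finset.sum_sub_distrib, ← Finset.mul_sum, h1, h3]
    have h5 : ∑ q : M ⧸ mulN M N, P.al N q * P.al N q = ∑ q : M ⧸ mulN M N, P.al N q ^ 2 :=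
      Finset.sum_congr rfl fun q _ => (sq _).symm
    rw [h5]
    ring
  have h6 := (Finset.sum_eq_zero_iff_of_nonneg (fun q _ => sq_nonneg _)).1 h2 q (Finset.mem_univ q)
  have h7 := pow_eq_zero_iff (two_ne_zero) |>.1 h6
  linarith

/-- The contradiction. -/
theorem contradiction
    (hfin : ∀ N : ℕ, 1 ≤ N → Finite (M ⧸ mulN M N))
    (havoid : ∀ q : ℕ, q.Prime → ∀ y : M, (q ^ 2) • y ∉ P.A)
    (hmeet : ∀ n : ℕ, ∃ N : ℕ, 1 ≤ N ∧ ∀ b : ℕ → M, ∃ x, ∀ i, i < n →
      x + N • b i ∈ P.A) : False := by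
  have hdim := P.dim_A hmeet
  have hAne : P.A.Nonempty := by
    obtain ⟨N, -, h⟩ := hmeet 1
    obtain ⟨x, hx⟩ := h fun _ => 0
    exact ⟨_, hx 0 (by omega)⟩
  have hApos : 0 < P.nu P.A := by
    unfold nu lead
    rw [if_pos hdim]
    exact P.pos P.A_mem hAne
  -- the index of the stabiliser
  have hfi := P.finite_index
  set k := P.Hs.index with hk
  have hk0 : k ≠ 0 := by
    rw [hk]
    have : P.Hs.FiniteIndex := AddSubgroup.finiteIndex_of_finite_quotient
    exact this.index_ne_zero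
  have hkmem : ∀ x : M, k • x ∈ P.Hs := fun x => AddSubgroup.nsmul_index_mem P.Hs x
  -- a large prime
  obtain ⟨q, hqk, hq⟩ := Nat.exists_infinite_primes (k + 1)
  have hcop : Nat.Coprime k (q ^ 2) := by
    refine Nat.Coprime.pow_right 2 ?_
    rw [Nat.coprime_comm, Nat.Prime.coprime_iff_not_dvd hq]
    intro hdvd
    have := Nat.le_of_dvd (Nat.pos_of_ne_zero hk0) hdvd
    omega
  set N := k * q ^ 2 with hN
  have hN1 : 1 ≤ N := Nat.mul_pos (Nat.pos_of_ne_zero hk0) (pow_pos hq.pos 2)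
  have hfinN := hfin N hN1
  have : Fintype (M ⧸ mulN M N) := Fintype.ofFinite _
  -- all the measures vanish
  have hzero : ∀ p : M ⧸ mulN M N, P.al N p = 0 := by
    intro p
    obtain ⟨x, rfl⟩ := QuotientAddGroup.mk_surjective p
    have hbez : (1 : ℤ) = k * (Nat.gcdA k (q ^ 2)) + (q ^ 2 : ℕ) * (Nat.gcdB k (q ^ 2)) := by
      have := Nat.gcd_eq_gcd_ab k (q ^ 2)
      rw [hcop.gcd_eq_one] at this
      exact_mod_cast this
    set u := Nat.gcdA k (q ^ 2)
    set w := Nat.gcdB k (q ^ 2)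
    -- the translation
    set c : M := k • ((-u) • x) with hc
    have hcH : c ∈ P.Hs := hkmem _
    rw [← P.al_invariant N c hcH (x : M ⧸ mulN M N)]
    have hxc : x + c = (q ^ 2) • (w • x) := by
      have h1 : x = (1 : ℤ) • x := (one_zsmul x).symm
      calc x + c = (1 : ℤ) • x + c := by rw [← h1]
        _ = ((k : ℤ) * u + (q ^ 2 : ℕ) * w) • x + c := by rw [hbez]
        _ = (q ^ 2) • (w • x) := by
          rw [hc, add_smul, mul_smul, mul_smul, ← natCast_zsmul, ← natCast_zsmul (n := q ^ 2),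
            neg_smul, smul_neg]
          abel
    unfold al
    have hempty : P.A ∩ cos N ((x : M ⧸ mulN M N) + (c : M ⧸ mulN M N)) = ∅ := by
      rw [eq_empty_iff_forall_notMem]
      rintro y ⟨hyA, hy⟩
      have h2 : (y : M ⧸ mulN M N) = ((x + c : M) : M ⧸ mulN M N) := by
        rw [QuotientAddGroup.mk_add]; exact hy
      rw [eq_comm, QuotientAddGroup.eq, mem_mulN] at h2
      obtain ⟨z, hz⟩ := h2
      have h3 : y = (q ^ 2) • (w • x + k • z) := by
        have h4 : y = (x + c) + N • z := by rw [hz]; abel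
        rw [h4, hxc, smul_add, hN, smul_smul, mul_comm k]
      exact havoid q hq _ (h3 ▸ hyA)
    rw [hempty, P.nu_empty]
  -- total measure
  have htot : P.nu P.A = ∑ p : M ⧸ mulN M N, P.al N p := by
    classical
    have h1 : ind P.A = ∑ p : M ⧸ mulN M N, ind (P.A ∩ cos N p) := by
      funext x
      rw [Finset.sum_apply]
      by_cases hx : x ∈ P.A
      · rw [ind_mem hx, Finset.sum_eq_single (x : M ⧸ mulN M N)]
        · rw [ind_mem (show x ∈ P.A ∩ cos N (x : M ⧸ mulN M N) from ⟨hx, rfl⟩)]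
        · intro p _ hp
          rw [ind_notMem]
          rintro ⟨-, h⟩
          exact hp h.symm
        · intro h; exact absurd (Finset.mem_univ _) h
      · rw [ind_notMem hx]
        symm
        exact Finset.sum_eq_zero fun p _ => ind_notMem fun h => hx h.1
    rw [← P.I_ind P.A_mem, h1, map_sum]
    refine Finset.sum_congr rfl fun p _ => ?_
    rw [P.I_ind (P.inter_mem P.A_mem (P.cos_mem N p))]
    rfl
  rw [htot, Finset.sum_eq_zero fun p _ => hzero p] at hApos
  exact lt_irrefl _ hApos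

end Pack

end Pool.Agent.Helper89.MS
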