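import Mathlib

/-!
Definitions for the question whether the theory of the integers with a predicate for the
square-free integers is MS-measurable.
-/

open FirstOrder Set

namespace Pool.Agent.Helper89.MSDefs

/-! ### The language and the theory -/

/-- The function symbols: `+` (binary), `-` (unary) and the constant `1`. -/
inductive SqfFunc : ℕ → Type
  | add : SqfFunc 2
  | neg : SqfFunc 1
  | one : SqfFunc 0

/-- The relation symbols: the unary predicates `P_m` for `m ≥ 1` and `U_{p,l}` for `p` a prime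
number and `l` an integer. -/
inductive SqfRel : ℕ → Type
  | P (m : ℕ) (hm : 1 ≤ m) : SqfRel 1
  | U (p : ℕ) (hp : p.Prime) (l : ℤ) : SqfRel 1

/-- The language `{+, -, 1, (P_m), (U_{p,l})}`. -/
def Lsqf : FirstOrder.Language.{0, 0} := ⟨SqfFunc, SqfRel⟩

/-- The `p`-adic valuation of an integer, with value `∞` at `0`. -/
noncomputable def vp (p : ℕ) (a : ℤ) : WithTop ℤ :=
  if a = 0 then ⊤ else (((padicValInt p a : ℕ) : ℤ) : WithTop ℤ)

/-- `P_m = {a : v_p(a) < 2 + v_p(m) for all primes p}`. -/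
def Pset (m : ℕ) : Set ℤ := {a | ∀ p : ℕ, p.Prime → vp p a < 2 + vp p (m : ℤ)}

/-- `U_{p,l} = {a : v_p(a) ≥ l}`. -/
def Uset (p : ℕ) (l : ℤ) : Set ℤ := {a | (l : WithTop ℤ) ≤ vp p a}

/-- The integers as a structure for the language `Lsqf`. -/
noncomputable instance intStructure : Lsqf.Structure ℤ where
  funMap {_} f x :=
    match f with
    | .add => x 0 + x 1
    | .neg => - x 0
    | .one => 1
  RelMap {_} r x :=
    match r with
    | .P m _ => x 0 ∈ Pset m
    | .U p _ l => x 0 ∈ Uset p l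

/-- The complete theory `T_Sqf` of the integers in the language `Lsqf`. -/
def TSqf : Lsqf.Theory := Lsqf.completeTheory ℤ

/-! ### MS-measurable structures -/

universe u v w

/-- `h` is an MS-measure (Macpherson-Steinhorn) on the `L`-structure `M`.  The value `h n X`
only matters for `n ≥ 1` and `X ⊆ M ^ n` definable with parameters. -/
structure IsMSMeasure (L : FirstOrder.Language.{u, v}) (M : Type w) [L.Structure M]
    (h : (n : ℕ) → Set (Fin n → M) → ℕ × ℝ) : Prop where
  /-- The values are in `(ℕ × ℝ_{>0}) ∪ {(0,0)}`. -/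
  values : ∀ (n : ℕ), 1 ≤ n → ∀ X : Set (Fin n → M), (univ : Set M).Definable L X →
    0 < (h n X).2 ∨ h n X = (0, 0)
  /-- Condition 1: for every formula `φ(x, y)` the map `b ↦ h(φ(M, b))` takes finitely many
  values, and each of its level sets is definable without parameters. -/
  uniform : ∀ (n k : ℕ), 1 ≤ n → ∀ φ : L.Formula (Fin n ⊕ Fin k),
    (range fun b : Fin k → M => h n {x | φ.Realize (Sum.elim x b)}).Finite ∧
    ∀ c : ℕ × ℝ, (∅ : Set M).Definable L
      {b : Fin k → M | h n {x | φ.Realize (Sum.elim x b)} = c}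
  /-- Condition 2: if `X` is finite then `h(X) = (0, |X|)`. -/
  finite : ∀ (n : ℕ), 1 ≤ n → ∀ X : Set (Fin n → M), X.Finite → h n X = (0, (X.ncard : ℝ))
  /-- Condition 3 (Fubini): let `f : X → Y` be a definable surjection between (nonempty)
  definable sets.  Then `Y` has a partition into finitely many (nonempty) definable sets `Y_i`
  such that `h(f⁻¹(y)) = (d_i, μ_i)` for all `y` in `Y_i`, and, if `h(Y_i) = (e_i, ν_i)` and
  `c` is the maximum of the `d_i + e_i`, then `h(X) = (c, ∑_{d_i + e_i = c} μ_i ν_i)`. -/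
  fubini : ∀ (n m : ℕ), 1 ≤ n → 1 ≤ m →
    ∀ (X : Set (Fin n → M)) (Y : Set (Fin m → M)) (f : (Fin n → M) → (Fin m → M)),
      (univ : Set M).Definable L X → (univ : Set M).Definable L Y →
      (univ : Set M).Definable L
        {z : Fin n ⊕ Fin m → M | z ∘ Sum.inl ∈ X ∧ f (z ∘ Sum.inl) = z ∘ Sum.inr} →
      f '' X = Y → Y.Nonempty →
      ∃ (r : ℕ) (Yi : Fin r → Set (Fin m → M)) (a : Fin r → ℕ × ℝ),
        (∀ i, (univ : Set M).Definable L (Yi i)) ∧ (∀ i, (Yi i).Nonempty) ∧
        (∀ i j, i ≠ j → Disjoint (Yi i) (Yi j)) ∧ (⋃ i, Yi i) = Y ∧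
        (∀ i, ∀ y ∈ Yi i, h n {x | x ∈ X ∧ f x = y} = a i) ∧
        ∀ c, IsGreatest (range fun i => (a i).1 + (h m (Yi i)).1) c →
          h n X = (c, ∑ i, if (a i).1 + (h m (Yi i)).1 = c then (a i).2 * (h m (Yi i)).2 else 0)

end Pool.Agent.Helper89.MSDefs
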