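import Pool.Agent.Helper89.MSDefs
import Pool.Agent.Helper89.MSCore

/-!
General consequences of the axioms of an MS-measure: additivity, positivity and invariance under
definable bijections.
-/

open FirstOrder Set Function

namespace Pool.Agent.Helper89.MSLogic

open Pool.Agent.Helper89.MSDefs Pool.Agent.Helper89.MS

universe u v w

variable {L : FirstOrder.Language.{u, v}} {M : Type w} [L.Structure M]
  {h : (n : ℕ) → Set (Fin n → M) → ℕ × ℝ}

theorem h_empty (hh : IsMSMeasure L M h) {n : ℕ} (hn : 1 ≤ n) : h n ∅ = (0, 0) := by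
  rw [hh.finite n hn ∅ Set.finite_empty]; simp

theorem h_singleton (hh : IsMSMeasure L M h) {n : ℕ} (hn : 1 ≤ n) (x : Fin n → M) :
    h n {x} = (0, 1) := by
  rw [hh.finite n hn {x} (Set.finite_singleton x)]; simp

theorem definable_point (a : M) : (univ : Set M).Definable L {x : Fin 1 → M | x = fun _ => a} := by
  have h1 := Definable.singleton_of_mem L (mem_univ a)
  have h2 : {x : Fin 1 → M | x = fun _ => a} = {x : Fin 1 → M | x 0 ∈ ({a} : Set M)} := by
    ext x
    simp only [mem_ofPred_eq, mem_singleton_iff]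
    constructor
    · intro hx; rw [hx]
    · intro hx
      funext i
      rw [Fin.fin_one_eq_zero i]; exact hx
  rw [h2]
  exact h1

/-- The formula for the measure of a disjoint union of two nonempty sets. -/
theorem two_part (hh : IsMSMeasure L M h) {a b : M} (hab : a ≠ b) {n : ℕ} (hn : 1 ≤ n)
    {X Y : Set (Fin n → M)} (hX : (univ : Set M).Definable L X)
    (hY : (univ : Set M).Definable L Y) (hd : Disjoint X Y) (hXne : X.Nonempty)
    (hYne : Y.Nonempty) :
    h n (X ∪ Y) = (max (h n X).1 (h n Y).1,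
      (if (h n X).1 = max (h n X).1 (h n Y).1 then (h n X).2 else 0) +
      (if (h n Y).1 = max (h n X).1 (h n Y).1 then (h n Y).2 else 0)) := by
  classical
  let pa : Fin 1 → M := fun _ => a
  let pb : Fin 1 → M := fun _ => b
  have hpab : pa ≠ pb := fun h => hab (congrFun h 0)
  let f : (Fin n → M) → (Fin 1 → M) := fun z => if z ∈ X then pa else pb
  have hfX : ∀ z ∈ X, f z = pa := fun z hz => if_pos hz
  have hfY : ∀ z ∈ Y, f z = pb := fun z hz => if_neg (fun hz' => (disjoint_left.1 hd) hz' hz)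
  have hgraph : (univ : Set M).Definable L
      {z : Fin n ⊕ Fin 1 → M | z ∘ Sum.inl ∈ X ∪ Y ∧ f (z ∘ Sum.inl) = z ∘ Sum.inr} := by
    have h1 : {z : Fin n ⊕ Fin 1 → M | z ∘ Sum.inl ∈ X ∪ Y ∧ f (z ∘ Sum.inl) = z ∘ Sum.inr} =
        (((fun z : Fin n ⊕ Fin 1 → M => z ∘ Sum.inl) ⁻¹' X) ∩
          ((fun z : Fin n ⊕ Fin 1 → M => z ∘ Sum.inr) ⁻¹' {x | x = pa})) ∪
        (((fun z : Fin n ⊕ Fin 1 → M => z ∘ Sum.inl) ⁻¹' Y) ∩
          ((fun z : Fin n ⊕ Fin 1 → M => z ∘ Sum.inr) ⁻¹' {x | x = pb})) := by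
      ext z
      simp only [mem_ofPred_eq, mem_union, mem_inter_iff, mem_preimage]
      constructor
      · rintro ⟨hz | hz, hf⟩
        · left; exact ⟨hz, by rw [← hf, hfX _ hz]⟩
        · right; exact ⟨hz, by rw [← hf, hfY _ hz]⟩
      · rintro (⟨hz, hf⟩ | ⟨hz, hf⟩)
        · exact ⟨Or.inl hz, by rw [hf, hfX _ hz]⟩
        · exact ⟨Or.inr hz, by rw [hf, hfY _ hz]⟩
    rw [h1]
    exact ((hX.preimage_comp Sum.inl).inter ((definable_point a).preimage_comp Sum.inr)).union
      ((hY.preimage_comp Sum.inl).inter ((definable_point b).preimage_comp Sum.inr))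
  have hT : (univ : Set M).Definable L ({pa, pb} : Set (Fin 1 → M)) := by
    have h1 : ({pa, pb} : Set (Fin 1 → M)) = {x | x = pa} ∪ {x | x = pb} := by
      ext x
      simp only [mem_insert_iff, mem_singleton_iff, mem_union, mem_ofPred_eq]
    rw [h1]
    exact (definable_point a).union (definable_point b)
  have himg : f '' (X ∪ Y) = {pa, pb} := by
    ext y
    constructor
    · rintro ⟨z, hz | hz, rfl⟩
      · rw [hfX z hz]; simp
      · rw [hfY z hz]; simp
    · rintro (rfl | rfl)
      · obtain ⟨z, hz⟩ := hXne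
        exact ⟨z, Or.inl hz, hfX z hz⟩
      · obtain ⟨z, hz⟩ := hYne
        exact ⟨z, Or.inr hz, hfY z hz⟩
  obtain ⟨r, Yi, av, hYD, hYine, hYdisj, hYU, hav, hfinal⟩ := hh.fubini n 1 hn le_rfl (X ∪ Y)
    {pa, pb} f (hX.union hY) hT hgraph himg ⟨pa, by simp⟩
  obtain ⟨ia, hia⟩ : ∃ i, pa ∈ Yi i := by
    have : pa ∈ ⋃ i, Yi i := by rw [hYU]; simp
    exact mem_iUnion.1 this
  obtain ⟨ib, hib⟩ : ∃ i, pb ∈ Yi i := by
    have : pb ∈ ⋃ i, Yi i := by rw [hYU]; simp
    exact mem_iUnion.1 this
  have hava : av ia = h n X := by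
    rw [← hav ia pa hia]
    congr 1
    ext x
    simp only [mem_ofPred_eq, mem_union]
    constructor
    · rintro ⟨hx | hx, hf⟩
      · exact hx
      · rw [hfY x hx] at hf; exact absurd hf.symm hpab
    · intro hx; exact ⟨Or.inl hx, hfX x hx⟩
  have havb : av ib = h n Y := by
    rw [← hav ib pb hib]
    congr 1
    ext x
    simp only [mem_ofPred_eq, mem_union]
    constructor
    · rintro ⟨hx | hx, hf⟩
      · rw [hfX x hx] at hf; exact absurd hf hpab
      · exact hx
    · intro hx; exact ⟨Or.inr hx, hfY x hx⟩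
  have hsub : ∀ i, Yi i ⊆ {pa, pb} := by
    intro i
    rw [← hYU]; exact subset_iUnion _ i
  have huniq : ∀ i j y, y ∈ Yi i → y ∈ Yi j → i = j := by
    intro i j y hi hj
    by_contra hne
    exact disjoint_left.1 (hYdisj i j hne) hi hj
  have hcases : ∀ i, i = ia ∨ i = ib := by
    intro i
    obtain ⟨y, hy⟩ := hYine i
    rcases hsub i hy with rfl | hyb
    · exact Or.inl (huniq i ia _ hy hia)
    · rw [mem_singleton_iff] at hyb
      subst hyb
      exact Or.inr (huniq i ib _ hy hib)
  by_cases hiab : ia = ib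
  · -- one part
    subst hiab
    have hYia : Yi ia = {pa, pb} := by
      apply Subset.antisymm (hsub ia)
      rintro y (rfl | hy)
      · exact hia
      · rw [mem_singleton_iff] at hy; subst hy; exact hib
    have hhY : h 1 (Yi ia) = (0, 2) := by
      rw [hYia, hh.finite 1 le_rfl _ (by simp), Set.ncard_pair hpab]
      norm_num
    have hXY : h n X = h n Y := hava.symm.trans havb
    have huniv : (Finset.univ : Finset (Fin r)) = {ia} := by
      ext i
      simp only [Finset.mem_univ, Finset.mem_singleton, true_iff]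
      rcases hcases i with h1 | h1 <;> exact h1
    have hgr : IsGreatest (range fun i => (av i).1 + (h 1 (Yi i)).1) (h n X).1 := by
      constructor
      · exact ⟨ia, by simp only; rw [hava, hhY]; simp⟩
      · rintro _ ⟨i, rfl⟩
        have : i = ia := by rcases hcases i with h1 | h1 <;> exact h1
        subst this
        simp only
        rw [hava, hhY]; simp
    rw [hfinal _ hgr, huniv, Finset.sum_singleton, hava, hhY, ← hXY]
    simp only [max_self, if_true, add_zero]
    refine Prod.ext rfl ?_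
    simp only
    ring
  · -- two parts
    have hYia : Yi ia = {pa} := by
      ext y
      constructor
      · intro hy
        rcases hsub ia hy with h1 | h1
        · exact h1
        · rw [mem_singleton_iff] at h1
          subst h1
          exact absurd (huniq ia ib _ hy hib) hiab
      · rintro rfl; exact hia
    have hYib : Yi ib = {pb} := by
      ext y
      constructor
      · intro hy
        rcases hsub ib hy with h1 | h1
        · subst h1
          exact absurd (huniq ib ia _ hy hia) (Ne.symm hiab)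
        · exact h1
      · rintro rfl; exact hib
    have hha : h 1 (Yi ia) = (0, 1) := by rw [hYia]; exact h_singleton hh le_rfl pa
    have hhb : h 1 (Yi ib) = (0, 1) := by rw [hYib]; exact h_singleton hh le_rfl pb
    have huniv : (Finset.univ : Finset (Fin r)) = {ia, ib} := by
      ext i
      simp only [Finset.mem_univ, Finset.mem_insert, Finset.mem_singleton, true_iff]
      exact hcases i
    have hgr : IsGreatest (range fun i => (av i).1 + (h 1 (Yi i)).1)
        (max (h n X).1 (h n Y).1) := by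
      constructor
      · rcases le_total (h n X).1 (h n Y).1 with hle | hle
        · exact ⟨ib, by simp only; rw [havb, hhb, max_eq_right hle]; simp⟩
        · exact ⟨ia, by simp only; rw [hava, hha, max_eq_left hle]; simp⟩
      · rintro _ ⟨i, rfl⟩
        simp only
        rcases hcases i with h1 | h1
        · rw [h1, hava, hha]; simp
        · rw [h1, havb, hhb]; simp
    rw [hfinal _ hgr, huniv, Finset.sum_pair hiab, hava, hha, havb, hhb]
    simp

/-- Positivity. -/
theorem h_pos (hh : IsMSMeasure L M h) {a b : M} (hab : a ≠ b) {n : ℕ} (hn : 1 ≤ n)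
    {X : Set (Fin n → M)} (hX : (univ : Set M).Definable L X) (hXne : X.Nonempty) :
    0 < (h n X).2 := by
  obtain ⟨x, hx⟩ := hXne
  rcases (X \ {x}).eq_empty_or_nonempty with he | hne
  · have h1 : X = {x} := by
      apply Subset.antisymm
      · rwa [sdiff_eq_empty] at he
      · rintro _ rfl; exact hx
    rw [h1, h_singleton hh hn x]
    norm_num
  · have hxD : (univ : Set M).Definable L ({x} : Set (Fin n → M)) := by
      have h1 : ({x} : Set (Fin n → M)) = ⋂ i : Fin n, {z : Fin n → M | z i = x i} := by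
        ext z
        simp only [mem_singleton_iff, mem_iInter, mem_ofPred_eq]
        exact funext_iff
      rw [h1]
      refine definable_iInter_of_finite fun i => ?_
      exact DefinableFun.ofPred_eq_const (DefinableFun.proj L) (mem_univ _)
    have hD : (univ : Set M).Definable L (X \ {x}) := hX.sdiff hxD
    have h1 := two_part hh hab hn hxD hD disjoint_sdiff_right (singleton_nonempty x) hne
    have h2 : {x} ∪ (X \ {x}) = X := by
      rw [union_sdiff_self]
      exact union_eq_right.2 (singleton_subset_iff.2 hx)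
    rw [h2, h_singleton hh hn x] at h1
    rw [h1]
    simp only
    have hv := hh.values n hn _ hD
    rcases hv with hv | hv
    · rcases Nat.eq_zero_or_pos (h n (X \ {x})).1 with h0 | h0
      · rw [h0]; simp only [max_self, if_true]; linarith
      · have hm : max 0 (h n (X \ {x})).1 = (h n (X \ {x})).1 := max_eq_right (Nat.zero_le _)
        rw [hm, if_neg (by omega), if_pos rfl, zero_add]
        exact hv
    · rw [hv]; simp

theorem add_dim (hh : IsMSMeasure L M h) {a b : M} (hab : a ≠ b) {n : ℕ} (hn : 1 ≤ n)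
    {X Y : Set (Fin n → M)} (hX : (univ : Set M).Definable L X)
    (hY : (univ : Set M).Definable L Y) (hd : Disjoint X Y) :
    (h n (X ∪ Y)).1 = max (h n X).1 (h n Y).1 := by
  rcases X.eq_empty_or_nonempty with rfl | hXne
  · rw [empty_union, h_empty hh hn]; simp
  rcases Y.eq_empty_or_nonempty with rfl | hYne
  · rw [union_empty, h_empty hh hn]; simp
  rw [two_part hh hab hn hX hY hd hXne hYne]

theorem lead_zero (e : ℕ) : lead e ((0 : ℕ), (0 : ℝ)) = 0 := by
  unfold lead; simp

theorem add_lead (hh : IsMSMeasure L M h) {a b : M} (hab : a ≠ b) {n : ℕ} (hn : 1 ≤ n)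
    {X Y : Set (Fin n → M)} (hX : (univ : Set M).Definable L X)
    (hY : (univ : Set M).Definable L Y) (hd : Disjoint X Y) (e : ℕ) (hXe : (h n X).1 ≤ e)
    (hYe : (h n Y).1 ≤ e) : lead e (h n (X ∪ Y)) = lead e (h n X) + lead e (h n Y) := by
  rcases X.eq_empty_or_nonempty with rfl | hXne
  · rw [empty_union, h_empty hh hn, lead_zero, zero_add]
  rcases Y.eq_empty_or_nonempty with rfl | hYne
  · rw [union_empty, h_empty hh hn, lead_zero, add_zero]
  rw [two_part hh hab hn hX hY hd hXne hYne]
  unfold lead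
  simp only
  by_cases h1 : max (h n X).1 (h n Y).1 = e
  · rw [if_pos h1, h1]
  · have h2 : (h n X).1 ≠ e := by
      intro h3
      exact h1 (le_antisymm (max_le hXe hYe) (h3 ▸ le_max_left _ _))
    have h3 : (h n Y).1 ≠ e := by
      intro h3
      exact h1 (le_antisymm (max_le hXe hYe) (h3 ▸ le_max_right _ _))
    rw [if_neg h1, if_neg h2, if_neg h3, add_zero]

theorem dim_mono (hh : IsMSMeasure L M h) {a b : M} (hab : a ≠ b) {n : ℕ} (hn : 1 ≤ n)
    {X Y : Set (Fin n → M)} (hX : (univ : Set M).Definable L X)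
    (hY : (univ : Set M).Definable L Y) (hXY : X ⊆ Y) : (h n X).1 ≤ (h n Y).1 := by
  have h1 := add_dim hh hab hn hX (hY.sdiff hX) disjoint_sdiff_right
  rw [union_sdiff_cancel hXY] at h1
  rw [h1]
  exact le_max_left _ _

theorem definable_biUnion {n : ℕ} {ι : Type*} (s : Finset ι) (Y : ι → Set (Fin n → M))
    (hY : ∀ i, (univ : Set M).Definable L (Y i)) :
    (univ : Set M).Definable L (⋃ i ∈ s, Y i) := definable_biUnion_finset hY s

theorem sum_lead (hh : IsMSMeasure L M h) {a b : M} (hab : a ≠ b) {n : ℕ} (hn : 1 ≤ n)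
    {ι : Type} [DecidableEq ι] (Y : ι → Set (Fin n → M))
    (hY : ∀ i, (univ : Set M).Definable L (Y i)) (hdisj : ∀ i j, i ≠ j → Disjoint (Y i) (Y j))
    (e : ℕ) (s : Finset ι) (hs : ∀ i ∈ s, (h n (Y i)).1 ≤ e) :
    (h n (⋃ i ∈ s, Y i)).1 ≤ e ∧
      lead e (h n (⋃ i ∈ s, Y i)) = ∑ i ∈ s, lead e (h n (Y i)) := by
  induction s using Finset.induction_on with
  | empty =>
    simp only [Finset.notMem_empty, iUnion_of_empty, iUnion_empty, Finset.sum_empty]
    rw [h_empty hh hn, lead_zero]
    exact ⟨Nat.zero_le _, rfl⟩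
  | insert i s hi ih =>
    obtain ⟨ih1, ih2⟩ := ih fun j hj => hs j (Finset.mem_insert_of_mem hj)
    have hd : Disjoint (Y i) (⋃ j ∈ s, Y j) := by
      rw [disjoint_iUnion₂_right]
      intro j hj
      refine hdisj i j ?_
      rintro rfl
      exact hi hj
    have hD := definable_biUnion (L := L) s Y hY
    rw [Finset.set_biUnion_insert, Finset.sum_insert hi]
    refine ⟨?_, ?_⟩
    · rw [add_dim hh hab hn (hY i) hD hd]
      exact max_le (hs i (Finset.mem_insert_self i s)) ih1
    · rw [add_lead hh hab hn (hY i) hD hd e (hs i (Finset.mem_insert_self i s)) ih1, ih2]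

/-- The measure of a finite partition. -/
theorem h_iUnion (hh : IsMSMeasure L M h) {a b : M} (hab : a ≠ b) {n : ℕ} (hn : 1 ≤ n)
    {r : ℕ} (Y : Fin r → Set (Fin n → M))
    (hY : ∀ i, (univ : Set M).Definable L (Y i)) (_ : ∀ i, (Y i).Nonempty)
    (hdisj : ∀ i j, i ≠ j → Disjoint (Y i) (Y j)) (c : ℕ)
    (hc : IsGreatest (range fun i => (h n (Y i)).1) c) :
    h n (⋃ i, Y i) = (c, ∑ i, if (h n (Y i)).1 = c then (h n (Y i)).2 else 0) := by
  obtain ⟨h1, h2⟩ := sum_lead hh hab hn Y hY hdisj c Finset.univ (fun i _ => hc.2 ⟨i, rfl⟩)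
  have h3 : (⋃ i ∈ (Finset.univ : Finset (Fin r)), Y i) = ⋃ i, Y i := by simp
  rw [h3] at h1 h2
  obtain ⟨⟨i₀, hi₀⟩, -⟩ := hc
  have h4 : c ≤ (h n (⋃ i, Y i)).1 := by
    rw [← hi₀]
    refine dim_mono hh hab hn (hY i₀) ?_ (subset_iUnion Y i₀)
    rw [← h3]
    exact definable_biUnion Finset.univ Y hY
  have h5 : (h n (⋃ i, Y i)).1 = c := le_antisymm h1 h4
  refine Prod.ext h5 ?_
  change (h n (⋃ i, Y i)).2 = ∑ i, lead c (h n (Y i))
  rw [← h2]
  unfold lead
  rw [if_pos h5]

/-- Invariance under definable bijections. -/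
theorem h_bij (hh : IsMSMeasure L M h) {a b : M} (hab : a ≠ b) {n m : ℕ} (hn : 1 ≤ n)
    (hm : 1 ≤ m) {X : Set (Fin n → M)} {Y : Set (Fin m → M)} (g : (Fin n → M) → (Fin m → M))
    (hX : (univ : Set M).Definable L X) (hY : (univ : Set M).Definable L Y)
    (hg : (univ : Set M).Definable L
      {z : Fin n ⊕ Fin m → M | z ∘ Sum.inl ∈ X ∧ g (z ∘ Sum.inl) = z ∘ Sum.inr})
    (hinj : InjOn g X) (himg : g '' X = Y) : h n X = h m Y := by
  rcases Y.eq_empty_or_nonempty with hYe | hYne
  · have hXe : X = ∅ := by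
      rw [hYe] at himg
      exact image_eq_empty.1 himg
    rw [hYe, hXe, h_empty hh hn, h_empty hh hm]
  obtain ⟨r, Yi, av, hYD, hYine, hYdisj, hYU, hav, hfinal⟩ :=
    hh.fubini n m hn hm X Y g hX hY hg himg hYne
  have hav1 : ∀ i, av i = (0, 1) := by
    intro i
    obtain ⟨y, hy⟩ := hYine i
    rw [← hav i y hy]
    have hyY : y ∈ Y := by rw [← hYU]; exact mem_iUnion.2 ⟨i, hy⟩
    rw [← himg] at hyY
    obtain ⟨x, hx, hxy⟩ := hyY
    have : {x' | x' ∈ X ∧ g x' = y} = {x} := by
      ext x'
      simp only [mem_ofPred_eq, mem_singleton_iff]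
      constructor
      · rintro ⟨hx', hg'⟩
        exact hinj hx' hx (hg'.trans hxy.symm)
      · rintro rfl
        exact ⟨hx, hxy⟩
    rw [this]
    exact h_singleton hh hn x
  obtain ⟨y₀, hy₀⟩ := hYne
  rw [← hYU] at hy₀
  obtain ⟨i₀, -⟩ := mem_iUnion.1 hy₀
  obtain ⟨i₁, -, hi₁⟩ := Finset.exists_max_image Finset.univ
      (fun i => (h m (Yi i)).1) ⟨i₀, Finset.mem_univ i₀⟩
  have hc1 : IsGreatest (range fun i => (h m (Yi i)).1) (h m (Yi i₁)).1 :=
    ⟨⟨i₁, rfl⟩, by rintro _ ⟨i, rfl⟩; exact hi₁ i (Finset.mem_univ i)⟩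
  have hc2 : IsGreatest (range fun i => (av i).1 + (h m (Yi i)).1) (h m (Yi i₁)).1 := by
    have : (fun i => (av i).1 + (h m (Yi i)).1) = fun i => (h m (Yi i)).1 := by
      funext i
      rw [hav1 i]; simp
    rw [this]; exact hc1
  have e1 := hfinal _ hc2
  have e2 := h_iUnion hh hab hm Yi hYD hYine hYdisj _ hc1
  rw [hYU] at e2
  rw [e1, e2]
  refine Prod.ext rfl ?_
  simp only
  refine Finset.sum_congr rfl fun i _ => ?_
  rw [hav1 i]
  simp

end Pool.Agent.Helper89.MSLogic
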