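import Pool.Agent.Helper89.MSDefs

/-!
First-order facts about the models of `T_Sqf`: every model is an abelian group, and a few
sentences true in the integers are transferred.
-/

open FirstOrder Set Function

namespace Pool.Agent.Helper89.MSModel

open Pool.Agent.Helper89.MSDefs FirstOrder.Language

universe w

/-! ### Operations -/

/-- The symbol `+`. -/
def addSym : Lsqf.Functions 2 := SqfFunc.add

/-- The symbol `-`. -/
def negSym : Lsqf.Functions 1 := SqfFunc.neg

/-- The symbol `1`. -/
def oneSym : Lsqf.Functions 0 := SqfFunc.one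

/-- The symbol `P_1`. -/
def pSym : Lsqf.Relations 1 := SqfRel.P 1 le_rfl

section ops

variable {N : Type w} [Lsqf.Structure N]

/-- Addition of an `Lsqf`-structure. -/
def sadd (a b : N) : N := Structure.funMap addSym ![a, b]

/-- Negation of an `Lsqf`-structure. -/
def sneg (a : N) : N := Structure.funMap negSym ![a]

/-- The constant `1` of an `Lsqf`-structure. -/
def sone (N : Type w) [Lsqf.Structure N] : N :=
  Structure.funMap oneSym ![]

/-- The element `1 + (-1)`. -/
def szero (N : Type w) [Lsqf.Structure N] : N := sadd (sone N) (sneg (sone N))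

/-- Multiples. -/
def smul : ℕ → N → N
  | 0, _ => szero N
  | n + 1, a => sadd (smul n a) a

/-- The predicate `P_1`. -/
def sP (a : N) : Prop :=
  Structure.RelMap pSym ![a]

variable {α : Type}

/-- The term `s + t`. -/
def tadd (s t : Lsqf.Term α) : Lsqf.Term α := Functions.apply₂ addSym s t

/-- The term `-t`. -/
def tneg (t : Lsqf.Term α) : Lsqf.Term α := Functions.apply₁ negSym t

/-- The term `1`. -/
def tone : Lsqf.Term α := Constants.term oneSym

/-- The term `1 + (-1)`. -/
def tzero : Lsqf.Term α := tadd tone (tneg tone)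

/-- Multiples of a term. -/
def tmul : ℕ → Lsqf.Term α → Lsqf.Term α
  | 0, _ => tzero
  | n + 1, t => tadd (tmul n t) t

/-- The formula `P_1(t)`. -/
def fP (t : Lsqf.Term α) : Lsqf.Formula α :=
  Relations.formula₁ pSym t

theorem realize_tadd (s t : Lsqf.Term α) (v : α → N) :
    (tadd s t).realize v = sadd (s.realize v) (t.realize v) := by
  unfold tadd sadd
  rw [Term.realize_functions_apply₂]

theorem realize_tneg (t : Lsqf.Term α) (v : α → N) :
    (tneg t).realize v = sneg (t.realize v) := by
  unfold tneg sneg
  rw [Term.realize_functions_apply₁]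

theorem realize_tone (v : α → N) : (tone : Lsqf.Term α).realize v = sone N := by
  unfold tone sone
  rw [Term.realize_constants]
  unfold constantMap
  congr

theorem realize_tzero (v : α → N) : (tzero : Lsqf.Term α).realize v = szero N := by
  unfold tzero szero
  rw [realize_tadd, realize_tneg, realize_tone]

theorem realize_tmul (n : ℕ) (t : Lsqf.Term α) (v : α → N) :
    (tmul n t).realize v = smul n (t.realize v) := by
  induction n with
  | zero => exact realize_tzero v
  | succ n ih =>
    change (tadd (tmul n t) t).realize v = sadd (smul n (t.realize v)) (t.realize v)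
    rw [realize_tadd, ih]

theorem realize_fP (t : Lsqf.Term α) (v : α → N) :
    (fP t).Realize v ↔ sP (t.realize v) := by
  unfold fP sP
  rw [Formula.realize_rel₁]

end ops

/-! ### The integers -/

theorem sadd_int (a b : ℤ) : sadd a b = a + b := rfl

theorem sneg_int (a : ℤ) : sneg a = -a := rfl

theorem sone_int : sone ℤ = 1 := rfl

theorem szero_int : szero ℤ = 0 := by
  unfold szero
  rw [sadd_int, sneg_int, sone_int]; simp

theorem smul_int (n : ℕ) (a : ℤ) : smul n a = n * a := by
  induction n with
  | zero => change szero ℤ = _; rw [szero_int]; simp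
  | succ n ih =>
    change sadd (smul n a) a = _
    rw [sadd_int, ih]; push_cast; ring

theorem sP_int (a : ℤ) : sP a ↔ a ≠ 0 ∧ ∀ p : ℕ, p.Prime → ¬ ((p : ℤ) ^ 2 ∣ a) := by
  change a ∈ Pset 1 ↔ _
  unfold Pset
  simp only [mem_ofPred_eq]
  have hvp1 : ∀ p : ℕ, vp p ((1 : ℕ) : ℤ) = 0 := by
    intro p
    unfold vp
    simp
  simp only [hvp1, add_zero]
  by_cases ha : a = 0
  · subst ha
    constructor
    · intro h1
      have := h1 2 Nat.prime_two
      unfold vp at this
      rw [if_pos rfl] at this
      exact absurd this (not_lt.2 le_top)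
    · rintro ⟨h1, -⟩
      exact absurd rfl h1
  · constructor
    · intro h1
      refine ⟨ha, fun p hp hdvd => ?_⟩
      have h2 := h1 p hp
      unfold vp at h2
      rw [if_neg ha] at h2
      have h3 : ((padicValInt p a : ℕ) : ℤ) < 2 := WithTop.coe_lt_coe.1 h2
      have : Fact p.Prime := ⟨hp⟩
      rw [padicValInt_dvd_iff] at hdvd
      rcases hdvd with h4 | h4
      · exact ha h4
      · omega
    · rintro ⟨-, h1⟩ p hp
      have h2 := h1 p hp
      unfold vp
      rw [if_neg ha]
      have : Fact p.Prime := ⟨hp⟩
      rw [padicValInt_dvd_iff] at h2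
      push Not at h2
      have h3 : ((padicValInt p a : ℕ) : ℤ) < 2 := by omega
      exact WithTop.coe_lt_coe.2 h3

/-! ### Transfer -/

section transfer

variable {M : Type w} [Lsqf.Structure M] [M ⊨ TSqf]

theorem transfer {β : Type} [Finite β] (φ : Lsqf.Formula β) (hφ : ∀ v : β → ℤ, φ.Realize v)
    (v : β → M) : φ.Realize v := by
  let σ : Lsqf.Sentence := Formula.iAlls β (φ.relabel (Sum.inr : β → Empty ⊕ β))
  have key : ∀ (N : Type w) [Lsqf.Structure N], N ⊨ σ ↔ ∀ v : β → N, φ.Realize v := by
    intro N _
    change (Formula.iAlls β (φ.relabel (Sum.inr : β → Empty ⊕ β))).Realize _ ↔ _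
    rw [Formula.realize_iAlls]
    refine forall_congr' fun v => ?_
    rw [Formula.realize_relabel]
    rfl
  have key0 : ℤ ⊨ σ ↔ ∀ v : β → ℤ, φ.Realize v := by
    change (Formula.iAlls β (φ.relabel (Sum.inr : β → Empty ⊕ β))).Realize _ ↔ _
    rw [Formula.realize_iAlls]
    refine forall_congr' fun v => ?_
    rw [Formula.realize_relabel]
    rfl
  have h1 : M ⊨ Lsqf.completeTheory ℤ := inferInstanceAs (M ⊨ TSqf)
  have h2 := (realize_iff_of_model_completeTheory ℤ M σ).2 (key0.2 hφ)
  exact (key M).1 h2 v

theorem sadd_assoc (a b c : M) : sadd (sadd a b) c = sadd a (sadd b c) := by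
  have h1 := transfer (M := M) (β := Fin 3)
    (Term.equal (tadd (tadd (Term.var 0) (Term.var 1)) (Term.var 2))
      (tadd (Term.var 0) (tadd (Term.var 1) (Term.var 2)))) (by
      intro v
      rw [Formula.realize_equal]
      simp only [realize_tadd, sadd_int]
      ring) ![a, b, c]
  rw [Formula.realize_equal] at h1
  simpa [realize_tadd] using h1

theorem sadd_comm (a b : M) : sadd a b = sadd b a := by
  have h1 := transfer (M := M) (β := Fin 2)
    (Term.equal (tadd (Term.var 0) (Term.var 1)) (tadd (Term.var 1) (Term.var 0))) (by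
      intro v
      rw [Formula.realize_equal]
      simp only [realize_tadd, sadd_int]
      ring) ![a, b]
  rw [Formula.realize_equal] at h1
  simpa [realize_tadd] using h1

theorem sadd_zero (a : M) : sadd a (szero M) = a := by
  have h1 := transfer (M := M) (β := Fin 1)
    (Term.equal (tadd (Term.var 0) tzero) (Term.var 0)) (by
      intro v
      rw [Formula.realize_equal]
      simp only [realize_tadd, sadd_int, realize_tzero, szero_int]
      ring) ![a]
  rw [Formula.realize_equal] at h1
  simpa [realize_tadd, realize_tzero] using h1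

theorem sadd_neg (a : M) : sadd (sneg a) a = szero M := by
  have h1 := transfer (M := M) (β := Fin 1)
    (Term.equal (tadd (tneg (Term.var 0)) (Term.var 0)) tzero) (by
      intro v
      rw [Formula.realize_equal]
      simp only [realize_tadd, realize_tneg, sneg_int, sadd_int, realize_tzero, szero_int]
      ring) ![a]
  rw [Formula.realize_equal] at h1
  simpa [realize_tadd, realize_tzero, realize_tneg] using h1

/-- The group structure of a model. -/
@[reducible] def grp (M : Type w) [Lsqf.Structure M] [M ⊨ TSqf] : AddCommGroup M :=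
  letI : Zero M := ⟨szero M⟩
  letI : Add M := ⟨sadd⟩
  letI : Neg M := ⟨sneg⟩
  { add_assoc := sadd_assoc
    add_comm := sadd_comm
    zero_add := fun a => by
      change sadd (szero M) a = a
      rw [sadd_comm]; exact sadd_zero a
    add_zero := sadd_zero
    neg_add_cancel := sadd_neg
    nsmul := nsmulRec
    zsmul := zsmulRec }

theorem grp_nsmul (n : ℕ) (a : M) : (letI := grp M; n • a) = smul n a := by
  letI := grp M
  change n • a = smul n a
  induction n with
  | zero => rfl
  | succ n ih =>
    change sadd _ a = sadd (smul n a) a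
    rw [← ih]
    rfl

/-- Division with remainder. -/
theorem exists_div (N : ℕ) (hN : 1 ≤ N) (a : M) :
    ∃ (i : Fin N) (y : M), a = sadd (smul N y) (smul i (sone M)) := by
  have h1 := transfer (M := M) (β := Fin 1)
    (Formula.iExs (Fin 1) (Formula.iSup (fun i : Fin N =>
      (Term.equal (Term.var (Sum.inl 0)) (tadd (tmul N (Term.var (Sum.inr 0))) (tmul i tone)) :
        Lsqf.Formula (Fin 1 ⊕ Fin 1))))) (by
      intro v
      rw [Formula.realize_iExs]
      refine ⟨fun _ => v 0 / N, ?_⟩
      rw [Formula.realize_iSup]
      have hNpos : (0 : ℤ) < N := by exact_mod_cast hN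
      have hmod1 := Int.emod_nonneg (v 0) hNpos.ne'
      have hmod2 := Int.emod_lt_of_pos (v 0) hNpos
      refine ⟨⟨(v 0 % N).toNat, by omega⟩, ?_⟩
      rw [Formula.realize_equal]
      simp only [realize_tadd, realize_tmul, realize_tone, sadd_int, smul_int, sone_int,
        Term.realize_var, Sum.elim_inl, Sum.elim_inr, mul_one]
      rw [Int.toNat_of_nonneg hmod1]
      exact (Int.mul_ediv_add_emod (v 0) N).symm) ![a]
  rw [Formula.realize_iExs] at h1
  obtain ⟨y, hy⟩ := h1
  rw [Formula.realize_iSup] at hy
  obtain ⟨i, hi⟩ := hy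
  rw [Formula.realize_equal] at hi
  refine ⟨i, y 0, ?_⟩
  simpa [realize_tadd, realize_tmul, realize_tone] using hi

/-- Torsion freeness. -/
theorem torsion_free (N : ℕ) (hN : 1 ≤ N) (a b : M) (hab : smul N a = smul N b) : a = b := by
  have h1 := transfer (M := M) (β := Fin 2)
    ((Term.equal (tmul N (Term.var 0)) (tmul N (Term.var 1)) : Lsqf.Formula (Fin 2)).imp
      (Term.equal (Term.var 0) (Term.var 1))) (by
      intro v
      rw [Formula.realize_imp, Formula.realize_equal, Formula.realize_equal]
      simp only [realize_tmul, smul_int, Term.realize_var]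
      intro h
      have hNpos : (N : ℤ) ≠ 0 := by
        have : (0 : ℤ) < N := by exact_mod_cast hN
        exact this.ne'
      exact mul_left_cancel₀ hNpos h) ![a, b]
  rw [Formula.realize_imp, Formula.realize_equal, Formula.realize_equal] at h1
  simp only [realize_tmul] at h1
  exact h1 hab

/-- Multiples of squares of primes are not in `P_1`. -/
theorem not_sP (q : ℕ) (hq : q.Prime) (y : M) : ¬ sP (smul (q ^ 2) y) := by
  have h1 := transfer (M := M) (β := Fin 1) (fP (tmul (q ^ 2) (Term.var 0))).not (by
      intro v
      rw [Formula.realize_not, realize_fP, realize_tmul, smul_int, sP_int]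
      rintro ⟨-, h⟩
      refine h q hq ?_
      push_cast
      exact dvd_mul_right _ _) ![y]
  rw [Formula.realize_not, realize_fP, realize_tmul] at h1
  exact h1

/-- Two distinct elements. -/
theorem zero_ne_one : szero M ≠ sone M := by
  have h1 := transfer (M := M) (β := Fin 0) (Term.equal tzero tone).not (by
      intro v
      rw [Formula.realize_not, Formula.realize_equal, realize_tzero, realize_tone, szero_int,
        sone_int]
      norm_num) ![]
  rw [Formula.realize_not, Formula.realize_equal, realize_tzero, realize_tone] at h1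
  exact h1

/-- Transfer of the sieve statement. -/
theorem meet (n N : ℕ)
    (hsieve : ∀ b : Fin n → ℤ, ∃ x : ℤ, ∀ i, sP (x + N * b i)) (b : Fin n → M) :
    ∃ x : M, ∀ i, sP (sadd x (smul N (b i))) := by
  have h1 := transfer (M := M) (β := Fin n)
    (Formula.iExs (Fin 1) (Formula.iInf (fun i : Fin n =>
      (fP (tadd (Term.var (Sum.inr 0)) (tmul N (Term.var (Sum.inl i)))) :
        Lsqf.Formula (Fin n ⊕ Fin 1))))) (by
      intro v
      rw [Formula.realize_iExs]
      obtain ⟨x, hx⟩ := hsieve v
      refine ⟨fun _ => x, ?_⟩
      rw [Formula.realize_iInf]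
      intro i
      rw [realize_fP]
      simp only [realize_tadd, realize_tmul, sadd_int, smul_int,
        Term.realize_var, Sum.elim_inl, Sum.elim_inr]
      exact hx i) b
  rw [Formula.realize_iExs] at h1
  obtain ⟨x, hx⟩ := h1
  rw [Formula.realize_iInf] at hx
  refine ⟨x 0, fun i => ?_⟩
  have := hx i
  rw [realize_fP] at this
  simpa only [realize_tadd, realize_tmul, Term.realize_var, Sum.elim_inl, Sum.elim_inr] using this

end transfer

end Pool.Agent.Helper89.MSModel
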