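import Mathlib

/-!
A small sieve: for every `n` there is `N` such that for all integers `b_1, …, b_n` there is an
integer `x` such that all the `x + N b_i` are square-free.
-/

open Finset

namespace Pool.Agent.Helper89.MSSieve

theorem card_class (T p N : ℕ) (hcop : Nat.Coprime (p ^ 2) N) (b : ℤ) :
    ((Icc 1 T).filter fun y : ℕ => ((p : ℤ) ^ 2 ∣ 1 + N * ((y : ℤ) + b))).card ≤
      T / p ^ 2 + 1 := by
  rw [← card_range (T / p ^ 2 + 1)]
  refine card_le_card_of_injOn (fun y => y / p ^ 2) ?_ ?_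
  · intro y hy
    simp only [coe_filter, mem_Icc, Set.mem_ofPred_eq] at hy
    simp only [coe_range, Set.mem_Iio]
    exact Nat.lt_succ_of_le (Nat.div_le_div_right hy.1.2)
  · intro y hy y' hy' heq
    simp only [coe_filter, mem_Icc, Set.mem_ofPred_eq] at hy hy'
    simp only at heq
    have h1 : ((p : ℤ) ^ 2 ∣ N * ((y : ℤ) - y')) := by
      have := dvd_sub hy.2 hy'.2
      have h2 : (1 + N * ((y : ℤ) + b)) - (1 + N * ((y' : ℤ) + b)) = N * ((y : ℤ) - y') := by ring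
      rwa [h2] at this
    have h3 : IsCoprime ((p : ℤ) ^ 2) (N : ℤ) := by
      have := Nat.isCoprime_iff_coprime.2 hcop
      push_cast at this
      exact this
    have h4 : ((p : ℤ) ^ 2 ∣ (y : ℤ) - y') := h3.dvd_of_dvd_mul_left h1
    have h5 : y' ≡ y [MOD p ^ 2] := by
      rw [Nat.modEq_iff_dvd]
      push_cast
      exact h4
    have h6 : y' % p ^ 2 = y % p ^ 2 := h5
    rw [← Nat.div_add_mod y (p ^ 2), ← Nat.div_add_mod y' (p ^ 2), heq, h6]

theorem sieve (n : ℕ) : ∃ N : ℕ, 1 ≤ N ∧ ∀ b : Fin n → ℤ, ∃ x : ℤ, ∀ i,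
    (x + N * b i ≠ 0 ∧ ∀ p : ℕ, p.Prime → ¬ ((p : ℤ) ^ 2 ∣ x + N * b i)) := by
  classical
  obtain ⟨z, hz⟩ : ∃ z : ℕ, z = 4 * n + 4 := ⟨_, rfl⟩
  obtain ⟨N, hN⟩ : ∃ N : ℕ, N = (z.factorial) ^ 2 := ⟨_, rfl⟩
  have hN1 : 1 ≤ N := by rw [hN]; exact Nat.one_le_pow _ _ (Nat.factorial_pos z)
  refine ⟨N, hN1, fun b => ?_⟩
  -- a bound for the `b i`
  obtain ⟨B, hB⟩ : ∃ B : ℕ, ∀ i, |b i| ≤ B := by
    refine ⟨univ.sup fun i => (b i).natAbs, fun i => ?_⟩
    have h1 : (b i).natAbs ≤ univ.sup fun i => (b i).natAbs :=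
      Finset.le_sup (f := fun i => (b i).natAbs) (mem_univ i)
    rw [← Int.natCast_natAbs]
    exact_mod_cast h1
  obtain ⟨T, hT⟩ : ∃ T : ℕ, T = 4 * n * N + B + 1 := ⟨_, rfl⟩
  obtain ⟨R, hR⟩ : ∃ R : ℕ, R = 2 * N * T := ⟨_, rfl⟩
  have hT1 : 1 ≤ T := by omega
  have hzR : z ≤ R := by
    have h1 : z ≤ z.factorial := Nat.self_le_factorial z
    have h2 : z.factorial ≤ N := by
      rw [hN, sq]; exact Nat.le_mul_of_pos_left _ (Nat.factorial_pos z)
    have h3 : N ≤ R := by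
      rw [hR, mul_assoc, mul_comm]
      nlinarith [Nat.mul_le_mul hN1 hT1]
    omega
  -- bad residue classes
  let S : Fin n → ℕ → Finset ℕ := fun i p =>
    (Icc 1 (T ^ 2)).filter fun y : ℕ => ((p : ℤ) ^ 2 ∣ 1 + N * ((y : ℤ) + b i))
  have hcard : ∀ i, ∀ p ∈ (Ioc z R).filter Nat.Prime,
      ((S i p).card : ℝ) ≤ (T : ℝ) ^ 2 * ((p : ℝ) ^ 2)⁻¹ + 1 := by
    intro i p hp
    rw [mem_filter, mem_Ioc] at hp
    have hcop : Nat.Coprime (p ^ 2) N := by
      rw [hN]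
      refine Nat.Coprime.pow 2 2 ?_
      rw [Nat.Prime.coprime_iff_not_dvd hp.2]
      intro hdvd
      have := (Nat.Prime.dvd_factorial hp.2).1 hdvd
      omega
    have h1 := card_class (T ^ 2) p N hcop (b i)
    have h2 : ((S i p).card : ℝ) ≤ ((T ^ 2 / p ^ 2 : ℕ) : ℝ) + 1 := by exact_mod_cast h1
    have h3 : ((T ^ 2 / p ^ 2 : ℕ) : ℝ) ≤ (T : ℝ) ^ 2 / (p : ℝ) ^ 2 := by
      have := @Nat.cast_div_le ℝ _ _ _ (T ^ 2) (p ^ 2)
      push_cast at this
      exact this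
    rw [← div_eq_mul_inv]
    linarith
  -- the total number of bad elements
  have htotal : ((univ.biUnion fun i : Fin n => ((Ioc z R).filter Nat.Prime).biUnion (S i)).card
      : ℝ) < (T : ℝ) ^ 2 := by
    have h1 : ((univ.biUnion fun i : Fin n => ((Ioc z R).filter Nat.Prime).biUnion (S i)).card
        : ℝ) ≤ ∑ i : Fin n, ∑ p ∈ (Ioc z R).filter Nat.Prime, ((S i p).card : ℝ) := by
      have h2 : (univ.biUnion fun i : Fin n => ((Ioc z R).filter Nat.Prime).biUnion (S i)).card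
          ≤ ∑ i : Fin n, ∑ p ∈ (Ioc z R).filter Nat.Prime, (S i p).card :=
        card_biUnion_le.trans (sum_le_sum fun i _ => card_biUnion_le)
      exact_mod_cast h2
    have h2 : ∀ i : Fin n, ∑ p ∈ (Ioc z R).filter Nat.Prime, ((S i p).card : ℝ) ≤
        (T : ℝ) ^ 2 * (1 / z) + R := by
      intro i
      calc ∑ p ∈ (Ioc z R).filter Nat.Prime, ((S i p).card : ℝ)
          ≤ ∑ p ∈ (Ioc z R).filter Nat.Prime, ((T : ℝ) ^ 2 * ((p : ℝ) ^ 2)⁻¹ + 1) :=
            sum_le_sum fun p hp => hcard i p hp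
        _ ≤ ∑ p ∈ Ioc z R, ((T : ℝ) ^ 2 * ((p : ℝ) ^ 2)⁻¹ + 1) :=
            sum_le_sum_of_subset_of_nonneg (filter_subset _ _) fun p _ _ => by positivity
        _ = (T : ℝ) ^ 2 * ∑ p ∈ Ioc z R, ((p : ℝ) ^ 2)⁻¹ + ((Ioc z R).card : ℝ) := by
            rw [sum_add_distrib, ← mul_sum, sum_const, nsmul_eq_mul, mul_one]
        _ ≤ (T : ℝ) ^ 2 * (1 / z) + R := by
            have h3 : ∑ p ∈ Ioc z R, ((p : ℝ) ^ 2)⁻¹ ≤ (z : ℝ)⁻¹ - (R : ℝ)⁻¹ :=
              sum_Ioc_inv_sq_le_sub (by omega) hzR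
            have h4 : (0 : ℝ) ≤ (R : ℝ)⁻¹ := by positivity
            have h5 : ((Ioc z R).card : ℝ) ≤ R := by
              rw [Nat.card_Ioc]
              exact_mod_cast Nat.sub_le R z
            have h6 : ∑ p ∈ Ioc z R, ((p : ℝ) ^ 2)⁻¹ ≤ 1 / z := by
              rw [one_div]; linarith
            have h7 := mul_le_mul_of_nonneg_left h6 (sq_nonneg (T : ℝ))
            linarith
    have h3 : ((univ.biUnion fun i : Fin n => ((Ioc z R).filter Nat.Prime).biUnion (S i)).card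
        : ℝ) ≤ n * ((T : ℝ) ^ 2 * (1 / z) + R) := by
      refine h1.trans ((sum_le_sum fun i _ => h2 i).trans ?_)
      rw [sum_const, card_univ, Fintype.card_fin, nsmul_eq_mul]
    refine lt_of_le_of_lt h3 ?_
    have hzr : (z : ℝ) = 4 * n + 4 := by rw [hz]; push_cast; ring
    have hTr : (1 : ℝ) ≤ T := by exact_mod_cast hT1
    have h4 : (n : ℝ) * ((T : ℝ) ^ 2 * (1 / z)) ≤ (T : ℝ) ^ 2 / 4 := by
      rw [hzr]
      have h5 : (n : ℝ) * ((T : ℝ) ^ 2 * (1 / (4 * n + 4))) =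
          (T : ℝ) ^ 2 / 4 * (n / (n + 1)) := by
        field_simp
      rw [h5]
      have h6 : (n : ℝ) / (n + 1) ≤ 1 := by
        rw [div_le_one (by positivity)]; linarith
      have h7 : (0 : ℝ) ≤ (T : ℝ) ^ 2 / 4 := by positivity
      nlinarith
    have h5 : (n : ℝ) * R ≤ (T : ℝ) ^ 2 / 2 := by
      have h6 : (R : ℝ) = 2 * N * T := by rw [hR]; push_cast; ring
      have h7 : (4 : ℝ) * n * N ≤ T := by
        rw [hT]; push_cast
        have : (0 : ℝ) ≤ B := Nat.cast_nonneg B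
        linarith
      rw [h6]
      nlinarith
    nlinarith
  -- a good element
  obtain ⟨y, hyT, hy⟩ : ∃ y ∈ Icc 1 (T ^ 2),
      y ∉ univ.biUnion fun i : Fin n => ((Ioc z R).filter Nat.Prime).biUnion (S i) := by
    by_contra hcon
    push Not at hcon
    have h1 : Icc 1 (T ^ 2) ⊆
        univ.biUnion fun i : Fin n => ((Ioc z R).filter Nat.Prime).biUnion (S i) :=
      fun y hy => hcon y hy
    have h2 := card_le_card h1
    rw [Nat.card_Icc] at h2
    have h3 : ((T ^ 2 + 1 - 1 : ℕ) : ℝ) ≤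
        ((univ.biUnion fun i : Fin n => ((Ioc z R).filter Nat.Prime).biUnion (S i)).card : ℝ) := by
      exact_mod_cast h2
    rw [Nat.add_sub_cancel] at h3
    push_cast at h3
    linarith
  refine ⟨1 + N * y, fun i => ?_⟩
  have hform : (1 + N * (y : ℤ)) + N * b i = 1 + N * ((y : ℤ) + b i) := by ring
  rw [hform]
  have hNne : ¬ (N : ℤ) ∣ 1 := by
    intro hdvd
    have h1 := Int.le_of_dvd one_pos hdvd
    have h2 : 2 ≤ z.factorial := by
      calc 2 ≤ z := by omega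
        _ ≤ z.factorial := Nat.self_le_factorial z
    have h3 : 4 ≤ N := by rw [hN]; nlinarith
    have : (4 : ℤ) ≤ N := by exact_mod_cast h3
    omega
  have hne0 : 1 + N * ((y : ℤ) + b i) ≠ 0 := by
    intro h0
    apply hNne
    refine ⟨-((y : ℤ) + b i), ?_⟩
    linarith
  refine ⟨hne0, fun p hp hdvd => ?_⟩
  by_cases hpz : p ≤ z
  · -- small primes
    have h1 : p ∣ z.factorial := (Nat.Prime.dvd_factorial hp).2 hpz
    have h2 : ((p : ℤ) ^ 2) ∣ (N : ℤ) := by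
      rw [hN]
      push_cast
      exact pow_dvd_pow_of_dvd (by exact_mod_cast h1) 2
    have h3 : ((p : ℤ) ^ 2) ∣ 1 := by
      have h4 : ((p : ℤ) ^ 2) ∣ N * ((y : ℤ) + b i) := dvd_mul_of_dvd_left h2 _
      have h5 := dvd_sub hdvd h4
      rwa [add_sub_cancel_right] at h5
    have h4 := Int.le_of_dvd one_pos h3
    have h5 : (2 : ℤ) ≤ p := by exact_mod_cast hp.two_le
    nlinarith
  · -- large primes
    rw [not_le] at hpz
    rw [mem_Icc] at hyT
    have hpR : p ≤ R := by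
      by_contra hcon
      rw [not_le] at hcon
      have h1 : ((p : ℤ) ^ 2) ≤ |1 + N * ((y : ℤ) + b i)| :=
        Int.le_of_dvd (abs_pos.2 hne0) ((dvd_abs _ _).2 hdvd)
      have hb := abs_le.1 (hB i)
      have hyT' : (y : ℤ) ≤ (T : ℤ) ^ 2 := by exact_mod_cast hyT.2
      have hy1 : (1 : ℤ) ≤ y := by exact_mod_cast hyT.1
      have hBT : (B : ℤ) ≤ T := by
        have : B ≤ T := by omega
        exact_mod_cast this
      have hTZ : (1 : ℤ) ≤ T := by exact_mod_cast hT1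
      have hNZ : (1 : ℤ) ≤ N := by exact_mod_cast hN1
      have h2 : |1 + N * ((y : ℤ) + b i)| ≤ 1 + N * ((T : ℤ) ^ 2 + T) := by
        rw [abs_le]
        constructor
        · have h3 : -(T : ℤ) ≤ (y : ℤ) + b i := by linarith
          have h4 : (N : ℤ) * (-(T : ℤ)) ≤ N * ((y : ℤ) + b i) :=
            mul_le_mul_of_nonneg_left h3 (by linarith)
          have h5 : (0 : ℤ) ≤ (N : ℤ) * (T : ℤ) ^ 2 := by positivity
          have h6 : (N : ℤ) * ((T : ℤ) ^ 2 + T) = N * (T : ℤ) ^ 2 + N * T := by ring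
          have h7 : (N : ℤ) * (-(T : ℤ)) = -(N * T) := by ring
          linarith
        · have h3 : (y : ℤ) + b i ≤ (T : ℤ) ^ 2 + T := by linarith
          have h4 : (N : ℤ) * ((y : ℤ) + b i) ≤ N * ((T : ℤ) ^ 2 + T) :=
            mul_le_mul_of_nonneg_left h3 (by linarith)
          linarith
      have h3 : (R : ℤ) = 2 * N * T := by rw [hR]; push_cast; ring
      have h4 : (R : ℤ) < p := by exact_mod_cast hcon
      have h5 : (R : ℤ) ^ 2 < (p : ℤ) ^ 2 := by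
        have : (0 : ℤ) ≤ R := by positivity
        nlinarith
      have h6 : 1 + N * ((T : ℤ) ^ 2 + T) ≤ (R : ℤ) ^ 2 := by
        have h7 : (T : ℤ) ≤ (T : ℤ) ^ 2 := le_self_pow₀ hTZ two_ne_zero
        have h9 : (N : ℤ) ≤ (N : ℤ) ^ 2 := le_self_pow₀ hNZ two_ne_zero
        have h10 : (N : ℤ) * (T : ℤ) ^ 2 ≤ (N : ℤ) ^ 2 * (T : ℤ) ^ 2 :=
          mul_le_mul_of_nonneg_right h9 (by positivity)
        have h11 : (1 : ℤ) ≤ (N : ℤ) ^ 2 * (T : ℤ) ^ 2 :=
          one_le_mul_of_one_le_of_one_le (one_le_pow₀ hNZ) (one_le_pow₀ hTZ)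
        have h12 : (N : ℤ) * (T : ℤ) ≤ N * (T : ℤ) ^ 2 :=
          mul_le_mul_of_nonneg_left h7 (by linarith)
        have h13 : (R : ℤ) ^ 2 = 4 * ((N : ℤ) ^ 2 * (T : ℤ) ^ 2) := by rw [h3]; ring
        have h14 : (N : ℤ) * ((T : ℤ) ^ 2 + T) = N * (T : ℤ) ^ 2 + N * T := by ring
        rw [h13, h14]
        linarith
      linarith
    apply hy
    rw [mem_biUnion]
    refine ⟨i, mem_univ i, ?_⟩
    rw [mem_biUnion]
    refine ⟨p, ?_, ?_⟩
    · rw [mem_filter, mem_Ioc]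
      exact ⟨⟨hpz, hpR⟩, hp⟩
    · change y ∈ (Icc 1 (T ^ 2)).filter _
      rw [mem_filter, mem_Icc]
      exact ⟨hyT, hdvd⟩

end Pool.Agent.Helper89.MSSieve
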