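import Pool.Agent.Helper89.MSLogic
import Pool.Agent.Helper89.MSCore2
import Pool.Agent.Helper89.MSModel
import Pool.Agent.Helper89.MSSieve

/-!
Assembly: an MS-measure on a model of `T_Sqf` gives the data used in the core argument.
-/

open FirstOrder Set Function

namespace Pool.Agent.Helper89.MSMain

open Pool.Agent.Helper89.MSDefs Pool.Agent.Helper89.MS Pool.Agent.Helper89.MSLogic
  Pool.Agent.Helper89.MSModel FirstOrder.Language

universe w

section

variable {M : Type w} [Lsqf.Structure M] {A : Set M} {α : Type}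

theorem defFun_add {f g : (α → M) → M} (hf : A.DefinableFun Lsqf f) (hg : A.DefinableFun Lsqf g) :
    A.DefinableFun Lsqf (fun v => sadd (f v) (g v)) := by
  have h1 : (∅ : Set M).DefinableFun Lsqf (Structure.funMap addSym : (Fin 2 → M) → M) :=
    DefinableFun.fun_symbol addSym
  have h2 : A.DefinableMap Lsqf (fun v : α → M => ![f v, g v]) := by
    intro i
    fin_cases i
    · exact hf
    · exact hg
  exact DefinableFun.comp h2 (DefinableFun.of_empty h1)

theorem defFun_neg {f : (α → M) → M} (hf : A.DefinableFun Lsqf f) :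
    A.DefinableFun Lsqf (fun v => sneg (f v)) := by
  have h1 : (∅ : Set M).DefinableFun Lsqf (Structure.funMap negSym : (Fin 1 → M) → M) :=
    DefinableFun.fun_symbol negSym
  have h2 : A.DefinableMap Lsqf (fun v : α → M => ![f v]) := by
    intro i
    fin_cases i
    exact hf
  exact DefinableFun.comp h2 (DefinableFun.of_empty h1)

theorem defFun_zero : A.DefinableFun Lsqf (fun _ : α → M => szero M) := by
  have h1 : (∅ : Set M).DefinableFun Lsqf ((tzero : Lsqf.Term α).realize) :=
    Term.definableFun_realize _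
  have h2 : ((tzero : Lsqf.Term α).realize : (α → M) → M) = fun _ => szero M := by
    funext v
    exact realize_tzero v
  rw [h2] at h1
  exact DefinableFun.of_empty h1

theorem defFun_mul (n : ℕ) {f : (α → M) → M} (hf : A.DefinableFun Lsqf f) :
    A.DefinableFun Lsqf (fun v => smul n (f v)) := by
  induction n with
  | zero => exact defFun_zero
  | succ n ih => exact defFun_add ih hf

theorem def_P {f : (α → M) → M} (hf : A.DefinableFun Lsqf f) :
    A.Definable Lsqf {v : α → M | sP (f v)} := by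
  have h1 : (∅ : Set M).Definable Lsqf {v : Fin 1 → M | sP (v 0)} := by
    rw [empty_definable_iff]
    refine ⟨fP (Term.var 0), ?_⟩
    ext v
    change sP (v 0) ↔ (fP (Term.var 0)).Realize v
    rw [realize_fP]
    rfl
  have h2 : A.DefinableMap Lsqf (fun (v : α → M) (_ : Fin 1) => f v) := fun _ => hf
  exact (h1.mono (empty_subset A)).preimage_map h2

/-- Substitution in unary definable sets. -/
theorem def_sub1 {X : Set M} (hX : A.Definable₁ Lsqf X) {f : (α → M) → M}
    (hf : A.DefinableFun Lsqf f) : A.Definable Lsqf {v : α → M | f v ∈ X} := by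
  have h2 : A.DefinableMap Lsqf (fun (v : α → M) (_ : Fin 1) => f v) := fun _ => hf
  exact hX.preimage_map h2

/-- Substitution in binary definable sets. -/
theorem def_sub2 {Z : Set (M × M)} (hZ : A.Definable₂ Lsqf Z) {f g : (α → M) → M}
    (hf : A.DefinableFun Lsqf f) (hg : A.DefinableFun Lsqf g) :
    A.Definable Lsqf {v : α → M | (f v, g v) ∈ Z} := by
  have h2 : A.DefinableMap Lsqf (fun v : α → M => ![f v, g v]) := by
    intro i
    fin_cases i
    · exact hf
    · exact hg
  exact hZ.preimage_map h2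

theorem defFun_var (i : α) : A.DefinableFun Lsqf (fun v : α → M => v i) :=
  DefinableFun.proj Lsqf

theorem defFun_const (a : M) : (univ : Set M).DefinableFun Lsqf (fun _ : α → M => a) :=
  definableFun_const Lsqf α (mem_univ a)

end

section

variable {M : Type w} [Lsqf.Structure M] [M ⊨ TSqf]
  {h : (n : ℕ) → Set (Fin n → M) → ℕ × ℝ}

/-- The set of `x : Fin 1 → M` corresponding to a subset of `M`. -/
def lift1 (X : Set M) : Set (Fin 1 → M) := {x | x 0 ∈ X}

/-- The measure of a subset of `M`. -/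
def hm (h : (n : ℕ) → Set (Fin n → M) → ℕ × ℝ) (X : Set M) : ℕ × ℝ := h 1 (lift1 X)

/-- Bijection invariance for unary sets. -/
theorem hm_bij (hh : IsMSMeasure Lsqf M h) {X Y : Set M} (g : M → M)
    (hX : (univ : Set M).Definable₁ Lsqf X) (hY : (univ : Set M).Definable₁ Lsqf Y)
    (hg : (univ : Set M).DefinableFun Lsqf (fun v : Fin 1 → M => g (v 0)))
    (hinj : InjOn g X) (himg : g '' X = Y) : hm h X = hm h Y := by
  refine h_bij hh (zero_ne_one (M := M)) le_rfl le_rfl (fun x _ => g (x 0)) hX hY ?_ ?_ ?_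
  · have h1 : {z : Fin 1 ⊕ Fin 1 → M | z ∘ Sum.inl ∈ lift1 X ∧
        (fun _ : Fin 1 => g ((z ∘ Sum.inl) 0)) = z ∘ Sum.inr} =
        {z | z (Sum.inl 0) ∈ X} ∩ {z | g (z (Sum.inl 0)) = z (Sum.inr 0)} := by
      ext z
      constructor
      · rintro ⟨h1, h2⟩
        exact ⟨h1, congrFun h2 0⟩
      · rintro ⟨h1, h2⟩
        refine ⟨h1, ?_⟩
        funext i
        rw [Fin.fin_one_eq_zero i]
        exact h2
    change (univ : Set M).Definable Lsqf {z : Fin 1 ⊕ Fin 1 → M | z ∘ Sum.inl ∈ lift1 X ∧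
        (fun _ : Fin 1 => g ((z ∘ Sum.inl) 0)) = z ∘ Sum.inr}
    rw [h1]
    refine (def_sub1 hX (defFun_var _)).inter ?_
    refine DefinableFun.ofPred_eq ?_ (defFun_var _)
    have h2 : (univ : Set M).DefinableMap Lsqf
        (fun (z : Fin 1 ⊕ Fin 1 → M) (_ : Fin 1) => z (Sum.inl 0)) := fun _ => defFun_var _
    exact DefinableFun.comp h2 hg
  · intro x hx y hy hxy
    have := hinj hx hy (congrFun hxy 0)
    funext i
    rw [Fin.fin_one_eq_zero i]
    exact this
  · ext y
    constructor
    · rintro ⟨x, hx, rfl⟩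
      change g (x 0) ∈ Y
      rw [← himg]
      exact ⟨x 0, hx, rfl⟩
    · intro hy
      have hy' : y 0 ∈ Y := hy
      rw [← himg] at hy'
      obtain ⟨x, hx, hxy⟩ := hy'
      refine ⟨fun _ => x, hx, ?_⟩
      funext i
      rw [Fin.fin_one_eq_zero i]
      exact hxy

/-- Fibres of a binary set over the second coordinate. -/
theorem fib_eq (hh : IsMSMeasure Lsqf M h) (j : Fin 2) (Z : Set (M × M))
    (hZ : (univ : Set M).Definable₂ Lsqf Z) (s : M) :
    h 2 {x : Fin 2 → M | (x 0, x 1) ∈ Z ∧ (fun _ : Fin 1 => x j) = fun _ => s} =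
      hm h {x | (if j = 0 then (s, x) else (x, s)) ∈ Z} := by
  let j' : Fin 2 := if j = 0 then 1 else 0
  have hD1 : (univ : Set M).Definable₁ Lsqf {x | (if j = 0 then (s, x) else (x, s)) ∈ Z} := by
    by_cases hj : j = 0
    · simp only [hj, if_true]
      exact def_sub2 hZ (defFun_const s) (defFun_var 0)
    · simp only [hj, if_false]
      exact def_sub2 hZ (defFun_var 0) (defFun_const s)
  have hD2 : (univ : Set M).Definable Lsqf
      {x : Fin 2 → M | (x 0, x 1) ∈ Z ∧ (fun _ : Fin 1 => x j) = fun _ => s} := by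
    have h1 : {x : Fin 2 → M | (x 0, x 1) ∈ Z ∧ (fun _ : Fin 1 => x j) = fun _ => s} =
        {x : Fin 2 → M | (x 0, x 1) ∈ Z} ∩ {x | x j = s} := by
      ext x
      constructor
      · rintro ⟨h1, h2⟩; exact ⟨h1, congrFun h2 0⟩
      · rintro ⟨h1, h2⟩; exact ⟨h1, funext fun _ => h2⟩
    rw [h1]
    refine Definable.inter hZ ?_
    exact DefinableFun.ofPred_eq (defFun_var j) (defFun_const s)
  refine h_bij hh (zero_ne_one (M := M)) (by norm_num) le_rfl (fun x _ => x j') hD2 hD1 ?_ ?_ ?_
  · have h1 : {z : Fin 2 ⊕ Fin 1 → M | z ∘ Sum.inl ∈ {x : Fin 2 → M | (x 0, x 1) ∈ Z ∧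
        (fun _ : Fin 1 => x j) = fun _ => s} ∧ (fun _ : Fin 1 => (z ∘ Sum.inl) j') =
          z ∘ Sum.inr} =
        ((fun z : Fin 2 ⊕ Fin 1 → M => z ∘ Sum.inl) ⁻¹' {x : Fin 2 → M | (x 0, x 1) ∈ Z ∧
          (fun _ : Fin 1 => x j) = fun _ => s}) ∩
        {z | z (Sum.inl j') = z (Sum.inr 0)} := by
      ext z
      constructor
      · rintro ⟨h1, h2⟩
        exact ⟨h1, congrFun h2 0⟩
      · rintro ⟨h1, h2⟩
        refine ⟨h1, ?_⟩
        funext i
        rw [Fin.fin_one_eq_zero i]
        exact h2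
    rw [h1]
    exact (hD2.preimage_comp Sum.inl).inter
      (DefinableFun.ofPred_eq (defFun_var _) (defFun_var _))
  · rintro x ⟨hx1, hx2⟩ y ⟨hy1, hy2⟩ hxy
    have e1 : x j' = y j' := congrFun hxy 0
    have e2 : x j = y j := by
      have a1 : x j = s := congrFun hx2 0
      have a2 : y j = s := congrFun hy2 0
      rw [a1, a2]
    funext i
    by_cases hj : j = 0
    · subst hj
      have e3 : j' = 1 := if_pos rfl
      rw [e3] at e1
      fin_cases i
      · exact e2
      · exact e1
    · have hj1 : j = 1 := by omega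
      subst hj1
      have e3 : j' = 0 := if_neg (by decide)
      rw [e3] at e1
      fin_cases i
      · exact e1
      · exact e2
  · ext y
    by_cases hj : j = 0
    · subst hj
      have e3 : j' = 1 := if_pos rfl
      simp only [e3, if_true, mem_image]
      constructor
      · rintro ⟨x, ⟨hx1, hx2⟩, rfl⟩
        change (s, x 1) ∈ Z
        have : x 0 = s := congrFun hx2 0
        rw [← this]; exact hx1
      · intro hy
        have hy' : (s, y 0) ∈ Z := hy
        refine ⟨![s, y 0], ⟨hy', rfl⟩, ?_⟩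
        funext i
        rw [Fin.fin_one_eq_zero i]
        rfl
    · have hj1 : j = 1 := by omega
      subst hj1
      have e3 : j' = 0 := if_neg (by decide)
      simp only [e3, mem_image]
      constructor
      · rintro ⟨x, ⟨hx1, hx2⟩, rfl⟩
        change (x 0, s) ∈ Z
        have : x 1 = s := congrFun hx2 0
        rw [← this]; exact hx1
      · intro hy
        have hy' : (y 0, s) ∈ Z := hy
        refine ⟨![y 0, s], ⟨hy', rfl⟩, ?_⟩
        funext i
        rw [Fin.fin_one_eq_zero i]
        rfl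

/-- Fubini for the projection of a binary set to the coordinate `j`. -/
theorem fub_proj (hh : IsMSMeasure Lsqf M h) (j : Fin 2) (Z : Set (M × M))
    (hZ : (univ : Set M).Definable₂ Lsqf Z) (hne : Z.Nonempty) :
    FubData {X | (univ : Set M).Definable₁ Lsqf X} (hm h)
      (fun s => {x | (if j = 0 then (s, x) else (x, s)) ∈ Z})
      (h 2 {x : Fin 2 → M | (x 0, x 1) ∈ Z}) := by
  have hmemfib : ∀ s : M, ({x | (if j = 0 then (s, x) else (x, s)) ∈ Z}).Nonempty ↔
      ∃ x : Fin 2 → M, (x 0, x 1) ∈ Z ∧ x j = s := by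
    intro s
    by_cases hj : j = 0
    · subst hj
      simp only [if_true]
      constructor
      · rintro ⟨x, hx⟩
        exact ⟨![s, x], hx, rfl⟩
      · rintro ⟨x, hx, rfl⟩
        exact ⟨x 1, hx⟩
    · have hj1 : j = 1 := by omega
      subst hj1
      constructor
      · rintro ⟨x, hx⟩
        exact ⟨![x, s], hx, rfl⟩
      · rintro ⟨x, hx, rfl⟩
        exact ⟨x 0, hx⟩
  have hfibD : (univ : Set M).Definable Lsqf
      {z : Fin 1 ⊕ Fin 2 → M | (z (Sum.inr 0), z (Sum.inr 1)) ∈ Z ∧
        z (Sum.inr j) = z (Sum.inl 0)} :=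
    Definable.inter (def_sub2 hZ (defFun_var _) (defFun_var _))
      (DefinableFun.ofPred_eq (defFun_var _) (defFun_var _))
  have hY : (univ : Set M).Definable Lsqf
      (lift1 {s | ({x | (if j = 0 then (s, x) else (x, s)) ∈ Z}).Nonempty}) := by
    have h1 := hfibD.exists_of_finite
    have h2 : (lift1 {s | ({x | (if j = 0 then (s, x) else (x, s)) ∈ Z}).Nonempty}) =
        {v : Fin 1 → M | ∃ u : Fin 2 → M, Sum.elim v u ∈
          {z : Fin 1 ⊕ Fin 2 → M | (z (Sum.inr 0), z (Sum.inr 1)) ∈ Z ∧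
            z (Sum.inr j) = z (Sum.inl 0)}} := by
      ext v
      change ({x | (if j = 0 then (v 0, x) else (x, v 0)) ∈ Z}).Nonempty ↔ _
      rw [hmemfib (v 0)]
      rfl
    rw [h2]
    exact h1
  have hgraph : (univ : Set M).Definable Lsqf
      {z : Fin 2 ⊕ Fin 1 → M | z ∘ Sum.inl ∈ {x : Fin 2 → M | (x 0, x 1) ∈ Z} ∧
        (fun x (_ : Fin 1) => x j) (z ∘ Sum.inl) = z ∘ Sum.inr} := by
    have h1 : {z : Fin 2 ⊕ Fin 1 → M | z ∘ Sum.inl ∈ {x : Fin 2 → M | (x 0, x 1) ∈ Z} ∧
        (fun x (_ : Fin 1) => x j) (z ∘ Sum.inl) = z ∘ Sum.inr} =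
        ((fun z : Fin 2 ⊕ Fin 1 → M => z ∘ Sum.inl) ⁻¹' {x : Fin 2 → M | (x 0, x 1) ∈ Z}) ∩
        {z | z (Sum.inl j) = z (Sum.inr 0)} := by
      ext z
      constructor
      · rintro ⟨h1, h2⟩
        exact ⟨h1, congrFun h2 0⟩
      · rintro ⟨h1, h2⟩
        refine ⟨h1, ?_⟩
        funext i
        rw [Fin.fin_one_eq_zero i]
        exact h2
    rw [h1]
    exact (Definable.preimage_comp Sum.inl hZ).inter
      (DefinableFun.ofPred_eq (defFun_var _) (defFun_var _))
  have himg : (fun (x : Fin 2 → M) (_ : Fin 1) => x j) '' {x : Fin 2 → M | (x 0, x 1) ∈ Z} =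
      lift1 {s | ({x | (if j = 0 then (s, x) else (x, s)) ∈ Z}).Nonempty} := by
    ext v
    change _ ↔ ({x | (if j = 0 then (v 0, x) else (x, v 0)) ∈ Z}).Nonempty
    rw [hmemfib (v 0)]
    constructor
    · rintro ⟨x, hx, rfl⟩
      exact ⟨x, hx, rfl⟩
    · rintro ⟨x, hx, hxv⟩
      refine ⟨x, hx, ?_⟩
      funext i
      rw [Fin.fin_one_eq_zero i]
      exact hxv
  have hYne : (lift1 {s | ({x | (if j = 0 then (s, x) else (x, s)) ∈ Z}).Nonempty}).Nonempty := by
    obtain ⟨⟨a, b⟩, hab⟩ := hne
    rw [← himg]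
    exact ⟨_, ![a, b], hab, rfl⟩
  obtain ⟨r, Yi, av, hYD, hYine, hYdisj, hYU, hav, hfinal⟩ := hh.fubini 2 1 (by norm_num) le_rfl
    {x : Fin 2 → M | (x 0, x 1) ∈ Z}
    (lift1 {s | ({x | (if j = 0 then (s, x) else (x, s)) ∈ Z}).Nonempty})
    (fun x (_ : Fin 1) => x j) hZ hY hgraph himg hYne
  have hlift : ∀ i, lift1 {s : M | (fun _ : Fin 1 => s) ∈ Yi i} = Yi i := by
    intro i
    ext x
    change (fun _ : Fin 1 => x 0) ∈ Yi i ↔ x ∈ Yi i
    have : (fun _ : Fin 1 => x 0) = x := by
      funext k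
      rw [Fin.fin_one_eq_zero k]
    rw [this]
  refine ⟨r, fun i => {s : M | (fun _ : Fin 1 => s) ∈ Yi i}, av, ?_, ?_, ?_, ?_, ?_, ?_⟩
  · intro i
    change (univ : Set M).Definable Lsqf (lift1 {s : M | (fun _ : Fin 1 => s) ∈ Yi i})
    rw [hlift i]
    exact hYD i
  · intro i
    obtain ⟨y, hy⟩ := hYine i
    refine ⟨y 0, ?_⟩
    rw [← hlift i] at hy
    exact hy
  · intro i k hik
    rw [disjoint_left]
    intro s hs hs'
    exact disjoint_left.1 (hYdisj i k hik) hs hs'
  · ext s
    rw [mem_iUnion]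
    have h1 : (fun _ : Fin 1 => s) ∈ (⋃ i, Yi i) ↔
        ({x | (if j = 0 then (s, x) else (x, s)) ∈ Z}).Nonempty := by
      rw [hYU]; rfl
    rw [mem_iUnion] at h1
    exact h1
  · intro i s hs
    have h1 := hav i (fun _ => s) hs
    have h2 := fib_eq hh j Z hZ s
    rw [← h1]
    exact h2.symm
  · intro c hc
    have h1 : ∀ i, hm h {s : M | (fun _ : Fin 1 => s) ∈ Yi i} = h 1 (Yi i) := by
      intro i
      unfold hm
      rw [hlift i]
    simp only [h1] at hc ⊢
    exact hfinal c hc


theorem exists_phi : ∃ φ : Lsqf.Formula (Fin 1 ⊕ Fin 1), ∀ (N : Type w) [Lsqf.Structure N]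
    (x b : Fin 1 → N), φ.Realize (Sum.elim x b) ↔ (sP (x 0) ∧ sP (sadd (x 0) (b 0))) := by
  refine ⟨fP (Term.var (Sum.inl 0)) ⊓
    fP (tadd (Term.var (Sum.inl 0)) (Term.var (Sum.inr 0))), ?_⟩
  intro N _ x b
  rw [Formula.realize_inf, realize_fP, realize_fP, realize_tadd]
  rfl

theorem no_measure (hh : IsMSMeasure Lsqf M h) : False := by
  classical
  let _ : AddCommGroup M := grp M
  have hnsmul : ∀ (n : ℕ) (a : M), n • a = smul n a := grp_nsmul
  have h01 : szero M ≠ sone M := zero_ne_one
  -- the basic uniform family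
  obtain ⟨φ, hφ⟩ := exists_phi.{w}
  have hφset : ∀ b : Fin 1 → M, {x : Fin 1 → M | φ.Realize (Sum.elim x b)} =
      lift1 {x : M | x ∈ {a | sP a} ∧ x + b 0 ∈ {a | sP a}} := by
    intro b
    ext x
    exact hφ M x b
  obtain ⟨hU1, hU2⟩ := hh.uniform 1 1 le_rfl φ
  simp only [hφset] at hU1 hU2
  have hHfin : (range fun t : M => hm h {x : M | x ∈ {a | sP a} ∧ x + t ∈ {a | sP a}}).Finite := by
    refine hU1.subset ?_
    rintro _ ⟨t, rfl⟩
    exact ⟨fun _ => t, rfl⟩
  have hHlev : ∀ v, (∅ : Set M).Definable₁ Lsqf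
      {t : M | hm h {x : M | x ∈ {a | sP a} ∧ x + t ∈ {a | sP a}} = v} := fun v => hU2 v
  -- the family of difference sets
  have hE : ∀ d : ℕ, (range fun u : M => hm h {t : M |
      lead d (hm h {x : M | x ∈ {a | sP a} ∧ x + (t + u) ∈ {a | sP a}}) ≠
      lead d (hm h {x : M | x ∈ {a | sP a} ∧ x + t ∈ {a | sP a}})}).Finite := by
    intro d
    let s : Finset ((ℕ × ℝ) × (ℕ × ℝ)) :=
      (hHfin.toFinset ×ˢ hHfin.toFinset).filter fun p => lead d p.1 ≠ lead d p.2
    have hset : {z : Fin 1 ⊕ Fin 1 → M |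
        lead d (hm h {x : M | x ∈ {a | sP a} ∧ x + (z (Sum.inl 0) + z (Sum.inr 0)) ∈ {a | sP a}}) ≠
        lead d (hm h {x : M | x ∈ {a | sP a} ∧ x + z (Sum.inl 0) ∈ {a | sP a}})} =
        ⋃ p ∈ s, ({z : Fin 1 ⊕ Fin 1 → M | sadd (z (Sum.inl 0)) (z (Sum.inr 0)) ∈
            {t : M | hm h {x : M | x ∈ {a | sP a} ∧ x + t ∈ {a | sP a}} = p.1}} ∩
          {z : Fin 1 ⊕ Fin 1 → M | z (Sum.inl 0) ∈
            {t : M | hm h {x : M | x ∈ {a | sP a} ∧ x + t ∈ {a | sP a}} = p.2}}) := by
      ext z
      rw [mem_iUnion₂]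
      constructor
      · intro hz
        refine ⟨(hm h {x : M | x ∈ {a | sP a} ∧ x + (z (Sum.inl 0) + z (Sum.inr 0)) ∈ {a | sP a}},
          hm h {x : M | x ∈ {a | sP a} ∧ x + z (Sum.inl 0) ∈ {a | sP a}}), ?_, rfl, rfl⟩
        rw [Finset.mem_filter, Finset.mem_product]
        exact ⟨⟨(Set.Finite.mem_toFinset _).2 (mem_range_self (z (Sum.inl 0) + z (Sum.inr 0))),
          (Set.Finite.mem_toFinset _).2 (mem_range_self (z (Sum.inl 0)))⟩, hz⟩
      · rintro ⟨p, hp, h1, h2⟩
        rw [Finset.mem_filter] at hp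
        have h1' : hm h {x : M | x ∈ {a | sP a} ∧ x + (z (Sum.inl 0) + z (Sum.inr 0)) ∈
          {a | sP a}} = p.1 := h1
        have h2' : hm h {x : M | x ∈ {a | sP a} ∧ x + z (Sum.inl 0) ∈ {a | sP a}} = p.2 := h2
        change lead d _ ≠ lead d _
        rw [h1', h2']
        exact hp.2
    have hdef : (∅ : Set M).Definable Lsqf {z : Fin 1 ⊕ Fin 1 → M |
        lead d (hm h {x : M | x ∈ {a | sP a} ∧ x + (z (Sum.inl 0) + z (Sum.inr 0)) ∈ {a | sP a}}) ≠
        lead d (hm h {x : M | x ∈ {a | sP a} ∧ x + z (Sum.inl 0) ∈ {a | sP a}})} := by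
      rw [hset]
      refine definable_biUnion_finset (fun p => ?_) s
      exact (def_sub1 (hHlev p.1) (defFun_add (defFun_var _) (defFun_var _))).inter
        (def_sub1 (hHlev p.2) (defFun_var _))
    rw [empty_definable_iff] at hdef
    obtain ⟨ψ, hψ⟩ := hdef
    have h3 := (hh.uniform 1 1 le_rfl ψ).1
    refine h3.subset ?_
    rintro _ ⟨u, rfl⟩
    refine ⟨fun _ => u, ?_⟩
    change h 1 {x | ψ.Realize (Sum.elim x fun _ => u)} = h 1 _
    congr 1
    ext x
    have h4 : (Sum.elim x (fun _ => u) : Fin 1 ⊕ Fin 1 → M) ∈ {z : Fin 1 ⊕ Fin 1 → M |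
        lead d (hm h {x : M | x ∈ {a | sP a} ∧ x + (z (Sum.inl 0) + z (Sum.inr 0)) ∈ {a | sP a}}) ≠
        lead d (hm h {x : M | x ∈ {a | sP a} ∧ x + z (Sum.inl 0) ∈ {a | sP a}})} ↔
        ψ.Realize (Sum.elim x fun _ => u) := by
      rw [hψ]; rfl
    exact h4.symm
  let P : Pack M :=
    { D := {X | (univ : Set M).Definable₁ Lsqf X}
      h := hm h
      univ_mem := definable_univ
      inter_mem := fun hX hY => Definable.inter hX hY
      compl_mem := fun hX => Definable.compl hX
      shift_mem := fun hX t => def_sub1 hX (defFun_add (defFun_var 0) (defFun_const t))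
      h_shift := by
        intro X hX t
        refine hm_bij hh (fun x => x + t) ?_ hX ?_ ?_ ?_
        · exact def_sub1 hX (defFun_add (defFun_var 0) (defFun_const t))
        · exact defFun_add (defFun_var 0) (defFun_const t)
        · exact (add_left_injective t).injOn
        · ext y
          constructor
          · rintro ⟨x, hx, rfl⟩; exact hx
          · intro hy
            exact ⟨y + -t, by simpa using hy, by simp⟩
      pos := by
        intro X hX hne
        obtain ⟨x, hx⟩ := hne
        exact h_pos hh h01 le_rfl hX ⟨fun _ => x, hx⟩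
      h_empty := h_empty hh le_rfl
      add_dim := by
        intro X Y hX hY hd
        have hd' : Disjoint (lift1 X) (lift1 Y) := by
          rw [disjoint_left]
          intro x hx hx'
          exact disjoint_left.1 hd hx hx'
        exact add_dim hh h01 le_rfl hX hY hd'
      add_lead := by
        intro X Y hX hY hd e h1 h2
        have hd' : Disjoint (lift1 X) (lift1 Y) := by
          rw [disjoint_left]
          intro x hx hx'
          exact disjoint_left.1 hd hx hx'
        exact add_lead hh h01 le_rfl hX hY hd' e h1 h2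
      A := {a | sP a}
      A_mem := def_P (defFun_var 0)
      H_finite := hHfin
      H_level := fun v => (hHlev v).mono (empty_subset _)
      E_finite := hE _
      D2 := {Z | (univ : Set M).Definable₂ Lsqf Z}
      fub := by
        intro Z hZ hne
        refine ⟨h 2 {x : Fin 2 → M | (x 0, x 1) ∈ Z}, ?_, ?_⟩
        · have h1 := fub_proj hh 1 Z hZ hne
          simpa using h1
        · have h1 := fub_proj hh 0 Z hZ hne
          simpa using h1
      D2_fib1 := fun Z hZ s => def_sub2 hZ (defFun_var 0) (defFun_const s)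
      D2_fib2 := fun Z hZ s => def_sub2 hZ (defFun_const s) (defFun_var 0)
      D2_corr := fun X hX => (def_P (defFun_var 0)).inter
        ((def_P (defFun_add (defFun_var 0) (defFun_var 1))).inter (def_sub1 hX (defFun_var 1)))
      D2_drop := by
        intro X hX N hN
        have h1 : {z : M × M | z.1 ∈ X ∧ z.1 + N • z.2 ∈ {a | sP a}} =
            {z : M × M | z.1 ∈ X ∧ z.1 + smul N z.2 ∈ {a | sP a}} := by
          ext z
          change (z.1 ∈ X ∧ z.1 + N • z.2 ∈ {a | sP a}) ↔
            (z.1 ∈ X ∧ z.1 + smul N z.2 ∈ {a | sP a})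
          rw [hnsmul]
        rw [h1]
        exact (def_sub1 hX (defFun_var 0)).inter
          (def_P (defFun_add (defFun_var 0) (defFun_mul N (defFun_var 1))))
      dim_inj := by
        intro N hN x
        simp only [hnsmul]
        have hX : (univ : Set M).Definable₁ Lsqf {b : M | x + smul N b ∈ {a | sP a}} :=
          def_P (defFun_add (defFun_const x) (defFun_mul N (defFun_var 0)))
        have hY : (univ : Set M).Definable₁ Lsqf
            ((fun b => x + smul N b) '' {b : M | x + smul N b ∈ {a | sP a}}) := by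
          have h1 : (univ : Set M).Definable Lsqf {z : Fin 1 ⊕ Fin 1 → M |
              sP (sadd x (smul N (z (Sum.inr 0)))) ∧
              sadd x (smul N (z (Sum.inr 0))) = z (Sum.inl 0)} :=
            (def_P (defFun_add (defFun_const x) (defFun_mul N (defFun_var _)))).inter
              (DefinableFun.ofPred_eq
                (defFun_add (defFun_const x) (defFun_mul N (defFun_var _))) (defFun_var _))
          have h2 := h1.exists_of_finite
          have h3 : {v : Fin 1 → M | v 0 ∈
              ((fun b => x + smul N b) '' {b : M | x + smul N b ∈ {a | sP a}})} =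
              {v : Fin 1 → M | ∃ u : Fin 1 → M, Sum.elim v u ∈ {z : Fin 1 ⊕ Fin 1 → M |
              sP (sadd x (smul N (z (Sum.inr 0)))) ∧
              sadd x (smul N (z (Sum.inr 0))) = z (Sum.inl 0)}} := by
            ext v
            constructor
            · rintro ⟨b, hb, hbv⟩
              exact ⟨fun _ => b, hb, hbv⟩
            · rintro ⟨u, hu1, hu2⟩
              exact ⟨u 0, hu1, hu2⟩
          change (univ : Set M).Definable Lsqf {v : Fin 1 → M | v 0 ∈
              ((fun b => x + smul N b) '' {b : M | x + smul N b ∈ {a | sP a}})}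
          rw [h3]
          exact h2
        have h4 : hm h {b : M | x + smul N b ∈ {a | sP a}} =
            hm h ((fun b => x + smul N b) '' {b : M | x + smul N b ∈ {a | sP a}}) := by
          refine hm_bij hh (fun b => x + smul N b) hX hY
            (defFun_add (defFun_const x) (defFun_mul N (defFun_var 0))) ?_ rfl
          intro b _ b' _ hbb
          have h5 : smul N b = smul N b' := add_left_cancel hbb
          exact torsion_free N hN b b' h5
        rw [h4]
        refine dim_mono hh h01 le_rfl hY (def_P (defFun_var 0)) ?_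
        rintro v ⟨b, hb, hbv⟩
        change sP (v 0)
        rw [← hbv]
        exact hb
      coset_mem := by
        intro N c
        simp only [hnsmul]
        have h1 : (univ : Set M).Definable Lsqf {z : Fin 1 ⊕ Fin 1 → M |
            z (Sum.inl 0) = sadd c (smul N (z (Sum.inr 0)))} :=
          DefinableFun.ofPred_eq (defFun_var _)
            (defFun_add (defFun_const c) (defFun_mul N (defFun_var _)))
        have h2 := h1.exists_of_finite
        have h3 : {v : Fin 1 → M | v 0 ∈ {x : M | ∃ y, x = c + smul N y}} =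
            {v : Fin 1 → M | ∃ u : Fin 1 → M, Sum.elim v u ∈ {z : Fin 1 ⊕ Fin 1 → M |
            z (Sum.inl 0) = sadd c (smul N (z (Sum.inr 0)))}} := by
          ext v
          constructor
          · rintro ⟨b, hb⟩
            exact ⟨fun _ => b, hb⟩
          · rintro ⟨u, hu⟩
            exact ⟨u 0, hu⟩
        change (univ : Set M).Definable Lsqf {v : Fin 1 → M | v 0 ∈
          {x : M | ∃ y, x = c + smul N y}}
        rw [h3]
        exact h2 }
  refine P.contradiction ?_ ?_ ?_
  · intro N hN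
    have hsurj : Function.Surjective
        (fun i : Fin N => ((smul (i : ℕ) (sone M) : M) : M ⧸ Pack.mulN M N)) := by
      intro q
      obtain ⟨a, rfl⟩ := QuotientAddGroup.mk_surjective q
      obtain ⟨i, y, hiy⟩ := exists_div N hN a
      refine ⟨i, ?_⟩
      rw [QuotientAddGroup.eq, Pack.mem_mulN]
      refine ⟨y, ?_⟩
      have h1 : a = smul N y + smul (i : ℕ) (sone M) := hiy
      rw [h1, hnsmul]
      abel
    exact Finite.of_surjective _ hsurj
  · intro q hq y hy
    rw [hnsmul] at hy
    exact not_sP q hq y hy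
  · intro n
    obtain ⟨N, hN, hs⟩ := MSSieve.sieve n
    refine ⟨N, hN, fun b => ?_⟩
    obtain ⟨x, hx⟩ := meet (M := M) n N (fun b => by
      obtain ⟨x, hx⟩ := hs b
      exact ⟨x, fun i => (sP_int _).2 (hx i)⟩) (fun i : Fin n => b i)
    refine ⟨x, fun i hi => ?_⟩
    rw [hnsmul]
    exact hx ⟨i, hi⟩

end

end Pool.Agent.Helper89.MSMain
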