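import Pool.Agent.Helper89.MSDefs

/-!
Sanity check: the conditions defining an MS-measure are satisfied by counting on a one-element
structure.
-/

open FirstOrder Set

namespace Pool.Agent.Helper89.MSSanity

open Pool.Agent.Helper89.MSDefs

theorem one_point (L : FirstOrder.Language.{0, 0}) (M : Type) [L.Structure M] [Unique M] :
    IsMSMeasure L M (fun _ X => (0, (X.ncard : ℝ))) := by
  have hdef : ∀ (A : Set M) (k : ℕ) (S : Set (Fin k → M)), A.Definable L S := by
    intro A k S
    rcases S.eq_empty_or_nonempty with rfl | hne
    · exact definable_empty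
    · have : S = univ := by
        obtain ⟨x, hx⟩ := hne
        ext y
        have : y = x := Subsingleton.elim _ _
        rw [this]
        simp [hx]
      rw [this]
      exact definable_univ
  refine ⟨?_, ?_, ?_, ?_⟩
  · intro n _ X _
    rcases X.eq_empty_or_nonempty with rfl | hne
    · right; simp
    · left
      have : 0 < X.ncard := (Set.ncard_pos (Set.toFinite X)).2 hne
      change (0 : ℝ) < (X.ncard : ℝ)
      exact_mod_cast this
  · intro n k _ φ
    refine ⟨Set.toFinite _, fun c => hdef _ _ _⟩
  · intro n _ X _
    rfl
  · intro n m _ _ X Y f _ _ _ himg hne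
    refine ⟨1, fun _ => Y, fun _ => (0, (X.ncard : ℝ)), fun _ => hdef _ _ _, fun _ => hne, ?_, ?_,
      ?_, ?_⟩
    · intro i j hij
      exact absurd (Subsingleton.elim i j) hij
    · exact iUnion_const Y
    · intro i y _
      refine Prod.ext rfl ?_
      simp only
      congr 2
      ext x
      constructor
      · rintro ⟨hx, -⟩; exact hx
      · intro hx; exact ⟨hx, Subsingleton.elim _ _⟩
    · intro c hc
      have hc0 : c = 0 := by
        obtain ⟨i, hi⟩ := hc.1
        simpa using hi.symm
      subst hc0
      refine Prod.ext rfl ?_
      have hY1 : Y.ncard = 1 := by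
        rw [Set.ncard_eq_one]
        obtain ⟨y, hy⟩ := hne
        exact ⟨y, Subset.antisymm (fun z _ => Subsingleton.elim z y) (by rintro _ rfl; exact hy)⟩
      simp [hY1]

end Pool.Agent.Helper89.MSSanity
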